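import Pool.Agent.Helper42.HC.QF
import Pool.Agent.Helper96.HN.Def

/-!
# `SLH 2` is `SL(2, ℍ)`

`slhQ : QG (SLH 2)`. `SLH 2` is the group of the matrices `g` of `SL(4, ℂ)` with `g J = J ḡ` (`Helper96/HN/Def.lean`).
`cocH`: let `σ` be a strongly continuous unitary representation of `SLH 2` with a positive operator valued measure on the discrete subgroup `FH` of the matrices with Gaussian integral entries, covariant for
the restriction of `σ`. Then every continuous cocycle with values in `σ` is a coboundary.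
-/

set_option autoImplicit false
set_option linter.unusedSectionVars false

open Matrix MeasureTheory Topology Filter

namespace Pool.Agent.Helper42.HC

open Pool.Agent.Helper84.SPQ Pool.Agent.Helper55.FP
open Pool.Agent.Helper96.HN (SLH val val_mul val_one val_inj det_val val_J continuous_val isClosedEmbedding_val)

/-- a quaternion from two complex numbers -/
def qi (α γ : ℂ) : Hq := ⟨α.re, α.im, γ.re, -γ.im⟩

/-- first complex coordinate -/
def qc (q : Hq) : ℂ := ⟨q.re, q.imI⟩

/-- second complex coordinate -/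
def qd (q : Hq) : ℂ := ⟨q.imJ, -q.imK⟩

theorem qi_re (α γ : ℂ) : (qi α γ).re = α.re := rfl

theorem qi_imI (α γ : ℂ) : (qi α γ).imI = α.im := rfl

theorem qi_imJ (α γ : ℂ) : (qi α γ).imJ = γ.re := rfl

theorem qi_imK (α γ : ℂ) : (qi α γ).imK = -γ.im := rfl

theorem qc_re (q : Hq) : (qc q).re = q.re := rfl

theorem qc_im (q : Hq) : (qc q).im = q.imI := rfl

theorem qd_re (q : Hq) : (qd q).re = q.imJ := rfl

theorem qd_im (q : Hq) : (qd q).im = -q.imK := rfl

theorem qi_cd (q : Hq) : qi (qc q) (qd q) = q := by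
  apply Quaternion.ext
  · rfl
  · rfl
  · rfl
  · rw [qi_imK, qd_im, neg_neg]

theorem qc_qi (α γ : ℂ) : qc (qi α γ) = α := rfl

theorem qd_qi (α γ : ℂ) : qd (qi α γ) = γ := by
  apply Complex.ext
  · rfl
  · rw [qd_im, qi_imK, neg_neg]

theorem qi_add (α γ α' γ' : ℂ) : qi (α + α') (γ + γ') = qi α γ + qi α' γ' := by
  apply Quaternion.ext
  · rfl
  · rfl
  · rfl
  · rw [Quaternion.imK_add, qi_imK, qi_imK, qi_imK, Complex.add_im]
    ring

theorem qi_mul (α γ α' γ' : ℂ) : qi (α * α' - starRingEnd ℂ γ * γ') (γ * α' + starRingEnd ℂ α * γ') = qi α γ * qi α' γ' := by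
  apply Quaternion.ext
  · rw [Quaternion.re_mul]
    simp only [qi_re, qi_imI, qi_imJ, qi_imK, Complex.sub_re, Complex.mul_re, Complex.conj_re, Complex.conj_im]
    ring
  · rw [Quaternion.imI_mul]
    simp only [qi_re, qi_imI, qi_imJ, qi_imK, Complex.sub_im, Complex.mul_im, Complex.conj_re, Complex.conj_im]
    ring
  · rw [Quaternion.imJ_mul]
    simp only [qi_re, qi_imI, qi_imJ, qi_imK, Complex.add_re, Complex.mul_re, Complex.conj_re, Complex.conj_im]
    ring
  · rw [Quaternion.imK_mul]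
    simp only [qi_re, qi_imI, qi_imJ, qi_imK, Complex.add_im, Complex.mul_im, Complex.conj_re, Complex.conj_im]
    ring

theorem qi_one : qi 1 0 = 1 := by
  apply Quaternion.ext
  · rfl
  · rfl
  · rfl
  · rw [qi_imK, Complex.zero_im, neg_zero]
    rfl

theorem qi_zero : qi 0 0 = 0 := by
  apply Quaternion.ext
  · rfl
  · rfl
  · rfl
  · rw [qi_imK, Complex.zero_im, neg_zero]
    rfl

theorem qi_star (α γ : ℂ) : star (qi α γ) = qi (starRingEnd ℂ α) (-γ) := by
  apply Quaternion.ext
  · rw [Quaternion.re_star, qi_re, qi_re, Complex.conj_re]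
  · rw [Quaternion.imI_star, qi_imI, qi_imI, Complex.conj_im]
  · rw [Quaternion.imJ_star, qi_imJ, qi_imJ, Complex.neg_re]
  · rw [Quaternion.imK_star, qi_imK, qi_imK, Complex.neg_im, neg_neg]

theorem qi_norm (α γ : ℂ) : ((‖qi α γ‖ ^ 2 : ℝ) : ℂ) = α * starRingEnd ℂ α + γ * starRingEnd ℂ γ := by
  rw [norm_sq_q, qi_re, qi_imI, qi_imJ, qi_imK, Complex.mul_conj, Complex.mul_conj, Complex.normSq_apply,
    Complex.normSq_apply, ← Complex.ofReal_add]
  congr 1
  ring

theorem continuous_qi {X : Type} [TopologicalSpace X] {f g : X → ℂ} (hf : Continuous f) (hg : Continuous g) :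
    Continuous fun x => qi (f x) (g x) := by
  have h1 : Continuous fun x => (!₂[(f x).re, (f x).im, (g x).re, -(g x).im] : EuclideanSpace ℝ (Fin 4)) := by
    refine (PiLp.continuous_toLp 2 _).comp (continuous_pi fun i => ?_)
    fin_cases i
    · exact Complex.continuous_re.comp hf
    · exact Complex.continuous_im.comp hf
    · exact Complex.continuous_re.comp hg
    · exact (Complex.continuous_im.comp hg).neg
  exact Quaternion.linearIsometryEquivTuple.symm.continuous.comp h1

theorem continuous_qc : Continuous qc :=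
  Complex.equivRealProdCLM.symm.continuous.comp (Quaternion.continuous_re.prodMk Quaternion.continuous_imI)

theorem continuous_qd : Continuous qd :=
  Complex.equivRealProdCLM.symm.continuous.comp (Quaternion.continuous_imJ.prodMk Quaternion.continuous_imK.neg)

theorem blocks (g : SLH 2) (i j : Fin 2) : val g (Sum.inl i) (Sum.inr j) = -starRingEnd ℂ (val g (Sum.inr i) (Sum.inl j)) ∧
    val g (Sum.inr i) (Sum.inr j) = starRingEnd ℂ (val g (Sum.inl i) (Sum.inl j)) := by
  obtain ⟨A, C, B, D, hM⟩ : ∃ A C B D, val g = fromBlocks A C B D :=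
    ⟨_, _, _, _, (fromBlocks_toBlocks _).symm⟩
  have h4 := val_J g
  rw [hM, fromBlocks_map, J, fromBlocks_multiply, fromBlocks_multiply, fromBlocks_inj] at h4
  simp only [Matrix.zero_mul, Matrix.mul_zero, add_zero, zero_add, Matrix.one_mul, Matrix.mul_one, Matrix.neg_mul,
    Matrix.mul_neg] at h4
  obtain ⟨h1, -, h3, -⟩ := h4
  rw [hM]
  constructor
  · show C i j = -starRingEnd ℂ (B i j)
    rw [h1]
    rfl
  · show D i j = starRingEnd ℂ (A i j)
    rw [h3]
    rfl

/-- the quaternionic matrix -/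
noncomputable def fS : SLH 2 →* MH (Fin 2) where
  toFun g := Matrix.of fun i j => qi (val g (Sum.inl i) (Sum.inl j)) (val g (Sum.inr i) (Sum.inl j))
  map_one' := by
    rw [val_one]
    refine Matrix.ext fun i j => ?_
    rw [Matrix.of_apply]
    have h1 : (1 : Matrix (Fin 2 ⊕ Fin 2) (Fin 2 ⊕ Fin 2) ℂ) (Sum.inr i) (Sum.inl j) = 0 :=
      Matrix.one_apply_ne (by simp)
    rw [h1]
    by_cases hij : i = j
    · subst hij
      rw [Matrix.one_apply_eq, Matrix.one_apply_eq, qi_one]
    · rw [Matrix.one_apply_ne hij, Matrix.one_apply_ne (by simpa using hij), qi_zero]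
  map_mul' g h := by
    refine Matrix.ext fun i j => ?_
    rw [Matrix.of_apply, Matrix.mul_apply, Fin.sum_univ_two, val_mul, Matrix.mul_apply, Matrix.mul_apply, Fintype.sum_sum_type,
      Fintype.sum_sum_type, Fin.sum_univ_two, Fin.sum_univ_two, Fin.sum_univ_two, Fin.sum_univ_two]
    simp only [Matrix.of_apply]
    rw [← qi_mul, ← qi_mul, ← qi_add]
    simp only [(blocks g i _).1, (blocks g i _).2]
    congr 1
    · ring
    · ring

theorem fS_apply (g : SLH 2) (i j : Fin 2) : fS g i j = qi (val g (Sum.inl i) (Sum.inl j)) (val g (Sum.inr i) (Sum.inl j)) := rfl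

/-- the complex matrix of a quaternionic matrix -/
noncomputable def qm (M : MH (Fin 2)) : Matrix (Fin 2 ⊕ Fin 2) (Fin 2 ⊕ Fin 2) ℂ :=
  fromBlocks (Matrix.of fun i j => qc (M i j)) (Matrix.of fun i j => -starRingEnd ℂ (qd (M i j)))
    (Matrix.of fun i j => qd (M i j)) (Matrix.of fun i j => starRingEnd ℂ (qc (M i j)))

theorem qm_fS (g : SLH 2) : qm (fS g) = val g := by
  unfold qm
  refine Matrix.ext fun a b => ?_
  rcases a with i | i <;> rcases b with j | j
  · show qc (fS g i j) = _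
    rw [fS_apply, qc_qi]
  · show -starRingEnd ℂ (qd (fS g i j)) = _
    rw [fS_apply, qd_qi, (blocks g i j).1]
  · show qd (fS g i j) = _
    rw [fS_apply, qd_qi]
  · show starRingEnd ℂ (qc (fS g i j)) = _
    rw [fS_apply, qc_qi, (blocks g i j).2]

theorem continuous_qm : Continuous qm := by
  unfold qm
  have h : ∀ i j : Fin 2, Continuous fun M : MH (Fin 2) => M i j := fun i j => continuous_id.matrix_elem i j
  refine Continuous.matrix_fromBlocks ?_ ?_ ?_ ?_
  · exact continuous_matrix fun i j => continuous_qc.comp (h i j)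
  · exact continuous_matrix fun i j => (Complex.continuous_conj.comp (continuous_qd.comp (h i j))).neg
  · exact continuous_matrix fun i j => continuous_qd.comp (h i j)
  · exact continuous_matrix fun i j => Complex.continuous_conj.comp (continuous_qc.comp (h i j))

theorem continuous_fS : Continuous fS :=
  continuous_matrix fun i j => continuous_qi (continuous_val.matrix_elem _ _) (continuous_val.matrix_elem _ _)

theorem det_qm (M : MH (Fin 2)) : (qm M).det = (dl M : ℂ) := by
  have h0 : ∀ q : Hq, ∃ α γ : ℂ, q = qi α γ := fun q => ⟨_, _, (qi_cd q).symm⟩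
  obtain ⟨αa, γa, ha⟩ := h0 (M 0 0)
  obtain ⟨αb, γb, hb⟩ := h0 (M 0 1)
  obtain ⟨αc, γc, hc⟩ := h0 (M 1 0)
  obtain ⟨αd, γd, hd⟩ := h0 (M 1 1)
  have h1 : (qm M).det = (!![αa, αb, -starRingEnd ℂ γa, -starRingEnd ℂ γb;
      αc, αd, -starRingEnd ℂ γc, -starRingEnd ℂ γd;
      γa, γb, starRingEnd ℂ αa, starRingEnd ℂ αb;
      γc, γd, starRingEnd ℂ αc, starRingEnd ℂ αd] : Matrix (Fin 4) (Fin 4) ℂ).det := by
    rw [← Matrix.det_reindex_self finSumFinEquiv]
    congr 1
    have e1 : αa = qc (M 0 0) := by rw [ha, qc_qi]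
    have e2 : αb = qc (M 0 1) := by rw [hb, qc_qi]
    have e3 : αc = qc (M 1 0) := by rw [hc, qc_qi]
    have e4 : αd = qc (M 1 1) := by rw [hd, qc_qi]
    have e5 : γa = qd (M 0 0) := by rw [ha, qd_qi]
    have e6 : γb = qd (M 0 1) := by rw [hb, qd_qi]
    have e7 : γc = qd (M 1 0) := by rw [hc, qd_qi]
    have e8 : γd = qd (M 1 1) := by rw [hd, qd_qi]
    rw [e1, e2, e3, e4, e5, e6, e7, e8]
    refine Matrix.ext fun i j => ?_
    fin_cases i <;> fin_cases j <;> rfl
  have h2 : star (M 0 0) * M 0 1 + star (M 1 0) * M 1 1 =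
      qi ((starRingEnd ℂ αa * αb + starRingEnd ℂ γa * γb) + (starRingEnd ℂ αc * αd + starRingEnd ℂ γc * γd))
        ((αa * γb - γa * αb) + (αc * γd - γc * αd)) := by
    rw [ha, hb, hc, hd, qi_star, qi_star, ← qi_mul, ← qi_mul, ← qi_add]
    congr 1
    · simp only [map_neg]
      ring
    · simp only [Complex.conj_conj]
      ring
  rw [h1]
  unfold dl
  rw [h2, ha, hb, hc, hd]
  push_cast [Complex.ofReal_sub, Complex.ofReal_mul]
  have e : ∀ α γ : ℂ, (‖qi α γ‖ : ℂ) ^ 2 = α * starRingEnd ℂ α + γ * starRingEnd ℂ γ := by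
    intro α γ
    rw [← qi_norm]
    push_cast
    rfl
  rw [e, e, e, e, e]
  simp only [map_add, map_sub, map_mul, Complex.conj_conj]
  simp only [Matrix.det_succ_row_zero, Fin.sum_univ_succ]
  simp [Fin.succAbove]
  ring

theorem dl_fS (g : SLH 2) : dl (fS g) = 1 := by
  have h := det_qm (fS g)
  rw [qm_fS, det_val] at h
  exact_mod_cast h.symm

theorem fS_surj (M : MH (Fin 2)) (h : dl M = 1) : ∃ g : SLH 2, fS g = M := by
  have h1 : (qm M).det = 1 := by
    rw [det_qm, h]
    norm_cast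
  have h2 : qm M * J (Fin 2) ℂ = J (Fin 2) ℂ * (qm M).map (starRingEnd ℂ) := by
    unfold qm
    rw [J, fromBlocks_map, fromBlocks_multiply, fromBlocks_multiply]
    congr 1
    · simp only [Matrix.zero_mul, Matrix.mul_zero, zero_add, Matrix.neg_mul, Matrix.one_mul, Matrix.mul_one]
      refine Matrix.ext fun i j => ?_
      show -starRingEnd ℂ (qd (M i j)) = -(starRingEnd ℂ (qd (M i j)))
      rfl
    · simp only [Matrix.zero_mul, Matrix.mul_zero, zero_add, add_zero, Matrix.neg_mul, Matrix.one_mul, Matrix.mul_one,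
        Matrix.mul_neg]
      refine Matrix.ext fun i j => ?_
      show -qc (M i j) = -(starRingEnd ℂ (starRingEnd ℂ (qc (M i j))))
      rw [Complex.conj_conj]
    · simp only [Matrix.zero_mul, Matrix.mul_zero, zero_add, add_zero, Matrix.one_mul, Matrix.mul_one]
      refine Matrix.ext fun i j => ?_
      rfl
    · simp only [Matrix.zero_mul, Matrix.mul_zero, zero_add, add_zero, Matrix.neg_mul, Matrix.one_mul, Matrix.mul_one,
        Matrix.mul_neg]
      refine Matrix.ext fun i j => ?_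
      show -qd (M i j) = starRingEnd ℂ (-starRingEnd ℂ (qd (M i j)))
      rw [map_neg, Complex.conj_conj]
  refine ⟨⟨⟨qm M, h1⟩, h2⟩, ?_⟩
  refine Matrix.ext fun _ _ => ?_
  show qi (qc (M _ _)) (qd (M _ _)) = M _ _
  exact qi_cd _

theorem fS_emb : IsClosedEmbedding fS := by
  have h1 : IsEmbedding fS := by
    refine IsEmbedding.of_comp continuous_fS continuous_qm ?_
    have e : qm ∘ fS = val := by
      funext g
      exact qm_fS g
    rw [e]
    exact isClosedEmbedding_val.isEmbedding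
  refine ⟨h1, ?_⟩
  have e : Set.range fS = {M : MH (Fin 2) | dl M = 1} := by
    ext M
    constructor
    · rintro ⟨g, rfl⟩
      exact dl_fS g
    · intro h
      exact fS_surj M h
  rw [e]
  refine isClosed_eq ?_ continuous_const
  unfold dl
  have h : ∀ i j : Fin 2, Continuous fun M : MH (Fin 2) => M i j := fun i j => continuous_id.matrix_elem i j
  have hs : Continuous (star : Hq → Hq) := continuous_star
  exact ((((h 0 0).norm.pow 2).add ((h 1 0).norm.pow 2)).mul (((h 0 1).norm.pow 2).add ((h 1 1).norm.pow 2))).sub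
    (((((hs.comp (h 0 0)).mul (h 0 1)).add ((hs.comp (h 1 0)).mul (h 1 1))).norm).pow 2)

/-- `SLH 2` is `SL(2, ℍ)`. -/
noncomputable def slhQ : QG (SLH 2) where
  φ := fS
  emb := fS_emb
  det := dl_fS
  surj := fS_surj

/-- the Gaussian integers in `ℂ` -/
noncomputable def gI : Subring ℂ := GaussianInt.toComplex.range

/-- the discrete subgroup of the matrices with Gaussian integral entries -/
noncomputable def FH (n : ℕ) : Subgroup (SLH n) where
  carrier := {g | ∀ a b, val g a b ∈ gI}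
  one_mem' := by
    intro a b
    rw [val_one]
    by_cases hab : a = b
    · rw [hab, Matrix.one_apply_eq]
      exact gI.one_mem
    · rw [Matrix.one_apply_ne hab]
      exact gI.zero_mem
  mul_mem' := by
    intro g h hg hh a b
    rw [val_mul, Matrix.mul_apply]
    exact gI.sum_mem fun c _ => gI.mul_mem (hg a c) (hh c b)
  inv_mem' := by
    intro g hg a b
    choose B hB using hg
    have h1 : val g = (GaussianInt.toComplex).mapMatrix (Matrix.of B) := by
      refine Matrix.ext fun a b => ?_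
      exact (hB a b).symm
    have h2 : val g⁻¹ = (GaussianInt.toComplex).mapMatrix (Matrix.of B).adjugate := by
      have h3 : val g⁻¹ = (val g).adjugate := rfl
      rw [h3, h1, RingHom.map_adjugate]
    rw [h2]
    exact ⟨_, rfl⟩

theorem gI_norm {z : ℂ} (hz : z ∈ gI) (h : ‖z‖ < 1) : z = 0 := by
  obtain ⟨w, rfl⟩ := hz
  by_contra hne
  have h1 : w ≠ 0 := by
    rintro rfl
    exact hne (map_zero _)
  have h2 : (1 : ℤ) ≤ w.norm := by
    have := GaussianInt.norm_pos.2 h1
    omega
  have h3 : ((w.norm : ℤ) : ℝ) = Complex.normSq (w : ℂ) := by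
    rw [← GaussianInt.intCast_real_norm]
  have h4 : ‖(w : ℂ)‖ ^ 2 < 1 := by
    have h5 := norm_nonneg (w : ℂ)
    have h6 : ‖(w : ℂ)‖ < 1 := h
    nlinarith
  rw [← Complex.normSq_eq_norm_sq, ← h3] at h4
  have h5 : (1 : ℝ) ≤ ((w.norm : ℤ) : ℝ) := by exact_mod_cast h2
  linarith

theorem discrete_FH (n : ℕ) : DiscreteTopology (FH n) := by
  refine discreteTopology_of_isOpen_singleton_one ?_
  have h1 : ({1} : Set (FH n)) = ⋂ a, ⋂ b, {g : FH n | ‖val (g : SLH n) a b - (1 : Matrix (Fin n ⊕ Fin n) (Fin n ⊕ Fin n) ℂ) a b‖ < 1} := by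
    ext g
    simp only [Set.mem_singleton_iff, Set.mem_iInter, Set.mem_ofPred_eq]
    constructor
    · rintro rfl a b
      have : val ((1 : FH n) : SLH n) = 1 := rfl
      rw [this, sub_self, norm_zero]
      exact one_pos
    · intro h
      apply Subtype.ext
      apply val_inj
      refine Matrix.ext fun a b => ?_
      have h2 := gI_norm (gI.sub_mem (g.2 a b) ((1 : FH n).2 a b)) (h a b)
      exact sub_eq_zero.1 h2
  rw [h1]
  refine isOpen_iInter_of_finite fun a => isOpen_iInter_of_finite fun b => ?_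
  have h2 : Continuous fun g : FH n => val (g : SLH n) a b := (continuous_val.matrix_elem a b).comp continuous_subtype_val
  exact isOpen_lt (h2.sub continuous_const).norm continuous_const

theorem gI_nat (m n : ℕ) : (⟨(m : ℝ), (n : ℝ)⟩ : ℂ) ∈ gI := by
  refine ⟨⟨(m : ℤ), (n : ℤ)⟩, ?_⟩
  show (((⟨(m : ℤ), (n : ℤ)⟩ : GaussianInt)) : ℂ) = _
  rw [GaussianInt.toComplex_def']
  apply Complex.ext
  · simp
  · simp

theorem gI_conj {z : ℂ} (hz : z ∈ gI) : starRingEnd ℂ z ∈ gI := by
  obtain ⟨w, rfl⟩ := hz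
  exact ⟨star w, GaussianInt.toComplex_star w⟩

theorem mem_FH {g : SLH 2} (h : ∀ i j : Fin 2, qc (fS g i j) ∈ gI ∧ qd (fS g i j) ∈ gI) : g ∈ FH 2 := by
  intro a b
  rw [← qm_fS g]
  unfold qm
  rcases a with i | i <;> rcases b with j | j
  · exact (h i j).1
  · exact gI.neg_mem (gI_conj (h i j).2)
  · exact (h i j).2
  · exact gI_conj (h i j).1

theorem qcd_real (m : ℕ) : qc ((m : ℝ) : Hq) ∈ gI ∧ qd ((m : ℝ) : Hq) ∈ gI := by
  have h1 : qc ((m : ℝ) : Hq) = ⟨(m : ℝ), ((0 : ℕ) : ℝ)⟩ := by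
    apply Complex.ext
    · rfl
    · show (0 : ℝ) = ((0 : ℕ) : ℝ)
      simp
  have h2 : qd ((m : ℝ) : Hq) = 0 := by
    apply Complex.ext
    · rfl
    · show -(0 : ℝ) = 0
      simp
  rw [h1, h2]
  exact ⟨gI_nat _ _, gI.zero_mem⟩

theorem qcd_zero : qc (0 : Hq) ∈ gI ∧ qd (0 : Hq) ∈ gI := by
  have h := qcd_real 0
  have e : (((0 : ℕ) : ℝ) : Hq) = 0 := by simp
  rwa [e] at h

theorem qcd_one : qc (1 : Hq) ∈ gI ∧ qd (1 : Hq) ∈ gI := by
  have h := qcd_real 1
  have e : (((1 : ℕ) : ℝ) : Hq) = 1 := by simp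
  rwa [e] at h

theorem qcd_pt {R : ℕ} (x : Bx R) : qc (pt x) ∈ gI ∧ qd (pt x) ∈ gI := by
  refine ⟨gI_nat _ _, ?_⟩
  have h1 : qd (pt x) = starRingEnd ℂ ⟨((x 2 : ℕ) : ℝ), ((x 3 : ℕ) : ℝ)⟩ := rfl
  rw [h1]
  exact gI_conj (gI_nat _ _)

theorem h_mem_FH (R : ℕ) (x : Bx R) : slhQ.h (pt x) ∈ FH 2 := by
  have h1 : slhQ.u (pt x) ∈ FH 2 := by
    refine mem_FH fun i j => ?_
    have e : fS (slhQ.u (pt x)) = uM (pt x) := slhQ.φu (pt x)
    rw [e]
    unfold uM
    fin_cases i <;> fin_cases j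
    · exact qcd_one
    · exact qcd_pt x
    · exact qcd_zero
    · exact qcd_one
  have h2 : slhQ.l ∈ FH 2 := by
    refine mem_FH fun i j => ?_
    have e : fS slhQ.l = lM := slhQ.φl
    rw [e]
    unfold lM
    fin_cases i <;> fin_cases j
    · exact qcd_one
    · exact qcd_zero
    · exact qcd_real 5
    · exact qcd_one
  have h3 : slhQ.u (-pt x) = (slhQ.u (pt x))⁻¹ := by
    rw [eq_inv_iff_mul_eq_one, ← slhQ.u_add, neg_add_cancel, slhQ.u_zero]
  unfold QG.h
  rw [h3]
  exact (FH 2).mul_mem ((FH 2).mul_mem h1 h2) ((FH 2).inv_mem h1)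

/-- Cocycles of `SL(2, ℍ)` with values in tempered representations are coboundaries. -/
theorem cocH {E : Type} [NormedAddCommGroup E] [InnerProductSpace ℂ E] [CompleteSpace E] {σ : SLH 2 →* (E ≃ₗᵢ[ℂ] E)}
    (hσ : ∀ x, Continuous fun g => σ g x) (C : CovP (σ.comp (FH 2).subtype)) {b : SLH 2 → E}
    (hb : ∀ g h, b (g * h) = b g + σ g (b h)) (hbc : Continuous b) : ∃ v : E, ∀ g, b g + σ g v - v = 0 :=
  slhQ.vanish hσ h_mem_FH C hb hbc

end Pool.Agent.Helper42.HC
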