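import Mathlib

/-!
# Harmonic cocycles (MP_0f6f3f_an, `S_1`-side): compact averages and the harmonic representative

`σ` is a continuous unitary representation of the topological group `G` on the Hilbert space `E`, `b` a continuous `1`-cocycle, `ι : K → G` a continuous homomorphism of a
compact group, `ν` its invariant probability measure, and every `g` satisfies `g⁻¹ ∈ K g K`. If `σ` has a gap on the `K`-fixed vectors, then `b` is cohomologous to a cocycle which is zero on `K` and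
whose values are orthogonal to the `K`-fixed vectors (`exists_harmonic`).
-/

set_option autoImplicit false
set_option linter.unusedSectionVars false

open MeasureTheory Filter Topology

namespace Pool.Agent.Helper42.HC

/-- The invariant probability measure of a compact group. -/
theorem exists_haarProb (K : Type) [Group K] [TopologicalSpace K] [IsTopologicalGroup K] [CompactSpace K]
    [MeasurableSpace K] [BorelSpace K] :
    ∃ ν : Measure K, IsProbabilityMeasure ν ∧ ν.IsMulLeftInvariant ∧ ν.IsMulRightInvariant ∧ ν.IsInvInvariant ∧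
      ν.IsHaarMeasure := by
  let μ : Measure K := Measure.haarMeasure (⊤ : TopologicalSpace.PositiveCompacts K)
  have h1 : IsProbabilityMeasure μ := ⟨Measure.haarMeasure_self⟩
  have h2 : μ.IsMulLeftInvariant := inferInstance
  have h3 : μ.IsHaarMeasure := inferInstance
  have key : ∀ μ' : Measure K, IsProbabilityMeasure μ' → μ'.IsMulLeftInvariant → μ' = μ := by
    intro μ' i1 i2
    have h6 := Measure.isMulInvariant_eq_smul_of_compactSpace μ' μ
    have h7 := congrArg (fun m : Measure K => m Set.univ) h6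
    simp only [measure_univ, Measure.smul_apply] at h7
    have h8 : Measure.haarScalarFactor μ' μ = 1 := by
      have h9 : (1 : ENNReal) = (Measure.haarScalarFactor μ' μ : ENNReal) := by
        rw [h7, ENNReal.smul_def, smul_eq_mul, mul_one]
      exact_mod_cast h9.symm
    rw [h6, h8, one_smul]
  have h4 : μ.IsMulRightInvariant := by
    refine ⟨fun g => ?_⟩
    have hm : Measurable fun x : K => x * g := (continuous_mul_const g).measurable
    exact key _ (Measure.isProbabilityMeasure_map hm.aemeasurable) inferInstance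
  have h5 : μ.IsInvInvariant := by
    refine ⟨key _ ?_ ?_⟩
    · have hm : Measurable (Inv.inv : K → K) := continuous_inv.measurable
      exact Measure.isProbabilityMeasure_map hm.aemeasurable
    · exact inferInstance
  exact ⟨μ, h1, h2, h4, h5, h3⟩

variable {G K E : Type} [Group G] [TopologicalSpace G] [IsTopologicalGroup G]
  [Group K] [TopologicalSpace K] [IsTopologicalGroup K] [CompactSpace K] [MeasurableSpace K] [BorelSpace K]
  [NormedAddCommGroup E] [InnerProductSpace ℂ E] [CompleteSpace E]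

/-- A continuous function on a compact group is integrable. -/
theorem integrable_cont (ν : Measure K) [IsProbabilityMeasure ν] {F : Type} [NormedAddCommGroup F] {f : K → F}
    (hf : Continuous f) : Integrable f ν := by
  refine hf.integrable_of_hasCompactSupport ?_
  exact HasCompactSupport.of_compactSpace f

section Av

variable (ν : Measure K) [IsProbabilityMeasure ν] (ι : K →* G) (σ : G →* (E ≃ₗᵢ[ℂ] E))

/-- The average over `K`. -/
noncomputable def av (x : E) : E := ∫ k, σ (ι k) x ∂ν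

variable {ν ι σ} (hι : Continuous ι) (hσ : ∀ x, Continuous fun g => σ g x)

include hι hσ in
theorem cont_k (x : E) : Continuous fun k => σ (ι k) x := (hσ x).comp hι

include hι hσ in
theorem int_k (x : E) : Integrable (fun k => σ (ι k) x) ν := integrable_cont ν (cont_k hι hσ x)

theorem sig_mul (g h : G) (x : E) : σ (g * h) x = σ g (σ h x) := by
  rw [map_mul]
  rfl

theorem sig_one (x : E) : σ 1 x = x := by
  rw [map_one]
  rfl

theorem sig_inv (g : G) (x : E) : σ g⁻¹ (σ g x) = x := by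
  rw [← sig_mul, inv_mul_cancel, sig_one]

theorem sig_inv' (g : G) (x : E) : σ g (σ g⁻¹ x) = x := by
  rw [← sig_mul, mul_inv_cancel, sig_one]

theorem sig_adj (g : G) (x y : E) : (inner ℂ (σ g x) y : ℂ) = inner ℂ x (σ g⁻¹ y) := by
  have h := (σ g).inner_map_map x (σ g⁻¹ y)
  rw [sig_inv'] at h
  exact h

include hι hσ in
theorem av_add (x y : E) : av ν ι σ (x + y) = av ν ι σ x + av ν ι σ y := by
  unfold av
  rw [← integral_add (int_k hι hσ x) (int_k hι hσ y)]
  simp only [map_add]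

theorem av_smul (c : ℂ) (x : E) : av ν ι σ (c • x) = c • av ν ι σ x := by
  unfold av
  rw [← integral_smul]
  simp only [map_smul]

theorem av_norm (x : E) : ‖av ν ι σ x‖ ≤ ‖x‖ := by
  unfold av
  have h := norm_integral_le_of_norm_le_const (μ := ν) (f := fun k => σ (ι k) x) (C := ‖x‖)
    (Eventually.of_forall fun k => ((σ (ι k)).norm_map x).le)
  simpa using h

include hι hσ in
theorem sig_av [ν.IsMulLeftInvariant] (k : K) (x : E) : σ (ι k) (av ν ι σ x) = av ν ι σ x := by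
  unfold av
  have h1 : σ (ι k) (∫ k', σ (ι k') x ∂ν) = ∫ k', σ (ι k) (σ (ι k') x) ∂ν := by
    exact (ContinuousLinearMap.integral_comp_comm
      (((σ (ι k)).toContinuousLinearEquiv : E ≃L[ℂ] E) : E →L[ℂ] E) (int_k hι hσ x)).symm
  rw [h1]
  have h2 : (fun k' => σ (ι k) (σ (ι k') x)) = fun k' => (fun k'' => σ (ι k'') x) (k * k') := by
    funext k'
    rw [← sig_mul, ← map_mul]
  rw [h2]
  exact integral_mul_left_eq_self (fun k'' => σ (ι k'') x) k

theorem av_sig [ν.IsMulRightInvariant] (k : K) (x : E) : av ν ι σ (σ (ι k) x) = av ν ι σ x := by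
  unfold av
  have h2 : (fun k' => σ (ι k') (σ (ι k) x)) = fun k' => (fun k'' => σ (ι k'') x) (k' * k) := by
    funext k'
    rw [← sig_mul, ← map_mul]
  rw [h2]
  exact integral_mul_right_eq_self (fun k'' => σ (ι k'') x) k

theorem av_fix {x : E} (h : ∀ k, σ (ι k) x = x) : av ν ι σ x = x := by
  unfold av
  simp [h]

include hι hσ in
theorem av_adj [ν.IsInvInvariant] (x y : E) :
    (inner ℂ (av ν ι σ x) y : ℂ) = inner ℂ x (av ν ι σ y) := by
  have h1 : (inner ℂ x (av ν ι σ y) : ℂ) = ∫ k, (inner ℂ x (σ (ι k) y) : ℂ) ∂ν :=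
    (integral_inner (int_k hι hσ y) x).symm
  have h2 : (inner ℂ (av ν ι σ x) y : ℂ) = ∫ k, (inner ℂ (σ (ι k) x) y : ℂ) ∂ν := by
    have h3 : (inner ℂ y (av ν ι σ x) : ℂ) = ∫ k, (inner ℂ y (σ (ι k) x) : ℂ) ∂ν :=
      (integral_inner (int_k hι hσ x) y).symm
    rw [← inner_conj_symm, h3, ← integral_conj]
    exact integral_congr_ae (Eventually.of_forall fun k => inner_conj_symm _ _)
  rw [h1, h2, ← integral_inv_eq_self]
  refine integral_congr_ae (Eventually.of_forall fun k => ?_)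
  show (inner ℂ (σ (ι k⁻¹) x) y : ℂ) = inner ℂ x (σ (ι k) y)
  rw [map_inv, sig_adj, inv_inv]

end Av

/-! ### the operators `P σ(g) P` -/

section TT

variable {ν : Measure K} [IsProbabilityMeasure ν] [ν.IsMulLeftInvariant] [ν.IsMulRightInvariant] [ν.IsInvInvariant]
  {ι : K →* G} {σ : G →* (E ≃ₗᵢ[ℂ] E)}

/-- the projection onto the `K`-fixed vectors, as an operator -/
noncomputable def PK (ν : Measure K) [IsProbabilityMeasure ν] (ι : K →* G) (σ : G →* (E ≃ₗᵢ[ℂ] E))
    (hι : Continuous ι) (hσ : ∀ x, Continuous fun g => σ g x) : E →L[ℂ] E :=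
  LinearMap.mkContinuous
    { toFun := av ν ι σ
      map_add' := av_add hι hσ
      map_smul' := fun c x => av_smul c x } 1 (fun x => by
      rw [one_mul]
      exact av_norm x)

theorem PK_apply (hι : Continuous ι) (hσ : ∀ x, Continuous fun g => σ g x) (x : E) :
    PK ν ι σ hι hσ x = av ν ι σ x := rfl

variable (hι : Continuous ι) (hσ : ∀ x, Continuous fun g => σ g x)

/-- `P σ(g) P` -/
noncomputable def TK (ν : Measure K) [IsProbabilityMeasure ν] (ι : K →* G) (σ : G →* (E ≃ₗᵢ[ℂ] E)) (g : G) (x : E) : E :=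
  av ν ι σ (σ g (av ν ι σ x))

include hι hσ in
theorem av_av (x : E) : av ν ι σ (av ν ι σ x) = av ν ι σ x :=
  av_fix fun k => sig_av hι hσ k x

include hι hσ in
theorem TK_bi (k k' : K) (g : G) (x : E) : TK ν ι σ (ι k * g * ι k') x = TK ν ι σ g x := by
  unfold TK
  rw [sig_mul, sig_mul, sig_av hι hσ, av_sig]

include hι hσ in
theorem TK_adj (g : G) (x y : E) : (inner ℂ (TK ν ι σ g x) y : ℂ) = inner ℂ x (TK ν ι σ g⁻¹ y) := by
  unfold TK
  rw [av_adj hι hσ, sig_adj, av_adj hι hσ]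

variable (hGK : ∀ g : G, ∃ k k' : K, g⁻¹ = ι k * g * ι k')

include hι hσ hGK in
theorem TK_sa (g : G) (x y : E) : (inner ℂ (TK ν ι σ g x) y : ℂ) = inner ℂ x (TK ν ι σ g y) := by
  rw [TK_adj hι hσ]
  obtain ⟨k, k', h⟩ := hGK g
  rw [h, TK_bi hι hσ]

include hι hσ in
/-- `av (σ(g) av (σ(h) x))` is the average of `av (σ(g k h) x)`. -/
theorem av_mul (g h : G) (x : E) :
    av ν ι σ (σ g (av ν ι σ (σ h x))) = ∫ k, av ν ι σ (σ (g * ι k * h) x) ∂ν := by
  have h1 : av ν ι σ (σ h x) = ∫ k, σ (ι k) (σ h x) ∂ν := rfl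
  have hc : Integrable (fun k => σ (ι k) (σ h x)) ν := int_k hι hσ (σ h x)
  rw [h1]
  have h2 : σ g (∫ k, σ (ι k) (σ h x) ∂ν) = ∫ k, σ g (σ (ι k) (σ h x)) ∂ν :=
    (ContinuousLinearMap.integral_comp_comm
      (((σ g).toContinuousLinearEquiv : E ≃L[ℂ] E) : E →L[ℂ] E) hc).symm
  have hc2 : Integrable (fun k => σ g (σ (ι k) (σ h x))) ν :=
    integrable_cont ν ((σ g).continuous.comp (cont_k hι hσ (σ h x)))
  rw [h2, ← PK_apply hι hσ]
  have h3 : PK ν ι σ hι hσ (∫ k, σ g (σ (ι k) (σ h x)) ∂ν) = ∫ k, PK ν ι σ hι hσ (σ g (σ (ι k) (σ h x))) ∂ν :=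
    (ContinuousLinearMap.integral_comp_comm (PK ν ι σ hι hσ) hc2).symm
  rw [h3]
  refine integral_congr_ae (Eventually.of_forall fun k => ?_)
  show av ν ι σ (σ g (σ (ι k) (σ h x))) = av ν ι σ (σ (g * ι k * h) x)
  rw [sig_mul, sig_mul]

include hι hσ in
theorem TK_mul (g h : G) (x : E) : TK ν ι σ g (TK ν ι σ h x) = ∫ k, TK ν ι σ (g * ι k * h) x ∂ν := by
  have h1 := av_mul (ν := ν) hι hσ g h (av ν ι σ x)
  unfold TK
  rw [av_av hι hσ]
  exact h1

include hι hσ hGK in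
theorem TK_comm (g h : G) (x : E) : TK ν ι σ g (TK ν ι σ h x) = TK ν ι σ h (TK ν ι σ g x) := by
  have hc : ∀ y : E, Integrable (fun k => TK ν ι σ (g * ι k * h) y) ν := by
    intro y
    refine integrable_cont ν ?_
    have h1 : Continuous fun k : K => σ (g * ι k * h) (av ν ι σ y) :=
      (hσ (av ν ι σ y)).comp ((continuous_const.mul hι).mul continuous_const)
    exact (PK ν ι σ hι hσ).continuous.comp h1
  refine ext_inner_right ℂ fun y => ?_
  have e1 : (inner ℂ (TK ν ι σ g (TK ν ι σ h x)) y : ℂ) = inner ℂ x (TK ν ι σ g (TK ν ι σ h y)) := by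
    rw [TK_mul hι hσ, TK_mul hι hσ]
    have h2 : (inner ℂ x (∫ k, TK ν ι σ (g * ι k * h) y ∂ν) : ℂ) = ∫ k, (inner ℂ x (TK ν ι σ (g * ι k * h) y) : ℂ) ∂ν :=
      (integral_inner (hc y) x).symm
    have h3 : (inner ℂ (∫ k, TK ν ι σ (g * ι k * h) x ∂ν) y : ℂ) = ∫ k, (inner ℂ (TK ν ι σ (g * ι k * h) x) y : ℂ) ∂ν := by
      have h4 : (inner ℂ y (∫ k, TK ν ι σ (g * ι k * h) x ∂ν) : ℂ) = ∫ k, (inner ℂ y (TK ν ι σ (g * ι k * h) x) : ℂ) ∂ν :=
        (integral_inner (hc x) y).symm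
      rw [← inner_conj_symm, h4, ← integral_conj]
      exact integral_congr_ae (Eventually.of_forall fun k => inner_conj_symm _ _)
    rw [h2, h3]
    exact integral_congr_ae (Eventually.of_forall fun k => TK_sa hι hσ hGK _ _ _)
  rw [e1, ← TK_sa hι hσ hGK, ← TK_sa hι hσ hGK]

/-! ### cocycles -/

variable {b : G → E} (hb : ∀ g h, b (g * h) = b g + σ g (b h)) (hbc : Continuous b)

include hb in
theorem coc_one : b 1 = 0 := by
  have h := hb 1 1
  rw [mul_one, sig_one] at h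
  exact left_eq_add.1 h

include hb in
theorem coc_inv (g : G) : b g⁻¹ = -σ g⁻¹ (b g) := by
  have h := hb g⁻¹ g
  rw [inv_mul_cancel, coc_one hb] at h
  exact eq_neg_of_add_eq_zero_left h.symm

/-- Change of a cocycle by a coboundary. -/
theorem coc_add (hb : ∀ g h, b (g * h) = b g + σ g (b h)) (v : E) (g h : G) :
    b (g * h) + σ (g * h) v - v = (b g + σ g v - v) + σ g (b h + σ h v - v) := by
  rw [hb, sig_mul, map_sub, map_add]
  abel

include hι hb hbc in
/-- The cocycle can be made zero on `K`. -/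
theorem coc_K (ν : Measure K) [IsProbabilityMeasure ν] [ν.IsMulLeftInvariant] :
    ∃ w : E, ∀ k, b (ι k) + σ (ι k) w - w = 0 := by
  have hint : Integrable (fun k => b (ι k)) ν := integrable_cont ν (hbc.comp hι)
  refine ⟨∫ k, b (ι k) ∂ν, fun k => ?_⟩
  have h1 : σ (ι k) (∫ k', b (ι k') ∂ν) = ∫ k', σ (ι k) (b (ι k')) ∂ν :=
    (ContinuousLinearMap.integral_comp_comm
      (((σ (ι k)).toContinuousLinearEquiv : E ≃L[ℂ] E) : E →L[ℂ] E) hint).symm
  have h2 : (fun k' => σ (ι k) (b (ι k'))) = fun k' => (fun k'' => b (ι k'')) (k * k') - b (ι k) := by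
    funext k'
    show σ (ι k) (b (ι k')) = b (ι (k * k')) - b (ι k)
    rw [map_mul, hb, add_sub_cancel_left]
  have hint2 : Integrable (fun k' => b (ι (k * k'))) ν :=
    integrable_cont ν (hbc.comp (hι.comp (continuous_const.mul continuous_id)))
  rw [h1, h2, integral_sub hint2 (integrable_const _), integral_mul_left_eq_self (fun k'' => b (ι k'')) k]
  simp

include hι hσ hb in
theorem coc_sym (hK : ∀ k, b (ι k) = 0) (hGK : ∀ g : G, ∃ k k' : K, g⁻¹ = ι k * g * ι k') (g h : G) :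
    av ν ι σ (b g) + av ν ι σ (σ g (av ν ι σ (b h))) = av ν ι σ (b h) + av ν ι σ (σ h (av ν ι σ (b g))) := by
  have r1 : ∀ (x : G) (k : K), b (x * ι k) = b x := fun x k => by rw [hb, hK, map_zero, add_zero]
  have r2 : ∀ (x : G) (k : K), b (ι k * x) = σ (ι k) (b x) := fun x k => by rw [hb, hK, zero_add]
  have r3 : ∀ (x : G) (k k' : K), av ν ι σ (b (ι k * x * ι k')) = av ν ι σ (b x) := fun x k k' => by
    rw [r1, r2, av_sig]
  have r4 : ∀ x : G, av ν ι σ (b x⁻¹) = av ν ι σ (b x) := fun x => by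
    obtain ⟨k, k', h⟩ := hGK x
    rw [h, r3]
  have main : ∀ g h : G, av ν ι σ (b g) + av ν ι σ (σ g (av ν ι σ (b h))) = ∫ k, av ν ι σ (b (g * ι k * h)) ∂ν := by
    intro g h
    have e1 := av_mul (ν := ν) hι hσ g 1 (b h)
    rw [sig_one] at e1
    have hc : Integrable (fun k => av ν ι σ (σ (g * ι k * 1) (b h))) ν := by
      refine integrable_cont ν ?_
      have h1 : Continuous fun k : K => σ (g * ι k * 1) (b h) :=
        (hσ (b h)).comp ((continuous_const.mul hι).mul continuous_const)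
      exact (PK ν ι σ hι hσ).continuous.comp h1
    rw [e1]
    have e2 : (fun k => av ν ι σ (b (g * ι k * h))) =
        fun k => av ν ι σ (b g) + av ν ι σ (σ (g * ι k * 1) (b h)) := by
      funext k
      rw [hb (g * ι k) h, r1, av_add hι hσ, mul_one]
    rw [e2, integral_add (integrable_const _) hc]
    simp
  rw [main, main, ← integral_inv_eq_self (fun k => av ν ι σ (b (g * ι k * h)))]
  obtain ⟨k1, k2, hg⟩ := hGK g
  obtain ⟨k3, k4, hh⟩ := hGK h
  have e3 : (fun k => av ν ι σ (b (g * ι k⁻¹ * h))) = fun k => (fun k' => av ν ι σ (b (h * ι k' * g))) (k4 * k * k1) := by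
    funext k
    show av ν ι σ (b (g * ι k⁻¹ * h)) = av ν ι σ (b (h * ι (k4 * k * k1) * g))
    rw [← r4 (g * ι k⁻¹ * h)]
    have e4 : (g * ι k⁻¹ * h)⁻¹ = ι k3 * (h * ι (k4 * k * k1) * g) * ι k2 := by
      rw [mul_inv_rev, mul_inv_rev, hg, hh, map_inv, inv_inv, map_mul, map_mul]
      group
    rw [e4, r3]
  rw [e3]
  calc ∫ k, (fun k' => av ν ι σ (b (h * ι k' * g))) (k4 * k * k1) ∂ν
      = ∫ k, (fun k'' => (fun k' => av ν ι σ (b (h * ι k' * g))) (k4 * k'')) (k * k1) ∂ν := by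
        refine integral_congr_ae (Eventually.of_forall fun k => ?_)
        show av ν ι σ (b (h * ι (k4 * k * k1) * g)) = av ν ι σ (b (h * ι (k4 * (k * k1)) * g))
        rw [mul_assoc k4]
    _ = ∫ k, (fun k' => av ν ι σ (b (h * ι k' * g))) (k4 * k) ∂ν :=
        integral_mul_right_eq_self (fun k'' => (fun k' => av ν ι σ (b (h * ι k' * g))) (k4 * k'')) k1
    _ = ∫ k, av ν ι σ (b (h * ι k * g)) ∂ν :=
        integral_mul_left_eq_self (fun k' => av ν ι σ (b (h * ι k' * g))) k4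

include hι hσ hGK hb hbc in
/-- The harmonic representative. -/
theorem exists_harmonic {g₀ : G} {c : ℝ} (hc : 0 < c)
    (hgap : ∀ x : E, (∀ k, σ (ι k) x = x) → c * ‖x‖ ^ 2 ≤ ‖x‖ ^ 2 - (inner ℂ (σ g₀ x) x : ℂ).re) :
    ∃ v : E, (∀ k, b (ι k) + σ (ι k) v - v = 0) ∧ ∀ g, av ν ι σ (b g + σ g v - v) = 0 := by
  obtain ⟨w, hw⟩ := coc_K hι hb hbc ν
  obtain ⟨b', hb'⟩ : ∃ b' : G → E, b' = fun g => b g + σ g w - w := ⟨_, rfl⟩
  have hb1 : ∀ g h, b' (g * h) = b' g + σ g (b' h) := by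
    intro g h
    rw [hb']
    exact coc_add hb w g h
  have hbc' : Continuous b' := by
    rw [hb']
    exact (hbc.add (hσ w)).sub continuous_const
  have hK : ∀ k, b' (ι k) = 0 := by
    intro k
    rw [hb']
    exact hw k
  -- the operator `1 - T`
  obtain ⟨Tg, hTg⟩ : ∃ T : E →L[ℂ] E, ∀ x, T x = TK ν ι σ g₀ x :=
    ⟨(PK ν ι σ hι hσ).comp ((((σ g₀).toContinuousLinearEquiv : E ≃L[ℂ] E) : E →L[ℂ] E).comp (PK ν ι σ hι hσ)),
      fun x => rfl⟩
  have hco : ∀ x : E, min 1 c * ‖x‖ ^ 2 ≤ ‖(inner ℂ ((1 - Tg) x) x : ℂ)‖ := by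
    intro x
    have hfix : ∀ k, σ (ι k) (av ν ι σ x) = av ν ι σ x := fun k => sig_av hι hσ k x
    have h1 := hgap (av ν ι σ x) hfix
    have h2 : (inner ℂ (TK ν ι σ g₀ x) x : ℂ) = inner ℂ (σ g₀ (av ν ι σ x)) (av ν ι σ x) := by
      unfold TK
      rw [av_adj hι hσ]
    have h3 : ‖av ν ι σ x‖ ≤ ‖x‖ := av_norm x
    have h4 : (inner ℂ ((1 - Tg) x) x : ℂ).re = ‖x‖ ^ 2 - (inner ℂ (σ g₀ (av ν ι σ x)) (av ν ι σ x) : ℂ).re := by
      have e1 : (1 - Tg) x = x - TK ν ι σ g₀ x := by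
        rw [← hTg]
        rfl
      rw [e1, inner_sub_left, Complex.sub_re, h2]
      congr 1
      have e2 := inner_self_eq_norm_sq (𝕜 := ℂ) x
      exact e2
    refine le_trans ?_ (Complex.re_le_norm _)
    rw [h4]
    have h5 : min 1 c * ‖x‖ ^ 2 = min 1 c * (‖x‖ ^ 2 - ‖av ν ι σ x‖ ^ 2) + min 1 c * ‖av ν ι σ x‖ ^ 2 := by ring
    have h6 : 0 ≤ ‖x‖ ^ 2 - ‖av ν ι σ x‖ ^ 2 := by
      have := pow_le_pow_left₀ (norm_nonneg _) h3 2
      linarith
    have h7 : min 1 c * (‖x‖ ^ 2 - ‖av ν ι σ x‖ ^ 2) ≤ 1 * (‖x‖ ^ 2 - ‖av ν ι σ x‖ ^ 2) :=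
      mul_le_mul_of_nonneg_right (min_le_left _ _) h6
    have h8 : min 1 c * ‖av ν ι σ x‖ ^ 2 ≤ c * ‖av ν ι σ x‖ ^ 2 :=
      mul_le_mul_of_nonneg_right (min_le_right _ _) (by positivity)
    linarith
  have hm : 0 < min 1 c := lt_min one_pos hc
  have hunit : IsUnit (1 - Tg) := by
    refine ContinuousLinearMap.isUnit_of_forall_le_norm_inner_map (1 - Tg) (c := ⟨min 1 c, hm.le⟩) hm fun x => ?_
    rw [mul_comm]
    exact hco x
  rw [ContinuousLinearMap.isUnit_iff_bijective] at hunit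
  obtain ⟨v₀, hv₀⟩ := hunit.2 (av ν ι σ (b' g₀))
  have hv₀' : v₀ = TK ν ι σ g₀ v₀ + av ν ι σ (b' g₀) := by
    have e1 : (1 - Tg) v₀ = v₀ - TK ν ι σ g₀ v₀ := by
      rw [← hTg]
      rfl
    rw [← hv₀, e1]
    abel
  have hvfix : av ν ι σ v₀ = v₀ := by
    conv_lhs => rw [hv₀']
    rw [av_add hι hσ, av_av hι hσ]
    conv_rhs => rw [hv₀']
    congr 1
    unfold TK
    rw [av_av hι hσ]
  have hvfix' : ∀ k, σ (ι k) v₀ = v₀ := by
    intro k
    rw [← hvfix]
    exact sig_av hι hσ k v₀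
  have hTT : ∀ g, TK ν ι σ g v₀ = av ν ι σ (σ g v₀) := by
    intro g
    unfold TK
    rw [hvfix]
  have key : ∀ g, av ν ι σ (b' g) = v₀ - TK ν ι σ g v₀ := by
    intro g
    -- `(1 - T₀) (β g) = (1 - T_g) (β g₀) = (1 - T_g) (1 - T₀) v₀ = (1 - T₀) (1 - T_g) v₀`
    apply hunit.1
    have e1 := coc_sym (ν := ν) hι hσ hb1 hK hGK g g₀
    have e2 : (1 - Tg) (av ν ι σ (b' g)) = av ν ι σ (b' g) - av ν ι σ (σ g₀ (av ν ι σ (b' g))) := by
      have : (1 - Tg) (av ν ι σ (b' g)) = av ν ι σ (b' g) - TK ν ι σ g₀ (av ν ι σ (b' g)) := by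
        rw [← hTg]
        rfl
      rw [this]
      unfold TK
      rw [av_av hι hσ]
    have e3 : (1 - Tg) (v₀ - TK ν ι σ g v₀) =
        (v₀ - TK ν ι σ g v₀) - (TK ν ι σ g₀ v₀ - TK ν ι σ g₀ (TK ν ι σ g v₀)) := by
      have : (1 - Tg) (v₀ - TK ν ι σ g v₀) = (v₀ - TK ν ι σ g v₀) - Tg (v₀ - TK ν ι σ g v₀) := rfl
      rw [this, map_sub, hTg, hTg]
    have e4 : av ν ι σ (σ g (av ν ι σ (b' g₀))) = TK ν ι σ g (av ν ι σ (b' g₀)) := by
      unfold TK
      rw [av_av hι hσ]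
    have e5 : av ν ι σ (b' g₀) = v₀ - TK ν ι σ g₀ v₀ := by
      rw [← hv₀, ← hTg]
      rfl
    have e6 : TK ν ι σ g (v₀ - TK ν ι σ g₀ v₀) = TK ν ι σ g v₀ - TK ν ι σ g (TK ν ι σ g₀ v₀) := by
      have h1 := ((PK ν ι σ hι hσ).comp ((((σ g).toContinuousLinearEquiv : E ≃L[ℂ] E) : E →L[ℂ] E).comp
        (PK ν ι σ hι hσ))).map_sub v₀ (TK ν ι σ g₀ v₀)
      exact h1
    have e7 : av ν ι σ (b' g) - av ν ι σ (σ g₀ (av ν ι σ (b' g))) =
        av ν ι σ (b' g₀) - av ν ι σ (σ g (av ν ι σ (b' g₀))) := by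
      rw [sub_eq_sub_iff_add_eq_add, e1]
    rw [e2, e3, e7, e4, e5, e6, TK_comm hι hσ hGK g g₀]
    abel
  refine ⟨w + v₀, fun k => ?_, fun g => ?_⟩
  · have h1 := hw k
    have h2 := hvfix' k
    rw [map_add, h2]
    have h3 : b (ι k) + (σ (ι k) w + v₀) - (w + v₀) = b (ι k) + σ (ι k) w - w := by abel
    rw [h3, h1]
  · have h1 : b g + σ g (w + v₀) - (w + v₀) = b' g + (σ g v₀ - v₀) := by
      rw [hb', map_add]
      show b g + (σ g w + σ g v₀) - (w + v₀) = b g + σ g w - w + (σ g v₀ - v₀)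
      abel
    rw [h1, av_add hι hσ, key]
    have h2 : av ν ι σ (σ g v₀ - v₀) = TK ν ι σ g v₀ - v₀ := by
      have h3 := (PK ν ι σ hι hσ).map_sub (σ g v₀) v₀
      rw [PK_apply, PK_apply, PK_apply, hvfix] at h3
      rw [h3, hTT]
    rw [h2]
    abel

end TT

end Pool.Agent.Helper42.HC
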