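import Pool.Agent.Helper42.HC.Haa
import Pool.Agent.Helper55.FP.Cov

/-!
# Haagerup's inequality for positive words, from covariant positive operator valued measures

`cov_haagerup`: `u` is a unitary representation of a group `F` with a covariant finitely additive positive operator valued measure on `F` (`CovP u`), and `h x`, `x ∈ X`, are elements of `F` playing ping-pong on `F`:
there are disjoint sets `P x`, disjoint sets `Q x` with `P x ∩ Q y = ∅` and `h x (F ∖ Q x) = P x`. Then for all `n`, `ξ`, `v`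

`∑_{w} |⟨ξ, u(h(w 0) ⋯ h(w (n-1))) v⟩|² ≤ (n + 1)² |ξ|² |v|²`,

the sum over all words `w` of length `n` in `X`.
-/

set_option autoImplicit false
set_option linter.unusedSectionVars false

namespace Pool.Agent.Helper42.HC

open Pool.Agent.Helper55.FP

variable {F U X : Type} [Group F] [NormedAddCommGroup U] [InnerProductSpace ℂ U] [Fintype X]
  {u : F →* (U ≃ₗᵢ[ℂ] U)}

/-- the quadratic form of a set -/
noncomputable def qf (C : CovP u) (D : Set F) (x : U) : ℝ := (inner ℂ x (C.P D x) : ℂ).re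

theorem qf_nonneg (C : CovP u) (D : Set F) (x : U) : 0 ≤ qf C D x := C.nonneg D x

theorem qf_mono (C : CovP u) {D D' : Set F} (h : D ⊆ D') (x : U) : qf C D x ≤ qf C D' x := C.mono h x

theorem qf_univ (C : CovP u) (x : U) : qf C Set.univ x = ‖x‖ ^ 2 := by
  unfold qf
  rw [C.univ]
  have := inner_self_eq_norm_sq_to_K (𝕜 := ℂ) x
  rw [this]
  norm_cast

theorem qf_union (C : CovP u) {D D' : Set F} (h : Disjoint D D') (x : U) :
    qf C (D ∪ D') x = qf C D x + qf C D' x := by
  unfold qf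
  rw [C.union D D' h, inner_add_right, Complex.add_re]

theorem inner_cov (C : CovP u) (f : F) (D : Set F) (x y : U) :
    (inner ℂ (u f x) (C.P (lt f D) (u f y)) : ℂ) = inner ℂ x (C.P D y) := by
  rw [← C.cov, LinearIsometryEquiv.inner_map_map]

theorem qf_cov (C : CovP u) (f : F) (D : Set F) (x : U) : qf C (lt f D) (u f x) = qf C D x := by
  unfold qf
  rw [inner_cov]

/-- Cauchy-Schwarz -/
theorem qf_cs (C : CovP u) (D : Set F) (x y : U) :
    ‖(inner ℂ x (C.P D y) : ℂ)‖ ≤ √(qf C D x) * √(qf C D y) := by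
  rw [← Real.sqrt_mul (qf_nonneg C D x)]
  refine Real.le_sqrt_of_sq_le ?_
  obtain ⟨c, hc, hcz⟩ : ∃ c : ℂ, ‖c‖ = 1 ∧ c * inner ℂ x (C.P D y) = (‖(inner ℂ x (C.P D y) : ℂ)‖ : ℂ) := by
    by_cases h0 : (inner ℂ x (C.P D y) : ℂ) = 0
    · exact ⟨1, by simp, by rw [h0]; simp⟩
    · have h1 : (‖(inner ℂ x (C.P D y) : ℂ)‖ : ℂ) ≠ 0 := by
        rw [Ne, Complex.ofReal_eq_zero, norm_eq_zero]
        exact h0
      refine ⟨(‖(inner ℂ x (C.P D y) : ℂ)‖ : ℂ) / inner ℂ x (C.P D y), ?_, ?_⟩
      · rw [norm_div, Complex.norm_real, norm_norm, div_self]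
        rw [Ne, norm_eq_zero]
        exact h0
      · field_simp
  have key : ∀ t : ℝ, 0 ≤ qf C D y * (t * t) + 2 * ‖(inner ℂ x (C.P D y) : ℂ)‖ * t + qf C D x := by
    intro t
    have h1 := qf_nonneg C D (x + ((t : ℂ) * c) • y)
    have h2 : qf C D (x + ((t : ℂ) * c) • y) =
        qf C D y * (t * t) + 2 * ‖(inner ℂ x (C.P D y) : ℂ)‖ * t + qf C D x := by
      unfold qf
      rw [map_add, map_smul, inner_add_left, inner_add_right, inner_add_right, inner_smul_left, inner_smul_left,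
        inner_smul_right, inner_smul_right]
      have e1 : (inner ℂ y (C.P D x) : ℂ) = (starRingEnd ℂ) (inner ℂ x (C.P D y)) := by
        rw [inner_conj_symm, C.symm]
      have e2 : (t : ℂ) * c * inner ℂ x (C.P D y) = ((t * ‖(inner ℂ x (C.P D y) : ℂ)‖ : ℝ) : ℂ) := by
        rw [mul_assoc, hcz]
        push_cast
        ring
      have e3 : (starRingEnd ℂ) ((t : ℂ) * c) * (inner ℂ y (C.P D x) : ℂ) = ((t * ‖(inner ℂ x (C.P D y) : ℂ)‖ : ℝ) : ℂ) := by
        rw [e1, ← map_mul, e2, Complex.conj_ofReal]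
      have e4 : (starRingEnd ℂ) ((t : ℂ) * c) * ((t : ℂ) * c * (inner ℂ y (C.P D y) : ℂ)) =
          ((t * t : ℝ) : ℂ) * inner ℂ y (C.P D y) := by
        have e5 : (starRingEnd ℂ) ((t : ℂ) * c) * ((t : ℂ) * c) = ((t * t : ℝ) : ℂ) := by
          rw [← Complex.normSq_eq_conj_mul_self, map_mul, Complex.normSq_ofReal]
          have e6 : Complex.normSq c = 1 := by
            rw [Complex.normSq_eq_norm_sq, hc, one_pow]
          rw [e6, mul_one]
        rw [← mul_assoc, e5]
      rw [e2, e3, e4, Complex.add_re, Complex.add_re, Complex.add_re, Complex.re_ofReal_mul, Complex.ofReal_re]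
      ring
    rwa [h2] at h1
  have h3 := discrim_le_zero key
  unfold discrim at h3
  nlinarith [h3]

theorem qf_sum_le (C : CovP u) {I : Type} (s : Finset I) (S : I → Set F)
    (hS : ∀ i j, i ≠ j → Disjoint (S i) (S j)) (x : U) : ∑ i ∈ s, qf C (S i) x ≤ ‖x‖ ^ 2 := by
  classical
  have h1 : ∑ i ∈ s, qf C (S i) x ≤ qf C (⋃ i ∈ s, S i) x := by
    induction s using Finset.induction_on with
    | empty =>
      rw [Finset.sum_empty]
      exact qf_nonneg C _ _
    | insert a s ha ih =>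
      rw [Finset.sum_insert ha, Finset.set_biUnion_insert, qf_union]
      · gcongr
      · rw [Set.disjoint_iUnion₂_right]
        intro i hi
        refine hS a i ?_
        rintro rfl
        exact ha hi
  exact h1.trans ((qf_mono C (Set.subset_univ _) x).trans (le_of_eq (qf_univ C x)))

section words

variable (h : X → F) (P Q : X → Set F)

/-- the product of a word -/
def pw (l : List X) : F := (l.map h).prod

theorem pw_cons (x : X) (l : List X) : pw h (x :: l) = h x * pw h l := by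
  unfold pw
  rw [List.map_cons, List.prod_cons]

/-- the cylinders -/
def PS : List X → Set F
  | [] => Set.univ
  | x :: l => {f | f ∈ P x ∧ (h x)⁻¹ * f ∈ PS l}

/-- the cylinders of the inverse words -/
def QS : List X → Set F
  | [] => Set.univ
  | x :: l => {f | f ∈ QS l ∧ pw h l * f ∈ Q x}

variable {h P Q}

theorem PS_disj (hP : ∀ x y, x ≠ y → Disjoint (P x) (P y)) : ∀ (l l' : List X), l.length = l'.length → l ≠ l' →
    Disjoint (PS h P l) (PS h P l')
  | [], [], _, hne => absurd rfl hne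
  | x :: l, y :: l', hl, hne => by
    rw [Set.disjoint_left]
    rintro f ⟨h1, h2⟩ ⟨h3, h4⟩
    by_cases hxy : x = y
    · subst hxy
      have hne' : l ≠ l' := fun e => hne (by rw [e])
      have hl' : l.length = l'.length := by simpa using hl
      exact Set.disjoint_left.1 (PS_disj hP l l' hl' hne') h2 h4
    · exact Set.disjoint_left.1 (hP x y hxy) h1 h3
  | [], _ :: _, hl, _ => by simp at hl
  | _ :: _, [], hl, _ => by simp at hl

theorem QS_disj (hQ : ∀ x y, x ≠ y → Disjoint (Q x) (Q y)) : ∀ (l l' : List X), l.length = l'.length → l ≠ l' →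
    Disjoint (QS h Q l) (QS h Q l')
  | [], [], _, hne => absurd rfl hne
  | x :: l, y :: l', hl, hne => by
    rw [Set.disjoint_left]
    rintro f ⟨h1, h2⟩ ⟨h3, h4⟩
    have hl' : l.length = l'.length := by simpa using hl
    by_cases hll : l = l'
    · subst hll
      have hxy : x ≠ y := fun e => hne (by rw [e])
      exact Set.disjoint_left.1 (hQ x y hxy) h2 h4
    · exact Set.disjoint_left.1 (QS_disj hQ l l' hl' hll) h1 h3
  | [], _ :: _, hl, _ => by simp at hl
  | _ :: _, [], hl, _ => by simp at hl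

theorem mem_QS (hPQ : ∀ x y, Disjoint (P x) (Q y)) (hh : ∀ x f, f ∉ Q x → h x * f ∈ P x) (g : F) :
    ∀ (l : List X) (y : X), pw h l * g ∈ Q y → g ∈ QS h Q l
  | [], _, _ => Set.mem_univ _
  | z :: l, y, hy => by
    rw [pw_cons, mul_assoc] at hy
    have h1 : pw h l * g ∈ Q z := by
      by_contra hcon
      exact Set.disjoint_left.1 (hPQ z y) (hh z _ hcon) hy
    exact ⟨mem_QS hPQ hh g l z h1, h1⟩

theorem coef_le (C : CovP u) (hPQ : ∀ x y, Disjoint (P x) (Q y)) (hh : ∀ x f, f ∉ Q x → h x * f ∈ P x)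
    (v : U) (l : List X) : ∀ (ξ : U) (D : Set F),
    ‖(inner ℂ ξ (C.P D (u (pw h l) v)) : ℂ)‖ ≤
      ∑ k ∈ Finset.range (l.length + 1), √(qf C (D ∩ PS h P (l.take k)) ξ) * √(qf C (QS h Q (l.drop k)) v) := by
  induction l with
  | nil =>
    intro ξ D
    have e : pw h ([] : List X) = 1 := rfl
    have e2 : PS h P [] = Set.univ := rfl
    have e3 : QS h Q [] = Set.univ := rfl
    rw [List.length_nil, Finset.sum_range_one, e, map_one, List.take_zero, List.drop_zero, e2, e3, Set.inter_univ]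
    refine (qf_cs C D ξ v).trans ?_
    exact mul_le_mul_of_nonneg_left (Real.sqrt_le_sqrt (qf_mono C (Set.subset_univ _) v)) (Real.sqrt_nonneg _)
  | cons x l ih =>
    intro ξ D
    rw [List.length_cons, Finset.sum_range_succ']
    have hD : D = (D ∩ P x) ∪ (D \ P x) := (Set.inter_union_sdiff D (P x)).symm
    have hdis : Disjoint (D ∩ P x) (D \ P x) := by
      rw [Set.disjoint_left]
      rintro f ⟨_, h2⟩ ⟨_, h4⟩
      exact h4 h2
    have e1 : C.P D (u (pw h (x :: l)) v) = C.P (D ∩ P x) (u (pw h (x :: l)) v) + C.P (D \ P x) (u (pw h (x :: l)) v) := by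
      rw [← C.union _ _ hdis, ← hD]
    rw [e1, inner_add_right]
    refine (norm_add_le _ _).trans (add_le_add ?_ ?_)
    · -- the part in `P x`
      have e2 : (inner ℂ ξ (C.P (D ∩ P x) (u (pw h (x :: l)) v)) : ℂ) =
          inner ℂ (u (h x)⁻¹ ξ) (C.P (lt (h x)⁻¹ (D ∩ P x)) (u (pw h l) v)) := by
        have e3 := inner_cov C (h x)⁻¹ (D ∩ P x) ξ (u (pw h (x :: l)) v)
        rw [← e3, pw_cons, map_mul]
        congr 2
        show u (h x)⁻¹ (u (h x) (u (pw h l) v)) = u (pw h l) v
        have e5 : (u (h x)⁻¹ * u (h x)) (u (pw h l) v) = u (pw h l) v := by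
          rw [← map_mul, inv_mul_cancel, map_one]
          rfl
        exact e5
      rw [e2]
      refine (ih _ _).trans (le_of_eq ?_)
      refine Finset.sum_congr rfl fun k _ => ?_
      rw [List.take_succ_cons, List.drop_succ_cons]
      congr 2
      have e3 := qf_cov C (h x)⁻¹ (D ∩ PS h P (x :: l.take k)) ξ
      rw [← e3]
      congr 1
      ext f
      simp only [mem_lt, inv_inv, Set.mem_inter_iff, PS, Set.mem_ofPred_eq, inv_mul_cancel_left]
      tauto
    · -- the part outside `P x`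
      rw [List.take_zero, List.drop_zero]
      refine (qf_cs C _ ξ _).trans ?_
      refine mul_le_mul (Real.sqrt_le_sqrt (qf_mono C ?_ ξ)) (Real.sqrt_le_sqrt ?_) (Real.sqrt_nonneg _) (Real.sqrt_nonneg _)
      · rintro f ⟨hf, _⟩
        exact ⟨hf, Set.mem_univ _⟩
      · have e3 := qf_cov C (pw h (x :: l)) (lt (pw h (x :: l))⁻¹ (D \ P x)) v
        have e4 : lt (pw h (x :: l)) (lt (pw h (x :: l))⁻¹ (D \ P x)) = D \ P x := by
          ext f
          simp only [mem_lt, inv_inv, mul_inv_cancel_left]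
        rw [e4] at e3
        rw [e3]
        refine qf_mono C ?_ v
        intro g hg
        rw [mem_lt, inv_inv] at hg
        obtain ⟨_, hg2⟩ := hg
        rw [pw_cons, mul_assoc] at hg2
        have h1 : pw h l * g ∈ Q x := by
          by_contra hcon
          exact hg2 (hh x _ hcon)
        exact ⟨mem_QS hPQ hh g l x h1, h1⟩

theorem wsum_qf_le (C : CovP u) (S : List X → Set F)
    (hS : ∀ l l' : List X, l.length = l'.length → l ≠ l' → Disjoint (S l) (S l')) (n : ℕ) (x : U) :
    wsum n (fun l => qf C (S l) x) ≤ ‖x‖ ^ 2 := by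
  rw [← wsum_ofFn]
  refine qf_sum_le C Finset.univ (fun f : Fin n → X => S (List.ofFn f)) ?_ x
  intro f g hfg
  refine hS _ _ (by rw [List.length_ofFn, List.length_ofFn]) fun e => hfg ?_
  exact List.ofFn_injective e

/-- Haagerup's inequality for the positive words. -/
theorem cov_haagerup (C : CovP u) (hP : ∀ x y, x ≠ y → Disjoint (P x) (P y))
    (hQ : ∀ x y, x ≠ y → Disjoint (Q x) (Q y)) (hPQ : ∀ x y, Disjoint (P x) (Q y))
    (hh : ∀ x f, f ∉ Q x → h x * f ∈ P x) (n : ℕ) (ξ v : U) :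
    wsum n (fun l => ‖(inner ℂ ξ (u (pw h l) v) : ℂ)‖ ^ 2) ≤ (n + 1) ^ 2 * (‖ξ‖ ^ 2 * ‖v‖ ^ 2) := by
  have h1 : ∀ l : List X, l.length = n → ‖(inner ℂ ξ (u (pw h l) v) : ℂ)‖ ^ 2 ≤
      ∑ k ∈ Finset.range (n + 1), ((n : ℝ) + 1) * (qf C (PS h P (l.take k)) ξ * qf C (QS h Q (l.drop k)) v) := by
    intro l hl
    rw [← Finset.mul_sum]
    have h2 := coef_le C hPQ hh v l ξ Set.univ
    rw [C.univ, hl] at h2
    simp only [Set.univ_inter] at h2
    refine (pow_le_pow_left₀ (norm_nonneg _) h2 2).trans ?_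
    refine (sq_sum_le_card_mul_sum_sq).trans ?_
    rw [Finset.card_range]
    push_cast
    simp only [mul_pow, Real.sq_sqrt (qf_nonneg C _ _)]
    exact le_rfl
  refine (wsum_mono n h1).trans ?_
  rw [wsum_sum]
  have h3 : ∀ k ∈ Finset.range (n + 1), wsum n (fun l : List X => ((n : ℝ) + 1) *
      (qf C (PS h P (l.take k)) ξ * qf C (QS h Q (l.drop k)) v)) ≤ ((n : ℝ) + 1) * (‖ξ‖ ^ 2 * ‖v‖ ^ 2) := by
    intro k hk
    rw [Finset.mem_range] at hk
    obtain ⟨m, rfl⟩ : ∃ m, n = k + m := ⟨n - k, by omega⟩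
    rw [wsum_mul, wsum_split k m (fun l => qf C (PS h P l) ξ) (fun l => qf C (QS h Q l) v)]
    refine mul_le_mul_of_nonneg_left ?_ (by positivity)
    exact mul_le_mul (wsum_qf_le C _ (PS_disj hP) k ξ) (wsum_qf_le C _ (QS_disj hQ) m v)
      (wsum_nonneg m fun l => qf_nonneg C _ _) (by positivity)
  refine (Finset.sum_le_sum h3).trans ?_
  rw [Finset.sum_const, Finset.card_range, nsmul_eq_mul]
  push_cast
  have : ((n : ℝ) + 1) * (((n : ℝ) + 1) * (‖ξ‖ ^ 2 * ‖v‖ ^ 2)) = (n + 1) ^ 2 * (‖ξ‖ ^ 2 * ‖v‖ ^ 2) := by ring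
  rw [this]

end words

end Pool.Agent.Helper42.HC
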