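import Pool.Agent.Helper42.HC.Coc

/-!
# Harmonic functions with small energy

`Geo ι`: a submultiplicative left-`K`-invariant size `N ≥ 1` on the group `G` such that every element of `K` is a product of at most `L N(g)²` small rotations `k`, small in the sense that
`g⁻¹ k g` stays in a fixed compact set.

`sphere_le`: for a continuous function `f` with mean zero on the sphere `K g`, `∫_K |f(kg)|² dk ≤ C N(g)⁴ ∫_K ∫_B |f(kgz) - f(kg)|² dz dk`.
`Ag_sub`: for harmonic `f` the square norm on the sphere of `g` is at most the mean over `k` of the square norms on the spheres of `g k h`.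
-/

set_option autoImplicit false
set_option linter.unusedSectionVars false

open MeasureTheory Filter Topology
open scoped ENNReal

namespace Pool.Agent.Helper42.HC

variable {G K : Type} [Group G] [TopologicalSpace G] [IsTopologicalGroup G] [MeasurableSpace G] [BorelSpace G]
  [SecondCountableTopology G]
  [Group K] [TopologicalSpace K] [IsTopologicalGroup K] [CompactSpace K] [MeasurableSpace K] [BorelSpace K]
  [SecondCountableTopology K]

/-- The geometry used in the energy argument. -/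
structure Geo (ι : K →* G) where
  N : G → ℝ
  cont : Continuous N
  one_le : ∀ g, 1 ≤ N g
  mul : ∀ g h, N (g * h) ≤ N g * N h
  left : ∀ (k : K) (g : G), N (ι k * g) = N g
  B : Set G
  compB : IsCompact B
  L : ℝ
  root : ∀ (g : G) (k₀ : K), ∃ l : List K, l.prod = k₀ ∧ (l.length : ℝ) ≤ L * N g ^ 2 ∧ ∀ k ∈ l, g⁻¹ * ι k * g ∈ B

/-- squared distance -/
noncomputable def sqd (z w : ℂ) : ℝ≥0∞ := ENNReal.ofReal (‖z - w‖ ^ 2)

theorem sqd_comm (z w : ℂ) : sqd z w = sqd w z := by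
  unfold sqd
  rw [norm_sub_rev]

theorem sqd_tri (z w u : ℂ) : sqd z u ≤ 2 * (sqd z w + sqd w u) := by
  unfold sqd
  rw [← ENNReal.ofReal_add (by positivity) (by positivity)]
  have h2 : (2 : ℝ≥0∞) = ENNReal.ofReal 2 := by simp
  rw [h2, ← ENNReal.ofReal_mul (by norm_num)]
  refine ENNReal.ofReal_le_ofReal ?_
  have h : ‖z - u‖ ≤ ‖z - w‖ + ‖w - u‖ := by
    have e : z - u = (z - w) + (w - u) := by ring
    rw [e]
    exact norm_add_le _ _
  have h0 := norm_nonneg (z - u)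
  have h1 : ‖z - u‖ ^ 2 ≤ (‖z - w‖ + ‖w - u‖) ^ 2 := pow_le_pow_left₀ h0 h 2
  nlinarith [sq_nonneg (‖z - w‖ - ‖w - u‖)]

theorem meas_sqd {X : Type} [TopologicalSpace X] [MeasurableSpace X] [OpensMeasurableSpace X] {f g : X → ℂ}
    (hf : Continuous f) (hg : Continuous g) : Measurable fun x => sqd (f x) (g x) := by
  unfold sqd
  exact ENNReal.measurable_ofReal.comp ((hf.sub hg).norm.pow 2).measurable

variable {μ : Measure G} [SFinite μ] [μ.IsMulLeftInvariant]

/-- the local energy -/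
noncomputable def e0 (μ : Measure G) (B : Set G) (f : G → ℂ) (g : G) : ℝ≥0∞ := ∫⁻ z in B, sqd (f (g * z)) (f g) ∂μ

theorem meas_e0 (B : Set G) {f : G → ℂ} (hf : Continuous f) : Measurable (e0 μ B f) := by
  unfold e0
  have h : Measurable fun p : G × G => sqd (f (p.1 * p.2)) (f p.1) :=
    meas_sqd (hf.comp continuous_mul) (hf.comp continuous_fst)
  exact h.lintegral_prod_right'

/-- comparison of two points through the points near both -/
theorem local_step {V B' : Set G} (hV : MeasurableSet V) (hVB : V ⊆ B') {f : G → ℂ} (hf : Continuous f)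
    (s y : G) (hy : ∀ z ∈ V, y⁻¹ * z ∈ B') :
    μ V * sqd (f (s * y)) (f s) ≤ 2 * (e0 μ B' f (s * y) + e0 μ B' f s) := by
  have h1 : μ V * sqd (f (s * y)) (f s) = ∫⁻ _ in V, sqd (f (s * y)) (f s) ∂μ := by
    rw [setLIntegral_const, mul_comm]
  have hm1 : Measurable fun z : G => sqd (f (s * y)) (f (s * z)) :=
    meas_sqd continuous_const (hf.comp (continuous_const.mul continuous_id))
  have h2 : ∫⁻ _ in V, sqd (f (s * y)) (f s) ∂μ ≤ ∫⁻ z in V, 2 * (sqd (f (s * y)) (f (s * z)) + sqd (f (s * z)) (f s)) ∂μ :=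
    lintegral_mono fun z => sqd_tri _ _ _
  have h3 : ∫⁻ z in V, sqd (f (s * z)) (f s) ∂μ ≤ e0 μ B' f s := lintegral_mono_set hVB
  have h4 : ∫⁻ z in V, sqd (f (s * y)) (f (s * z)) ∂μ ≤ e0 μ B' f (s * y) := by
    unfold e0
    have e1 : ∫⁻ z in V, sqd (f (s * y)) (f (s * z)) ∂μ =
        ∫⁻ z, V.indicator (fun z => sqd (f (s * y)) (f (s * z))) z ∂μ := (lintegral_indicator hV _).symm
    rw [e1, ← lintegral_mul_left_eq_self _ y]
    have hV' : MeasurableSet ((fun z => y * z) ⁻¹' V) := (continuous_const_mul y).measurable hV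
    have e2 : (fun z => V.indicator (fun z => sqd (f (s * y)) (f (s * z))) (y * z)) =
        ((fun z => y * z) ⁻¹' V).indicator (fun z => sqd (f (s * y * z)) (f (s * y))) := by
      funext z
      by_cases hz : y * z ∈ V
      · have hz' : z ∈ (fun z => y * z) ⁻¹' V := hz
        rw [Set.indicator_of_mem hz, Set.indicator_of_mem hz', sqd_comm, mul_assoc]
      · have hz' : z ∉ (fun z => y * z) ⁻¹' V := hz
        rw [Set.indicator_of_notMem hz, Set.indicator_of_notMem hz']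
    rw [e2, lintegral_indicator hV']
    refine lintegral_mono_set fun z hz => ?_
    have h5 := hy (y * z) hz
    rwa [inv_mul_cancel_left] at h5
  rw [h1]
  refine h2.trans ?_
  rw [lintegral_const_mul' _ _ (by simp), lintegral_add_left hm1]
  gcongr

variable {ν : Measure K} [IsProbabilityMeasure ν] [ν.IsMulLeftInvariant] [ν.IsMulRightInvariant]
  {ι : K →* G}

omit [IsTopologicalGroup K] [CompactSpace K] [BorelSpace K] [SecondCountableTopology K] [Group K] [TopologicalSpace K]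
  [MeasurableSpace K] in
/-- Cauchy-Schwarz along a path. -/
theorem sqd_path (z : ℕ → ℂ) (n : ℕ) : sqd (z n) (z 0) ≤ n * ∑ j ∈ Finset.range n, sqd (z (j + 1)) (z j) := by
  unfold sqd
  rw [← ENNReal.ofReal_sum_of_nonneg fun j _ => by positivity, ← ENNReal.ofReal_natCast n,
    ← ENNReal.ofReal_mul (Nat.cast_nonneg n)]
  refine ENNReal.ofReal_le_ofReal ?_
  have h1 : z n - z 0 = ∑ j ∈ Finset.range n, (z (j + 1) - z j) := (Finset.sum_range_sub z n).symm
  rw [h1]
  calc ‖∑ j ∈ Finset.range n, (z (j + 1) - z j)‖ ^ 2 ≤ (∑ j ∈ Finset.range n, ‖z (j + 1) - z j‖) ^ 2 :=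
        pow_le_pow_left₀ (norm_nonneg _) (norm_sum_le _ _) 2
    _ ≤ (Finset.range n).card * ∑ j ∈ Finset.range n, ‖z (j + 1) - z j‖ ^ 2 := sq_sum_le_card_mul_sum_sq
    _ = n * ∑ j ∈ Finset.range n, ‖z (j + 1) - z j‖ ^ 2 := by rw [Finset.card_range]

/-- squared distance of a function on `K` and its right translate -/
noncomputable def DK (ν : Measure K) (F : K → ℂ) (k : K) : ℝ≥0∞ := ∫⁻ k', sqd (F (k' * k)) (F k') ∂ν

theorem DK_list {F : K → ℂ} (hF : Continuous F) (l : List K) {C : ℝ≥0∞} (hC : ∀ k ∈ l, DK ν F k ≤ C) :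
    DK ν F l.prod ≤ (l.length : ℝ≥0∞) ^ 2 * C := by
  obtain ⟨n, hn⟩ : ∃ n, n = l.length := ⟨_, rfl⟩
  have h1 : DK ν F l.prod ≤
      ∫⁻ k', n * ∑ j ∈ Finset.range n, sqd (F (k' * (l.take (j + 1)).prod)) (F (k' * (l.take j).prod)) ∂ν := by
    unfold DK
    refine lintegral_mono fun k' => ?_
    have h := sqd_path (fun j => F (k' * (l.take j).prod)) n
    have e1 : l.take n = l := by rw [hn, List.take_length]
    simpa [e1] using h
  have hm : ∀ j : ℕ, Measurable fun k' : K => sqd (F (k' * (l.take (j + 1)).prod)) (F (k' * (l.take j).prod)) := fun j =>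
    meas_sqd (hF.comp (continuous_id.mul continuous_const)) (hF.comp (continuous_id.mul continuous_const))
  have h2 : ∀ j ∈ Finset.range n, ∫⁻ k', sqd (F (k' * (l.take (j + 1)).prod)) (F (k' * (l.take j).prod)) ∂ν ≤ C := by
    intro j hj
    rw [Finset.mem_range, hn] at hj
    have h3 := lintegral_mul_right_eq_self (μ := ν) (fun k' => sqd (F (k' * l[j])) (F k')) (l.take j).prod
    have e2 : (l.take (j + 1)).prod = (l.take j).prod * l[j] := by
      rw [List.take_succ_eq_append_getElem hj, List.prod_append, List.prod_singleton]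
    have h4 : ∫⁻ k', sqd (F (k' * (l.take (j + 1)).prod)) (F (k' * (l.take j).prod)) ∂ν = DK ν F l[j] := by
      unfold DK
      rw [← h3]
      refine lintegral_congr fun k' => ?_
      rw [e2, mul_assoc]
    rw [h4]
    exact hC _ (List.getElem_mem hj)
  refine h1.trans ?_
  rw [lintegral_const_mul' _ _ (by simp), lintegral_finsetSum _ fun j _ => hm j]
  refine (mul_le_mul_right (Finset.sum_le_sum h2) _).trans ?_
  rw [Finset.sum_const, Finset.card_range, nsmul_eq_mul, ← mul_assoc, ← sq, hn]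

/-- the variance -/
theorem var_le {F : K → ℂ} (hF : Continuous F) (h0 : ∫ k, F k ∂ν = 0) (w : ℂ) :
    ∫⁻ k, sqd (F k) 0 ∂ν ≤ ∫⁻ k, sqd (F k) w ∂ν := by
  unfold sqd
  have i1 : Integrable (fun k => ‖F k - 0‖ ^ 2) ν :=
    integrable_cont ν ((hF.sub continuous_const).norm.pow 2)
  have i2 : Integrable (fun k => ‖F k - w‖ ^ 2) ν :=
    integrable_cont ν ((hF.sub continuous_const).norm.pow 2)
  rw [← ofReal_integral_eq_lintegral_ofReal i1 (Eventually.of_forall fun k => by positivity),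
    ← ofReal_integral_eq_lintegral_ofReal i2 (Eventually.of_forall fun k => by positivity)]
  refine ENNReal.ofReal_le_ofReal ?_
  have i3 : Integrable F ν := integrable_cont ν hF
  have e1 : ∀ k, ‖F k - w‖ ^ 2 = ‖F k - 0‖ ^ 2 + ‖w‖ ^ 2 - 2 * (F k * (starRingEnd ℂ) w).re := by
    intro k
    rw [sub_zero, ← Complex.normSq_eq_norm_sq, ← Complex.normSq_eq_norm_sq, ← Complex.normSq_eq_norm_sq,
      Complex.normSq_sub]
  have i4 : Integrable (fun k => 2 * (F k * (starRingEnd ℂ) w).re) ν :=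
    integrable_cont ν (continuous_const.mul (Complex.continuous_re.comp (hF.mul continuous_const)))
  have e2 : ∫ k, 2 * (F k * (starRingEnd ℂ) w).re ∂ν = 0 := by
    rw [integral_const_mul]
    have e3 : ∫ k, (F k * (starRingEnd ℂ) w).re ∂ν = (∫ k, F k * (starRingEnd ℂ) w ∂ν).re := by
      have h := integral_re (𝕜 := ℂ) (i3.mul_const ((starRingEnd ℂ) w))
      exact h
    rw [e3, integral_mul_const, h0]
    simp
  have e4 : ∫ k, ‖F k - w‖ ^ 2 ∂ν = ∫ k, ‖F k - 0‖ ^ 2 ∂ν + ‖w‖ ^ 2 := by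
    simp only [e1]
    have i5 : Integrable (fun k => ‖F k - 0‖ ^ 2 + ‖w‖ ^ 2) ν := i1.add (integrable_const _)
    rw [integral_sub i5 i4, integral_add i1 (integrable_const _), e2]
    simp
  rw [e4]
  have := sq_nonneg ‖w‖
  linarith

/-- Mean zero: the norm is bounded by the displacements. -/
theorem norm_le_sup {F : K → ℂ} (hF : Continuous F) (h0 : ∫ k, F k ∂ν = 0) {C : ℝ≥0∞} (hC : ∀ k, DK ν F k ≤ C) :
    ∫⁻ k, sqd (F k) 0 ∂ν ≤ C := by
  have hm : Measurable fun p : K × K => sqd (F (p.2 * p.1)) (F p.2) :=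
    meas_sqd (hF.comp (continuous_snd.mul continuous_fst)) (hF.comp continuous_snd)
  have h1 : ∫⁻ k₀, DK ν F k₀ ∂ν ≤ C := by
    calc ∫⁻ k₀, DK ν F k₀ ∂ν ≤ ∫⁻ _, C ∂ν := lintegral_mono hC
      _ = C := by rw [lintegral_const, measure_univ, mul_one]
  refine le_trans ?_ h1
  unfold DK
  rw [lintegral_lintegral_swap hm.aemeasurable]
  calc ∫⁻ k, sqd (F k) 0 ∂ν = ∫⁻ _, (∫⁻ k, sqd (F k) 0 ∂ν) ∂ν := by rw [lintegral_const, measure_univ, mul_one]
    _ ≤ ∫⁻ k', ∫⁻ k₀, sqd (F (k' * k₀)) (F k') ∂ν ∂ν := by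
      refine lintegral_mono fun k' => ?_
      rw [lintegral_mul_left_eq_self (μ := ν) (fun k₀ => sqd (F k₀) (F k')) k']
      exact var_le hF h0 (F k')

/-- the square norm on the sphere of `g` -/
noncomputable def Ag (ν : Measure K) (ι : K →* G) (f : G → ℂ) (g : G) : ℝ≥0∞ := ∫⁻ k, sqd (f (ι k * g)) 0 ∂ν

/-- The mean energy on the sphere of `g` bounds the square norm. -/
theorem sphere_le (geo : Geo ι) {f : G → ℂ} (hf : Continuous f) (hι : Continuous ι)
    {V B' : Set G} (hV : MeasurableSet V) (hV0 : μ V ≠ 0) (hV1 : μ V ≠ ∞) (hVB : V ⊆ B')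
    (hB : ∀ y ∈ geo.B, ∀ z ∈ V, y⁻¹ * z ∈ B') (g : G) (h0 : ∫ k, f (ι k * g) ∂ν = 0) :
    Ag ν ι f g ≤ ENNReal.ofReal (geo.L ^ 2 * geo.N g ^ 4) * ((μ V)⁻¹ * (4 * ∫⁻ k, e0 μ B' f (ι k * g) ∂ν)) := by
  have hF : Continuous fun k : K => f (ι k * g) := hf.comp (hι.mul continuous_const)
  have hme : Measurable fun k : K => e0 μ B' f (ι k * g) :=
    (meas_e0 B' hf).comp (hι.mul continuous_const).measurable
  refine norm_le_sup hF h0 fun k₀ => ?_
  obtain ⟨l, hk, hn, hyl⟩ := geo.root g k₀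
  have h1 : ∀ k ∈ l, μ V * DK ν (fun k : K => f (ι k * g)) k ≤ 4 * ∫⁻ k', e0 μ B' f (ι k' * g) ∂ν := by
    intro k hkl
    have hy := hyl k hkl
    unfold DK
    rw [← lintegral_const_mul' _ _ hV1]
    calc ∫⁻ k', μ V * sqd (f (ι (k' * k) * g)) (f (ι k' * g)) ∂ν
        ≤ ∫⁻ k', 2 * (e0 μ B' f (ι (k' * k) * g) + e0 μ B' f (ι k' * g)) ∂ν := by
          refine lintegral_mono fun k' => ?_
          have h2 := local_step (μ := μ) hV hVB hf (ι k' * g) (g⁻¹ * ι k * g) (hB _ hy)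
          have e1 : ι k' * g * (g⁻¹ * ι k * g) = ι (k' * k) * g := by
            rw [map_mul]
            group
          rw [e1] at h2
          exact h2
      _ = 2 * (∫⁻ k', e0 μ B' f (ι (k' * k) * g) ∂ν + ∫⁻ k', e0 μ B' f (ι k' * g) ∂ν) := by
          rw [lintegral_const_mul' _ _ (by simp), lintegral_add_right _ hme]
      _ = 2 * (∫⁻ k', e0 μ B' f (ι k' * g) ∂ν + ∫⁻ k', e0 μ B' f (ι k' * g) ∂ν) := by
          rw [lintegral_mul_right_eq_self (μ := ν) (fun k' => e0 μ B' f (ι k' * g)) k]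
      _ = 4 * ∫⁻ k', e0 μ B' f (ι k' * g) ∂ν := by
          rw [← two_mul, ← mul_assoc]
          norm_num
  have h2 : ∀ k ∈ l, DK ν (fun k : K => f (ι k * g)) k ≤ (μ V)⁻¹ * (4 * ∫⁻ k', e0 μ B' f (ι k' * g) ∂ν) := by
    intro k hkl
    rw [← ENNReal.div_eq_inv_mul]
    rw [ENNReal.le_div_iff_mul_le (Or.inl hV0) (Or.inl hV1), mul_comm]
    exact h1 k hkl
  have h3 := DK_list (ν := ν) hF l h2
  rw [hk] at h3
  refine h3.trans (mul_le_mul' ?_ le_rfl)
  rw [← ENNReal.ofReal_natCast, ← ENNReal.ofReal_pow (Nat.cast_nonneg _)]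
  refine ENNReal.ofReal_le_ofReal ?_
  have h4 := pow_le_pow_left₀ (Nat.cast_nonneg _) hn 2
  calc (l.length : ℝ) ^ 2 ≤ (geo.L * geo.N g ^ 2) ^ 2 := h4
    _ = geo.L ^ 2 * geo.N g ^ 4 := by ring

variable [SFinite ν]

/-- Jensen -/
theorem jensen {F : K → ℂ} (hF : Continuous F) : sqd (∫ k, F k ∂ν) 0 ≤ ∫⁻ k, sqd (F k) 0 ∂ν := by
  obtain ⟨m, hm⟩ : ∃ m, m = ∫ k, F k ∂ν := ⟨_, rfl⟩
  rw [← hm]
  have hF' : Continuous fun k => F k - m := hF.sub continuous_const
  have h0 : ∫ k, (F k - m) ∂ν = 0 := by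
    rw [integral_sub (integrable_cont ν hF) (integrable_const _), ← hm]
    simp
  unfold sqd
  have i1 : Integrable (fun k => ‖F k - 0‖ ^ 2) ν :=
    integrable_cont ν ((hF.sub continuous_const).norm.pow 2)
  rw [← ofReal_integral_eq_lintegral_ofReal i1 (Eventually.of_forall fun k => by positivity)]
  refine ENNReal.ofReal_le_ofReal ?_
  have h1 : ‖∫ k, F k ∂ν‖ ≤ ∫ k, ‖F k‖ ∂ν := norm_integral_le_integral_norm _
  have h2 : (∫ k, ‖F k‖ ∂ν) ^ 2 ≤ ∫ k, ‖F k‖ ^ 2 ∂ν := by
    have i2 : Integrable (fun k => ‖F k‖) ν := integrable_cont ν hF.norm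
    have i3 : Integrable (fun k => ‖F k‖ ^ 2) ν := integrable_cont ν (hF.norm.pow 2)
    obtain ⟨a, ha⟩ : ∃ a, a = ∫ k, ‖F k‖ ∂ν := ⟨_, rfl⟩
    have h3 : 0 ≤ ∫ k, (‖F k‖ - a) ^ 2 ∂ν := integral_nonneg fun k => sq_nonneg _
    have e1 : ∀ k, (‖F k‖ - a) ^ 2 = ‖F k‖ ^ 2 - 2 * a * ‖F k‖ + a ^ 2 := fun k => by ring
    have i4 : Integrable (fun k => ‖F k‖ ^ 2 - 2 * a * ‖F k‖) ν := i3.sub (i2.const_mul _)
    simp only [e1] at h3
    rw [integral_add i4 (integrable_const _), integral_sub i3 (i2.const_mul _), integral_const_mul, ← ha] at h3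
    simp only [integral_const, probReal_univ, one_smul] at h3
    rw [← ha]
    nlinarith
  have h4 : ‖m‖ ^ 2 ≤ (∫ k, ‖F k‖ ∂ν) ^ 2 := by
    rw [hm]
    exact pow_le_pow_left₀ (norm_nonneg _) h1 2
  simp only [sub_zero]
  exact h4.trans h2

theorem meas_Ag {f : G → ℂ} (hf : Continuous f) (hι : Continuous ι) : Measurable (Ag ν ι f) := by
  unfold Ag
  have h : Measurable fun p : G × K => sqd (f (ι p.2 * p.1)) 0 :=
    meas_sqd (hf.comp ((hι.comp continuous_snd).mul continuous_fst)) continuous_const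
  exact h.lintegral_prod_right'

theorem Ag_sub {f : G → ℂ} (hf : Continuous f) (hι : Continuous ι)
    (hh : ∀ g h : G, f g = ∫ k, f (g * ι k * h) ∂ν) (g h : G) :
    Ag ν ι f g ≤ ∫⁻ k, Ag ν ι f (g * ι k * h) ∂ν := by
  have hm : Measurable fun p : K × K => sqd (f (ι p.1 * (g * ι p.2 * h))) 0 :=
    meas_sqd (hf.comp ((hι.comp continuous_fst).mul ((continuous_const.mul (hι.comp continuous_snd)).mul
      continuous_const))) continuous_const
  unfold Ag
  rw [lintegral_lintegral_swap (by exact (hm.comp measurable_swap).aemeasurable)]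
  refine lintegral_mono fun k' => ?_
  have h1 := hh (ι k' * g) h
  have hc : Continuous fun k : K => f (ι k' * g * ι k * h) :=
    hf.comp ((continuous_const.mul hι).mul continuous_const)
  calc sqd (f (ι k' * g)) 0 = sqd (∫ k, f (ι k' * g * ι k * h) ∂ν) 0 := by rw [← h1]
    _ ≤ ∫⁻ k, sqd (f (ι k' * g * ι k * h)) 0 ∂ν := jensen hc
    _ = ∫⁻ k, sqd (f (ι k' * (g * ι k * h))) 0 ∂ν := by
      refine lintegral_congr fun k => ?_
      rw [mul_assoc (ι k'), mul_assoc (ι k'), mul_assoc g]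

end Pool.Agent.Helper42.HC
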