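import Mathlib

/-!
# Haagerup's inequality for positive words, from ping-pong projections

`PP A p q`: unitaries `A x` and two families of pairwise orthogonal projections with `q x * p y = 0` for all `x, y` and `A x * q x = (1 - p x) * A x`. Then for all `n`, `ξ`, `v`

`∑_{w} |⟨ξ, A (w 0) ⋯ A (w (n-1)) v⟩|² ≤ (n + 1)² |ξ|² |v|²`,

the sum over all words `w` of length `n`. Proof: `A x = p x A x + A x q x`; in the product of these sums all terms with a factor `A q` before a factor `p A` vanish, so `n + 1` terms remain, and for every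
one of them the sum of the squares is at most `|ξ|² |v|²` (Cauchy-Schwarz and Bessel).
-/

set_option autoImplicit false
set_option linter.unusedSectionVars false

namespace Pool.Agent.Helper42.HC

variable {E X : Type} [NormedAddCommGroup E] [InnerProductSpace ℂ E] [Fintype X]

/-- a family of pairwise orthogonal projections -/
structure OP (p : X → E →L[ℂ] E) : Prop where
  sa : ∀ x ξ η, (inner ℂ (p x ξ) η : ℂ) = inner ℂ ξ (p x η)
  idem : ∀ x ξ, p x (p x ξ) = p x ξ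
  orth : ∀ x y ξ, x ≠ y → p x (p y ξ) = 0

/-- ping-pong projections -/
structure PP (A : X → (E ≃ₗᵢ[ℂ] E)) (p q : X → E →L[ℂ] E) : Prop where
  hp : OP p
  hq : OP q
  qp : ∀ x y ξ, q x (p y ξ) = 0
  rel : ∀ x ξ, A x (q x ξ) = A x ξ - p x (A x ξ)

/-- Bessel -/
theorem OP.bessel {p : X → E →L[ℂ] E} (h : OP p) (ξ : E) : ∑ x, ‖p x ξ‖ ^ 2 ≤ ‖ξ‖ ^ 2 := by
  classical
  have e1 : ∀ x, ((‖p x ξ‖ ^ 2 : ℝ) : ℂ) = inner ℂ ξ (p x ξ) := by
    intro x
    have h1 := inner_self_eq_norm_sq_to_K (𝕜 := ℂ) (p x ξ)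
    rw [h.sa, h.idem] at h1
    rw [h1]
    push_cast
    rfl
  have e2 : ((∑ x, ‖p x ξ‖ ^ 2 : ℝ) : ℂ) = inner ℂ ξ (∑ x, p x ξ) := by
    rw [inner_sum]
    push_cast
    refine Finset.sum_congr rfl fun x _ => ?_
    rw [← e1]
    push_cast
    rfl
  have e3 : ((‖∑ x, p x ξ‖ ^ 2 : ℝ) : ℂ) = ((∑ x, ‖p x ξ‖ ^ 2 : ℝ) : ℂ) := by
    have h1 := inner_self_eq_norm_sq_to_K (𝕜 := ℂ) (∑ x, p x ξ)
    have h2 : (inner ℂ (∑ x, p x ξ) (∑ x, p x ξ) : ℂ) = ((∑ x, ‖p x ξ‖ ^ 2 : ℝ) : ℂ) := by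
      rw [sum_inner]
      push_cast
      refine Finset.sum_congr rfl fun x _ => ?_
      rw [h.sa, map_sum, Finset.sum_eq_single x]
      · rw [h.idem, ← e1]
        push_cast
        rfl
      · intro y _ hy
        exact h.orth x y ξ (Ne.symm hy)
      · intro hx
        exact absurd (Finset.mem_univ x) hx
    rw [← h2, h1]
    push_cast
    rfl
  have e4 : ‖∑ x, p x ξ‖ ^ 2 = ∑ x, ‖p x ξ‖ ^ 2 := by exact_mod_cast e3
  have e5 : ∑ x, ‖p x ξ‖ ^ 2 ≤ ‖ξ‖ * ‖∑ x, p x ξ‖ := by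
    have h1 : ‖((∑ x, ‖p x ξ‖ ^ 2 : ℝ) : ℂ)‖ ≤ ‖ξ‖ * ‖∑ x, p x ξ‖ := by
      rw [e2]
      exact norm_inner_le_norm _ _
    rw [Complex.norm_real, Real.norm_of_nonneg (Finset.sum_nonneg fun x _ => by positivity)] at h1
    exact h1
  rw [← e4] at e5 ⊢
  have h0 := norm_nonneg (∑ x, p x ξ)
  have h1 := norm_nonneg ξ
  by_cases hz : ‖∑ x, p x ξ‖ = 0
  · rw [hz]
    nlinarith
  · have h2 : 0 < ‖∑ x, p x ξ‖ := lt_of_le_of_ne h0 (Ne.symm hz)
    have h3 : ‖∑ x, p x ξ‖ ≤ ‖ξ‖ := by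
      by_contra hcon
      rw [not_le] at hcon
      nlinarith
    exact pow_le_pow_left₀ h0 h3 2

/-- sum over the words of length `n` -/
def wsum : ℕ → (List X → ℝ) → ℝ
  | 0, F => F []
  | n + 1, F => ∑ x, wsum n fun l => F (x :: l)

theorem wsum_succ (n : ℕ) (F : List X → ℝ) : wsum (n + 1) F = ∑ x, wsum n fun l => F (x :: l) := rfl

theorem wsum_nonneg (n : ℕ) {F : List X → ℝ} (hF : ∀ l, 0 ≤ F l) : 0 ≤ wsum n F := by
  induction n generalizing F with
  | zero => exact hF []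
  | succ n ih => exact Finset.sum_nonneg fun x _ => ih fun l => hF _

theorem wsum_mono (n : ℕ) {F F' : List X → ℝ} (h : ∀ l, l.length = n → F l ≤ F' l) : wsum n F ≤ wsum n F' := by
  induction n generalizing F F' with
  | zero => exact h [] rfl
  | succ n ih => exact Finset.sum_le_sum fun x _ => ih fun l hl => h _ (by rw [List.length_cons, hl])

theorem wsum_mul (n : ℕ) (c : ℝ) (F : List X → ℝ) : wsum n (fun l => c * F l) = c * wsum n F := by
  induction n generalizing F with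
  | zero => rfl
  | succ n ih =>
    unfold wsum
    simp only [ih, Finset.mul_sum]

theorem wsum_sum {ι : Type} (s : Finset ι) (n : ℕ) (F : ι → List X → ℝ) :
    wsum n (fun l => ∑ i ∈ s, F i l) = ∑ i ∈ s, wsum n (F i) := by
  induction n generalizing F with
  | zero => rfl
  | succ n ih =>
    unfold wsum
    simp only [ih]
    exact Finset.sum_comm

theorem wsum_ofFn (n : ℕ) (F : List X → ℝ) : ∑ f : Fin n → X, F (List.ofFn f) = wsum n F := by
  induction n generalizing F with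
  | zero =>
    simp [wsum]
  | succ n ih =>
    unfold wsum
    rw [← (Fin.consEquiv fun _ => X).sum_comp, Fintype.sum_prod_type]
    refine Finset.sum_congr rfl fun x _ => ?_
    rw [← ih]
    refine Finset.sum_congr rfl fun g _ => ?_
    congr 1
    rw [List.ofFn_succ]
    simp [Fin.consEquiv]

/-- products -/
def Aw (A : X → (E ≃ₗᵢ[ℂ] E)) : List X → E → E
  | [], v => v
  | x :: l, v => A x (Aw A l v)

/-- products of the `p A` -/
def Pw (A : X → (E ≃ₗᵢ[ℂ] E)) (p : X → E →L[ℂ] E) : List X → E → E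
  | [], v => v
  | x :: l, v => p x (A x (Pw A p l v))

/-- products of the `A q` -/
def Qw (A : X → (E ≃ₗᵢ[ℂ] E)) (q : X → E →L[ℂ] E) : List X → E → E
  | [], v => v
  | x :: l, v => A x (q x (Qw A q l v))

variable {A : X → (E ≃ₗᵢ[ℂ] E)} {p q : X → E →L[ℂ] E}

theorem Aw_eq (h : PP A p q) (l : List X) (v : E) :
    Aw A l v = ∑ k ∈ Finset.range (l.length + 1), Pw A p (l.take k) (Qw A q (l.drop k) v) := by
  induction l with
  | nil => simp [Aw, Pw, Qw]
  | cons x l ih =>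
    rw [List.length_cons, Finset.sum_range_succ']
    have e0 : Pw A p ((x :: l).take 0) (Qw A q ((x :: l).drop 0) v) = A x (q x (Qw A q l v)) := rfl
    have e1 : ∀ k, Pw A p ((x :: l).take (k + 1)) (Qw A q ((x :: l).drop (k + 1)) v) =
        p x (A x (Pw A p (l.take k) (Qw A q (l.drop k) v))) := fun k => rfl
    simp only [e0, e1]
    have e2 : Aw A (x :: l) v = p x (A x (Aw A l v)) + A x (q x (Aw A l v)) := by
      rw [h.rel]
      show A x (Aw A l v) = _
      abel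
    rw [e2, ih, map_sum, map_sum]
    congr 1
    rw [map_sum, Finset.sum_range_succ', map_add]
    have e3 : ∀ k ∈ Finset.range l.length, q x (Pw A p (l.take (k + 1)) (Qw A q (l.drop (k + 1)) v)) = 0 := by
      intro k hk
      rw [Finset.mem_range] at hk
      have h1 : l.take (k + 1) ≠ [] := by
        intro h2
        have h3 := congrArg List.length h2
        rw [List.length_take, List.length_nil] at h3
        omega
      obtain ⟨y, l', hl'⟩ := List.exists_cons_of_ne_nil h1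
      rw [hl']
      exact h.qp x y _
    rw [map_sum, Finset.sum_eq_zero fun k hk => by rw [e3 k hk, map_zero], zero_add]
    rfl

theorem Qw_sum (h : PP A p q) (n : ℕ) (v : E) : wsum n (fun l => ‖Qw A q l v‖ ^ 2) ≤ ‖v‖ ^ 2 := by
  induction n with
  | zero => exact le_rfl
  | succ n ih =>
    have e1 : wsum (n + 1) (fun l => ‖Qw A q l v‖ ^ 2) = wsum n fun l => ∑ x, ‖q x (Qw A q l v)‖ ^ 2 := by
      rw [wsum_sum, wsum_succ]
      refine Finset.sum_congr rfl fun x _ => ?_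
      congr 1
      funext l
      show ‖A x (q x (Qw A q l v))‖ ^ 2 = _
      rw [(A x).norm_map]
    rw [e1]
    exact (wsum_mono n fun l _ => h.hq.bessel _).trans ih

/-- the adjoint of `Pw` -/
def Pw' (A : X → (E ≃ₗᵢ[ℂ] E)) (p : X → E →L[ℂ] E) : List X → E → E
  | [], ξ => ξ
  | x :: l, ξ => Pw' A p l ((A x).symm (p x ξ))

theorem Pw_adj (h : PP A p q) (l : List X) (ξ v : E) :
    (inner ℂ ξ (Pw A p l v) : ℂ) = inner ℂ (Pw' A p l ξ) v := by
  induction l generalizing ξ with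
  | nil => rfl
  | cons x l ih =>
    show (inner ℂ ξ (p x (A x (Pw A p l v))) : ℂ) = inner ℂ (Pw' A p l ((A x).symm (p x ξ))) v
    rw [← ih, ← h.hp.sa]
    have h1 := (A x).inner_map_map ((A x).symm (p x ξ)) (Pw A p l v)
    rw [LinearIsometryEquiv.apply_symm_apply] at h1
    exact h1

theorem Pw'_sum (h : PP A p q) (n : ℕ) (ξ : E) : wsum n (fun l => ‖Pw' A p l ξ‖ ^ 2) ≤ ‖ξ‖ ^ 2 := by
  induction n generalizing ξ with
  | zero => exact le_rfl
  | succ n ih =>
    unfold wsum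
    calc ∑ x, wsum n (fun l => ‖Pw' A p (x :: l) ξ‖ ^ 2) ≤ ∑ x, ‖p x ξ‖ ^ 2 := by
          refine Finset.sum_le_sum fun x _ => ?_
          refine (ih ((A x).symm (p x ξ))).trans ?_
          rw [(A x).symm.norm_map]
      _ ≤ ‖ξ‖ ^ 2 := h.hp.bessel ξ

theorem wsum_split (k m : ℕ) (F F' : List X → ℝ) :
    wsum (k + m) (fun l => F (l.take k) * F' (l.drop k)) = wsum k F * wsum m F' := by
  induction k generalizing F with
  | zero =>
    rw [Nat.zero_add]
    simp only [List.take_zero, List.drop_zero]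
    exact wsum_mul m (F []) F'
  | succ k ih =>
    have e : k + 1 + m = (k + m) + 1 := by omega
    rw [e, wsum_succ, wsum_succ, Finset.sum_mul]
    refine Finset.sum_congr rfl fun x _ => ?_
    simp only [List.take_succ_cons, List.drop_succ_cons]
    exact ih fun l => F (x :: l)

/-- Haagerup's inequality for the positive words. -/
theorem haagerup (h : PP A p q) (n : ℕ) (ξ v : E) :
    wsum n (fun l => ‖(inner ℂ ξ (Aw A l v) : ℂ)‖ ^ 2) ≤ (n + 1) ^ 2 * (‖ξ‖ ^ 2 * ‖v‖ ^ 2) := by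
  have h1 : ∀ l : List X, l.length = n → ‖(inner ℂ ξ (Aw A l v) : ℂ)‖ ^ 2 ≤
      ∑ k ∈ Finset.range (n + 1), ((n : ℝ) + 1) * (‖Pw' A p (l.take k) ξ‖ ^ 2 * ‖Qw A q (l.drop k) v‖ ^ 2) := by
    intro l hl
    rw [Aw_eq h, hl, inner_sum, ← Finset.mul_sum]
    have h2 : ‖∑ k ∈ Finset.range (n + 1), (inner ℂ ξ (Pw A p (l.take k) (Qw A q (l.drop k) v)) : ℂ)‖ ≤
        ∑ k ∈ Finset.range (n + 1), ‖Pw' A p (l.take k) ξ‖ * ‖Qw A q (l.drop k) v‖ := by
      refine (norm_sum_le _ _).trans (Finset.sum_le_sum fun k _ => ?_)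
      rw [Pw_adj h]
      exact norm_inner_le_norm _ _
    refine (pow_le_pow_left₀ (norm_nonneg _) h2 2).trans ?_
    refine (sq_sum_le_card_mul_sum_sq).trans ?_
    rw [Finset.card_range]
    push_cast
    simp only [mul_pow]
    exact le_rfl
  refine (wsum_mono n h1).trans ?_
  rw [wsum_sum]
  have h3 : ∀ k ∈ Finset.range (n + 1), wsum n (fun l : List X => ((n : ℝ) + 1) *
      (‖Pw' A p (l.take k) ξ‖ ^ 2 * ‖Qw A q (l.drop k) v‖ ^ 2)) ≤ ((n : ℝ) + 1) * (‖ξ‖ ^ 2 * ‖v‖ ^ 2) := by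
    intro k hk
    rw [Finset.mem_range] at hk
    obtain ⟨m, rfl⟩ : ∃ m, n = k + m := ⟨n - k, by omega⟩
    rw [wsum_mul, wsum_split k m (fun l => ‖Pw' A p l ξ‖ ^ 2) (fun l => ‖Qw A q l v‖ ^ 2)]
    refine mul_le_mul_of_nonneg_left ?_ (by positivity)
    exact mul_le_mul (Pw'_sum h k ξ) (Qw_sum h m v) (wsum_nonneg m fun l => by positivity) (by positivity)
  refine (Finset.sum_le_sum h3).trans ?_
  rw [Finset.sum_const, Finset.card_range, nsmul_eq_mul]
  push_cast
  have : ((n : ℝ) + 1) * (((n : ℝ) + 1) * (‖ξ‖ ^ 2 * ‖v‖ ^ 2)) = (n + 1) ^ 2 * (‖ξ‖ ^ 2 * ‖v‖ ^ 2) := by ring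
  rw [this]

end Pool.Agent.Helper42.HC
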