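import Pool.Agent.Helper42.HC.QW

/-!
# Cocycles of `SL(2, ℍ)` with values in tempered representations

`QG.vanish`: let `σ` be a strongly continuous unitary representation of `G = SL(2, ℍ)` and `F` a subgroup which contains the elements `h(x) = u(x) l u(-x)`, `x` integral, such that
`σ|F` has a covariant positive operator valued measure (`CovP`). Then every continuous cocycle with values in `σ` is a coboundary.
-/

set_option autoImplicit false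
set_option linter.unusedSectionVars false

open Matrix MeasureTheory Topology Filter

namespace Pool.Agent.Helper42.HC

open Pool.Agent.Helper84.SPQ Pool.Agent.Helper55.FP

variable {G : Type} [Group G] [TopologicalSpace G] (Q : QG G)

section pingpong

variable {E : Type} [NormedAddCommGroup E] [InnerProductSpace ℂ E]

/-- the attracting sets -/
def QG.PP {F : Subgroup G} {R : ℕ} (x : Bx R) : Set F :=
  {f | ‖((5 : ℝ) : Hq) * (Q.φ f 0 0 - pt x * Q.φ f 1 0) - Q.φ f 1 0‖ < ‖Q.φ f 1 0‖}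

/-- the repelling sets -/
def QG.QQ {F : Subgroup G} {R : ℕ} (x : Bx R) : Set F :=
  {f | ‖((5 : ℝ) : Hq) * (Q.φ f 0 0 - pt x * Q.φ f 1 0) + Q.φ f 1 0‖ ≤ ‖Q.φ f 1 0‖}

theorem norm_five (q : Hq) : ‖((5 : ℝ) : Hq) * q‖ = 5 * ‖q‖ := by
  rw [norm_mul, Quaternion.norm_coe]
  norm_num

theorem QG.PP_le {F : Subgroup G} {R : ℕ} {x : Bx R} {f : F} (h : f ∈ Q.PP x) :
    ‖Q.φ f 0 0 - pt x * Q.φ f 1 0‖ ≤ (2 / 5) * ‖Q.φ f 1 0‖ := by
  have h1 : ‖((5 : ℝ) : Hq) * (Q.φ f 0 0 - pt x * Q.φ f 1 0) - Q.φ f 1 0‖ < ‖Q.φ f 1 0‖ := h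
  have h2 := norm_sub_norm_le (((5 : ℝ) : Hq) * (Q.φ f 0 0 - pt x * Q.φ f 1 0)) (Q.φ f 1 0)
  rw [norm_five] at h2
  linarith

theorem QG.QQ_le {F : Subgroup G} {R : ℕ} {x : Bx R} {f : F} (h : f ∈ Q.QQ x) :
    ‖Q.φ f 0 0 - pt x * Q.φ f 1 0‖ ≤ (2 / 5) * ‖Q.φ f 1 0‖ := by
  have h1 : ‖((5 : ℝ) : Hq) * (Q.φ f 0 0 - pt x * Q.φ f 1 0) + Q.φ f 1 0‖ ≤ ‖Q.φ f 1 0‖ := h
  have h2 := norm_sub_norm_le (((5 : ℝ) : Hq) * (Q.φ f 0 0 - pt x * Q.φ f 1 0)) (-Q.φ f 1 0)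
  rw [norm_five, norm_neg, sub_neg_eq_add] at h2
  linarith

theorem QG.sep {F : Subgroup G} {R : ℕ} {x y : Bx R} (hxy : x ≠ y) {f : F}
    (h1 : ‖Q.φ f 0 0 - pt x * Q.φ f 1 0‖ ≤ (2 / 5) * ‖Q.φ f 1 0‖)
    (h2 : ‖Q.φ f 0 0 - pt y * Q.φ f 1 0‖ ≤ (2 / 5) * ‖Q.φ f 1 0‖) : False := by
  have h3 : (pt x - pt y) * Q.φ f 1 0 = (Q.φ f 0 0 - pt y * Q.φ f 1 0) - (Q.φ f 0 0 - pt x * Q.φ f 1 0) := by
    rw [sub_mul]
    abel
  have h4 := norm_sub_le (Q.φ f 0 0 - pt y * Q.φ f 1 0) (Q.φ f 0 0 - pt x * Q.φ f 1 0)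
  rw [← h3, norm_mul] at h4
  have h5 := pt_sep hxy
  have h6 := norm_nonneg (Q.φ f 1 0)
  have h7 : ‖Q.φ f 1 0‖ ≤ ‖pt x - pt y‖ * ‖Q.φ f 1 0‖ := by nlinarith
  have h8 : ‖Q.φ f 1 0‖ = 0 := by linarith
  have h9 : ‖Q.φ f 0 0‖ = 0 := by
    have h10 : Q.φ f 1 0 = 0 := norm_eq_zero.1 h8
    rw [h10, mul_zero, sub_zero, norm_zero, mul_zero] at h1
    exact le_antisymm h1 (norm_nonneg _)
  have h10 := Q.det f
  unfold dl at h10
  rw [norm_eq_zero.1 h8, norm_eq_zero.1 h9] at h10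
  simp at h10

theorem QG.h_apply (x : Hq) (g : G) : Q.φ (Q.h x * g) 1 0 = ((5 : ℝ) : Hq) * (Q.φ g 0 0 - x * Q.φ g 1 0) + Q.φ g 1 0 ∧
    Q.φ (Q.h x * g) 0 0 - x * Q.φ (Q.h x * g) 1 0 = Q.φ g 0 0 - x * Q.φ g 1 0 := by
  have e1 : Q.φ (Q.u (-x) * g) 0 0 = Q.φ g 0 0 - x * Q.φ g 1 0 ∧ Q.φ (Q.u (-x) * g) 1 0 = Q.φ g 1 0 := by
    rw [map_mul, Q.φu, Matrix.mul_apply, Matrix.mul_apply, Fin.sum_univ_two, Fin.sum_univ_two]
    unfold uM
    constructor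
    · show 1 * Q.φ g 0 0 + -x * Q.φ g 1 0 = _
      rw [one_mul, neg_mul, sub_eq_add_neg]
    · show 0 * Q.φ g 0 0 + 1 * Q.φ g 1 0 = _
      rw [zero_mul, zero_add, one_mul]
  have e2 : Q.φ (Q.l * (Q.u (-x) * g)) 0 0 = Q.φ g 0 0 - x * Q.φ g 1 0 ∧
      Q.φ (Q.l * (Q.u (-x) * g)) 1 0 = ((5 : ℝ) : Hq) * (Q.φ g 0 0 - x * Q.φ g 1 0) + Q.φ g 1 0 := by
    rw [map_mul Q.φ Q.l, Q.φl, Matrix.mul_apply, Matrix.mul_apply, Fin.sum_univ_two, Fin.sum_univ_two, e1.1, e1.2]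
    unfold lM
    constructor
    · show 1 * (Q.φ g 0 0 - x * Q.φ g 1 0) + 0 * Q.φ g 1 0 = _
      rw [one_mul, zero_mul, add_zero]
    · show ((5 : ℝ) : Hq) * (Q.φ g 0 0 - x * Q.φ g 1 0) + 1 * Q.φ g 1 0 = _
      rw [one_mul]
  have e3 : Q.h x * g = Q.u x * (Q.l * (Q.u (-x) * g)) := by
    unfold QG.h
    simp only [mul_assoc]
  have e4 : Q.φ (Q.h x * g) 0 0 = Q.φ (Q.l * (Q.u (-x) * g)) 0 0 + x * Q.φ (Q.l * (Q.u (-x) * g)) 1 0 ∧
      Q.φ (Q.h x * g) 1 0 = Q.φ (Q.l * (Q.u (-x) * g)) 1 0 := by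
    rw [e3, map_mul Q.φ (Q.u x), Q.φu, Matrix.mul_apply, Matrix.mul_apply, Fin.sum_univ_two, Fin.sum_univ_two]
    unfold uM
    constructor
    · show 1 * _ + x * _ = _
      rw [one_mul]
    · show 0 * _ + 1 * _ = _
      rw [zero_mul, zero_add, one_mul]
  refine ⟨by rw [e4.2, e2.2], ?_⟩
  rw [e4.1, e4.2, e2.1, add_sub_cancel_right]

/-- Haagerup's inequality for the words -/
theorem QG.words {R : ℕ} {F : Subgroup G} (hF : ∀ x : Bx R, Q.h (pt x) ∈ F) {σ : G →* (E ≃ₗᵢ[ℂ] E)}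
    (C : CovP (σ.comp F.subtype)) (n : ℕ) (ξ v : E) :
    wsum n (fun l => ‖(inner ℂ ξ (σ (pw (fun x : Bx R => Q.h (pt x)) l) v) : ℂ)‖ ^ 2) ≤ (n + 1) ^ 2 * (‖ξ‖ ^ 2 * ‖v‖ ^ 2) := by
  obtain ⟨h, hh⟩ : ∃ h : Bx R → F, ∀ x, (h x : G) = Q.h (pt x) := ⟨fun x => ⟨_, hF x⟩, fun _ => rfl⟩
  have hmem : ∀ (x : Bx R) (f : F), f ∉ Q.QQ x → h x * f ∈ Q.PP x := by
    intro x f hf
    obtain ⟨e1, e2⟩ := Q.h_apply (pt x) (f : G)
    have e3 : ((h x * f : F) : G) = Q.h (pt x) * (f : G) := by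
      rw [Subgroup.coe_mul, hh]
    show ‖((5 : ℝ) : Hq) * (Q.φ ((h x * f : F) : G) 0 0 - pt x * Q.φ ((h x * f : F) : G) 1 0) - Q.φ ((h x * f : F) : G) 1 0‖ <
      ‖Q.φ ((h x * f : F) : G) 1 0‖
    rw [e3, e2, e1]
    have e4 : ((5 : ℝ) : Hq) * (Q.φ (f : G) 0 0 - pt x * Q.φ (f : G) 1 0) -
        (((5 : ℝ) : Hq) * (Q.φ (f : G) 0 0 - pt x * Q.φ (f : G) 1 0) + Q.φ (f : G) 1 0) = -Q.φ (f : G) 1 0 := by
      abel
    rw [e4, norm_neg]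
    exact not_le.1 hf
  have key := cov_haagerup (h := h) C (P := fun x => Q.PP x) (Q := fun x => Q.QQ x)
    (fun x y hxy => Set.disjoint_left.2 fun f h1 h2 => Q.sep hxy (Q.PP_le h1) (Q.PP_le h2))
    (fun x y hxy => Set.disjoint_left.2 fun f h1 h2 => Q.sep hxy (Q.QQ_le h1) (Q.QQ_le h2))
    (fun x y => Set.disjoint_left.2 fun f h1 h2 => by
      by_cases hxy : x = y
      · subst hxy
        have h3 : ‖((5 : ℝ) : Hq) * (Q.φ f 0 0 - pt x * Q.φ f 1 0) - Q.φ f 1 0‖ < ‖Q.φ f 1 0‖ := h1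
        have h4 : ‖((5 : ℝ) : Hq) * (Q.φ f 0 0 - pt x * Q.φ f 1 0) + Q.φ f 1 0‖ ≤ ‖Q.φ f 1 0‖ := h2
        have h5 := norm_sub_le (((5 : ℝ) : Hq) * (Q.φ f 0 0 - pt x * Q.φ f 1 0) + Q.φ f 1 0)
          (((5 : ℝ) : Hq) * (Q.φ f 0 0 - pt x * Q.φ f 1 0) - Q.φ f 1 0)
        have h6 : ((5 : ℝ) : Hq) * (Q.φ f 0 0 - pt x * Q.φ f 1 0) + Q.φ f 1 0 -
            (((5 : ℝ) : Hq) * (Q.φ f 0 0 - pt x * Q.φ f 1 0) - Q.φ f 1 0) = (2 : ℝ) • Q.φ f 1 0 := by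
          rw [two_smul]
          abel
        rw [h6, norm_smul] at h5
        have h7 : ‖(2 : ℝ)‖ = 2 := by norm_num
        rw [h7] at h5
        linarith
      · exact Q.sep hxy (Q.PP_le h1) (Q.QQ_le h2))
    hmem n ξ v
  have e1 : ∀ l : List (Bx R), ((pw h l : F) : G) = pw (fun x : Bx R => Q.h (pt x)) l := by
    intro l
    induction l with
    | nil => rfl
    | cons x l ih => rw [pw_cons, pw_cons, Subgroup.coe_mul, ih, hh]
  have e2 : ∀ l : List (Bx R), (σ.comp F.subtype) (pw h l) = σ (pw (fun x : Bx R => Q.h (pt x)) l) := by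
    intro l
    rw [← e1]
    rfl
  simp only [e2] at key
  exact key

end pingpong

section gap

variable {E : Type} [NormedAddCommGroup E] [InnerProductSpace ℂ E]

theorem move_word {σ : G →* (E ≃ₗᵢ[ℂ] E)} {X : Type} [Fintype X] {h : X → G} {x : E} {δ : ℝ} (hx : ∀ y, ‖σ (h y) x - x‖ ≤ δ)
    (l : List X) : ‖σ (pw h l) x - x‖ ≤ l.length * δ := by
  induction l with
  | nil =>
    have : pw h ([] : List X) = 1 := rfl
    rw [this, map_one]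
    simp
  | cons y l ih =>
    rw [pw_cons, map_mul]
    have e1 : (σ (h y) * σ (pw h l)) x - x = σ (h y) (σ (pw h l) x - x) + (σ (h y) x - x) := by
      rw [map_sub]
      show σ (h y) (σ (pw h l) x) - x = _
      abel
    rw [e1]
    refine (norm_add_le _ _).trans ?_
    rw [(σ (h y)).norm_map, List.length_cons]
    have := hx y
    push_cast
    linarith

/-- the spectral gap -/
theorem QG.gap {R : ℕ} (hR : 1 ≤ R) {σ : G →* (E ≃ₗᵢ[ℂ] E)}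
    (hw : ∀ (n : ℕ) (ξ v : E), wsum n (fun l => ‖(inner ℂ ξ (σ (pw (fun x : Bx R => Q.h (pt x)) l) v) : ℂ)‖ ^ 2) ≤
      (n + 1) ^ 2 * (‖ξ‖ ^ 2 * ‖v‖ ^ 2)) :
    ∃ (g₀ : G) (c : ℝ), 0 < c ∧ ∀ x : E, (∀ k, σ (Q.ι k) x = x) → c * ‖x‖ ^ 2 ≤ ‖x‖ ^ 2 - (inner ℂ (σ g₀ x) x : ℂ).re := by
  obtain ⟨x0, hx0⟩ := Finite.exists_max fun x : Bx R => Q.N (Q.h (pt x))
  obtain ⟨g₀, hg₀⟩ := Q.prod_mem (Q.N (Q.h (pt x0)))
  -- the length
  obtain ⟨n, hn0, hn⟩ : ∃ n : ℕ, 1 ≤ n ∧ 4 * ((n : ℝ) + 1) ^ 2 < (Fintype.card (Bx R) : ℝ) ^ n := by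
    have h1 : (1 : ℝ) < Fintype.card (Bx R) := by
      have h2 : Fintype.card (Bx R) = (2 * R + 1) ^ 4 := by
        rw [Fintype.card_fun, Fintype.card_fin, Fintype.card_fin]
      rw [h2]
      have h3 : 1 < (2 * R + 1) ^ 4 := Nat.one_lt_pow (by norm_num) (by omega)
      exact_mod_cast h3
    have h2 := tendsto_pow_const_div_const_pow_of_one_lt 2 h1
    have h3 : Tendsto (fun n : ℕ => ((n : ℝ) + 1) ^ 2 / (Fintype.card (Bx R) : ℝ) ^ (n + 1)) atTop (𝓝 0) := by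
      have := h2.comp (tendsto_add_atTop_nat 1)
      refine this.congr fun n => ?_
      simp [Function.comp]
    have h4 : Tendsto (fun n : ℕ => ((n : ℝ) + 1) ^ 2 / (Fintype.card (Bx R) : ℝ) ^ n) atTop (𝓝 0) := by
      have := h3.const_mul (Fintype.card (Bx R) : ℝ)
      rw [mul_zero] at this
      refine this.congr fun n => ?_
      obtain ⟨N, hN⟩ : ∃ N : ℝ, N = (Fintype.card (Bx R) : ℝ) := ⟨_, rfl⟩
      have hN0 : N ≠ 0 := by linarith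
      show (Fintype.card (Bx R) : ℝ) * (((n : ℝ) + 1) ^ 2 / (Fintype.card (Bx R) : ℝ) ^ (n + 1)) =
        ((n : ℝ) + 1) ^ 2 / (Fintype.card (Bx R) : ℝ) ^ n
      rw [← hN, pow_succ]
      field_simp
      ring
    have h5 := h4.eventually (gt_mem_nhds (show (0 : ℝ) < 1 / 4 by norm_num))
    obtain ⟨n, hn1, hn2⟩ := ((eventually_ge_atTop 1).and h5).exists
    refine ⟨n, hn1, ?_⟩
    have h6 : (0 : ℝ) < (Fintype.card (Bx R) : ℝ) ^ n := by positivity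
    rw [div_lt_div_iff₀ h6 (by norm_num)] at hn2
    linarith
  have hn1 : (1 : ℝ) ≤ n := by exact_mod_cast hn0
  refine ⟨g₀, 1 / (32 * (n : ℝ) ^ 2), by positivity, fun x hx => ?_⟩
  obtain ⟨δ, hδ⟩ : ∃ δ : ℝ, δ = ‖σ g₀ x - x‖ := ⟨_, rfl⟩
  have hδ0 : 0 ≤ δ := by
    rw [hδ]
    exact norm_nonneg _
  have e1 : ‖x‖ ^ 2 - (inner ℂ (σ g₀ x) x : ℂ).re = δ ^ 2 / 2 := by
    rw [hδ]
    have h1 := norm_sub_sq (𝕜 := ℂ) (σ g₀ x) x
    rw [(σ g₀).norm_map] at h1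
    rw [h1]
    show _ = (‖x‖ ^ 2 - 2 * (inner ℂ (σ g₀ x) x : ℂ).re + ‖x‖ ^ 2) / 2
    ring
  rw [e1]
  by_contra hcon
  rw [not_le] at hcon
  have hx0' : 0 < ‖x‖ := by
    by_contra h0
    have h1 : ‖x‖ = 0 := le_antisymm (not_lt.1 h0) (norm_nonneg _)
    rw [h1] at hcon
    have := sq_nonneg δ
    norm_num at hcon
    linarith
  have hδx : δ * (4 * n) ≤ ‖x‖ := by
    have h1 : (δ * (4 * n)) ^ 2 ≤ ‖x‖ ^ 2 := by
      have h2 : δ ^ 2 / 2 * (32 * (n : ℝ) ^ 2) ≤ (1 / (32 * (n : ℝ) ^ 2) * ‖x‖ ^ 2) * (32 * (n : ℝ) ^ 2) :=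
        mul_le_mul_of_nonneg_right hcon.le (by positivity)
      have h3 : (1 / (32 * (n : ℝ) ^ 2) * ‖x‖ ^ 2) * (32 * (n : ℝ) ^ 2) = ‖x‖ ^ 2 := by
        field_simp
      rw [h3] at h2
      nlinarith
    exact (pow_le_pow_iff_left₀ (by positivity) (norm_nonneg _) two_ne_zero).1 h1
  -- the letters
  have hlet : ∀ y : Bx R, ‖σ (Q.h (pt y)) x - x‖ ≤ 2 * δ := by
    intro y
    obtain ⟨k1, k2, k3, hk⟩ := hg₀ (Q.h (pt y)) (hx0 y)
    rw [hk]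
    have e2 : σ (Q.ι k1 * g₀ * Q.ι k2 * g₀ * Q.ι k3) x - x =
        σ (Q.ι k1) (σ g₀ (σ (Q.ι k2) (σ g₀ x - x))) + σ (Q.ι k1) (σ g₀ x - x) := by
      simp only [map_mul]
      show σ (Q.ι k1) (σ g₀ (σ (Q.ι k2) (σ g₀ (σ (Q.ι k3) x)))) - x = _
      rw [hx k3, map_sub (σ (Q.ι k2)), hx k2, map_sub (σ g₀), map_sub (σ (Q.ι k1)), map_sub (σ (Q.ι k1)) (σ g₀ x) x, hx k1]
      abel
    rw [e2]
    refine (norm_add_le _ _).trans ?_
    rw [(σ (Q.ι k1)).norm_map, (σ g₀).norm_map, (σ (Q.ι k2)).norm_map, (σ (Q.ι k1)).norm_map, ← hδ]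
    linarith
  -- the words
  have h1 := hw n x x
  have h2 : ∀ l : List (Bx R), l.length = n → ‖x‖ ^ 4 / 4 ≤
      ‖(inner ℂ x (σ (pw (fun x : Bx R => Q.h (pt x)) l) x) : ℂ)‖ ^ 2 := by
    intro l hl
    have h3 := move_word hlet l
    rw [hl] at h3
    have h4 : ‖x‖ ^ 2 / 2 ≤ ‖(inner ℂ x (σ (pw (fun x : Bx R => Q.h (pt x)) l) x) : ℂ)‖ := by
      have h5 : (inner ℂ x (σ (pw (fun x : Bx R => Q.h (pt x)) l) x) : ℂ) =
          inner ℂ x x + inner ℂ x (σ (pw (fun x : Bx R => Q.h (pt x)) l) x - x) := by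
        rw [inner_sub_right]
        ring
      have h6 : ‖(inner ℂ x x : ℂ)‖ = ‖x‖ ^ 2 := by
        rw [inner_self_eq_norm_sq_to_K]
        simp
      have h7 := norm_inner_le_norm (𝕜 := ℂ) x (σ (pw (fun x : Bx R => Q.h (pt x)) l) x - x)
      have h8 : ‖x‖ * ‖σ (pw (fun x : Bx R => Q.h (pt x)) l) x - x‖ ≤ ‖x‖ * (‖x‖ / 2) := by
        refine mul_le_mul_of_nonneg_left ?_ (norm_nonneg _)
        linarith
      rw [h5]
      have h9 := norm_sub_le (inner ℂ x x + inner ℂ x (σ (pw (fun x : Bx R => Q.h (pt x)) l) x - x) : ℂ)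
        (inner ℂ x (σ (pw (fun x : Bx R => Q.h (pt x)) l) x - x))
      rw [add_sub_cancel_right, h6] at h9
      nlinarith
    have h5 := pow_le_pow_left₀ (by positivity) h4 2
    refine le_trans (le_of_eq ?_) h5
    ring
  have h3 : wsum n (fun _ : List (Bx R) => ‖x‖ ^ 4 / 4) ≤ (n + 1) ^ 2 * (‖x‖ ^ 2 * ‖x‖ ^ 2) := (wsum_mono n h2).trans h1
  rw [← wsum_ofFn] at h3
  simp only [Finset.sum_const, Finset.card_univ, Fintype.card_fun, Fintype.card_fin, nsmul_eq_mul] at h3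
  rw [Fintype.card_fun, Fintype.card_fin, Fintype.card_fin] at hn
  push_cast at h3 hn
  have h4 : 0 < ‖x‖ ^ 4 := by positivity
  nlinarith

end gap

section final

variable [IsTopologicalGroup G] [LocallyCompactSpace G] [SecondCountableTopology G]
variable {E : Type} [NormedAddCommGroup E] [InnerProductSpace ℂ E] [CompleteSpace E]

/-- Cocycles of `SL(2, ℍ)` with values in tempered representations are coboundaries. -/
theorem QG.vanish {σ : G →* (E ≃ₗᵢ[ℂ] E)} (hσ : ∀ x, Continuous fun g => σ g x) {F : Subgroup G}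
    (hF : ∀ (R : ℕ) (x : Bx R), Q.h (pt x) ∈ F) (C : CovP (σ.comp F.subtype)) {b : G → E}
    (hb : ∀ g h, b (g * h) = b g + σ g (b h)) (hbc : Continuous b) : ∃ v : E, ∀ g, b g + σ g v - v = 0 := by
  let mG : MeasurableSpace G := borel G
  have bG : BorelSpace G := ⟨rfl⟩
  obtain ⟨R, c, hc, hR, hgr⟩ := Q.growth
  obtain ⟨ν, hν1, hν2, hν3, hν4, hν5⟩ := exists_haarProb K2
  have hw := Q.words (hF R) C
  obtain ⟨g₀, c', hc', hgap⟩ := Q.gap hR hw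
  obtain ⟨v, hv1, hv2⟩ := exists_harmonic (ν := ν) (ι := Q.ι) (σ := σ) Q.ιc hσ Q.GK hb hbc hc' hgap
  obtain ⟨K0, hK0⟩ : ∃ K0 : TopologicalSpace.PositiveCompacts G, True := ⟨Classical.arbitrary _, trivial⟩
  obtain ⟨μ, hμ⟩ : ∃ μ : Measure G, μ = Measure.haarMeasure K0 := ⟨_, rfl⟩
  have hμH : μ.IsHaarMeasure := by
    rw [hμ]
    infer_instance
  have hμS : SFinite μ := inferInstance
  obtain ⟨ρ, hρ⟩ : ∃ ρ : G →* (E →L[ℂ] E), ∀ g x, ρ g x = σ g x :=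
    ⟨{ toFun := fun g => ((σ g).toContinuousLinearEquiv : E →L[ℂ] E)
       map_one' := by
         ext x
         show σ 1 x = x
         rw [map_one]
         rfl
       map_mul' := fun g h => by
         ext x
         show σ (g * h) x = σ g (σ h x)
         rw [map_mul]
         rfl }, fun _ _ => rfl⟩
  have hρ1 : ∀ g, ‖ρ g‖ ≤ 1 := fun g => by
    refine ContinuousLinearMap.opNorm_le_bound _ zero_le_one fun x => ?_
    rw [hρ, (σ g).norm_map, one_mul]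
  refine ⟨v, fun g => ?_⟩
  refine word_zero (E := E) (ν := ν) (ι := Q.ι) μ Q.geo Q.ιc (ρ := ρ) hρ1 (Z := fun g => b g + σ g v - v) ?_ ?_ hv1 ?_
    (fun n => Fin n → Bx R) (fun n f => pw (fun x : Bx R => Q.h (pt x)) (List.ofFn f)) (fun n => ((n : ℝ) + 1) ^ 2)
    (fun n => by positivity) ?_ ?_ g
  · exact (hbc.add (hσ v)).sub continuous_const
  · intro g h
    show b (g * h) + σ (g * h) v - v = b g + σ g v - v + ρ g (b h + σ h v - v)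
    rw [hρ]
    exact coc_add hb v g h
  · intro g ξ
    have h1 := hv2 g
    have h2 : ∫ k, (inner ℂ ξ (ρ (Q.ι k) (b g + σ g v - v)) : ℂ) ∂ν = inner ℂ ξ (av ν Q.ι σ (b g + σ g v - v)) := by
      simp only [hρ]
      exact integral_inner (int_k Q.ιc hσ _) ξ
    rw [h2, h1, inner_zero_right]
  · intro n ξ' v'
    have h1 := hw n ξ' v'
    rw [← wsum_ofFn] at h1
    simp only [hρ]
    exact h1
  · intro C'
    have h1 : Tendsto (fun n : ℕ => C' * (((n : ℝ) + 1) ^ 2 / 2 ^ n)) atTop (𝓝 0) := by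
      have h2 := tendsto_pow_const_div_const_pow_of_one_lt 2 (show (1 : ℝ) < 2 by norm_num)
      have h3 := (h2.comp (tendsto_add_atTop_nat 1)).const_mul (2 * C')
      rw [mul_zero] at h3
      refine h3.congr fun n => ?_
      show 2 * C' * (((n + 1 : ℕ) : ℝ) ^ 2 / 2 ^ (n + 1)) = _
      rw [pow_succ]
      push_cast
      field_simp
      ring
    obtain ⟨n, hn⟩ := (h1.eventually (gt_mem_nhds hc)).exists
    refine ⟨n, ?_⟩
    have h2 := hgr n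
    rw [← wsum_ofFn] at h2
    refine lt_of_lt_of_le ?_ h2
    have h3 : (0 : ℝ) < 2 ^ n := by positivity
    have h4 : C' * (((n : ℝ) + 1) ^ 2 / 2 ^ n) * 2 ^ n < c * 2 ^ n := mul_lt_mul_of_pos_right hn h3
    have h5 : C' * (((n : ℝ) + 1) ^ 2 / 2 ^ n) * 2 ^ n = C' * ((n : ℝ) + 1) ^ 2 := by
      field_simp
    rwa [h5] at h4

end final

end Pool.Agent.Helper42.HC
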