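import Pool.Agent.Helper42.HC.Energy

/-!
# Harmonic cocycles with values in a representation with small coefficients on words

`word_zero`: `G`, `K`, `N` as in `Geo`. `ρ` is a homomorphism to the contractions of a Hilbert space, `Z` a continuous harmonic cocycle with `Z(K) = 0`, and `w n i`, `i ∈ I n`, finite families of elements of `G` with
`∑ i, |⟨ξ, ρ(w n i) v⟩|² ≤ T n |ξ|² |v|²` for all `ξ`, `v`. If `∑ i, N(w n i)⁻⁴` is not `O(T n)`, then `Z = 0`.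
-/

set_option autoImplicit false
set_option linter.unusedSectionVars false

open MeasureTheory Filter Topology
open scoped ENNReal

namespace Pool.Agent.Helper42.HC

variable {G K E : Type} [Group G] [TopologicalSpace G] [IsTopologicalGroup G] [MeasurableSpace G] [BorelSpace G]
  [SecondCountableTopology G] [LocallyCompactSpace G]
  [Group K] [TopologicalSpace K] [IsTopologicalGroup K] [CompactSpace K] [MeasurableSpace K] [BorelSpace K]
  [SecondCountableTopology K]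
  [NormedAddCommGroup E] [InnerProductSpace ℂ E] [CompleteSpace E]
  {μ : Measure G} [μ.IsHaarMeasure] [SFinite μ]
  {ν : Measure K} [IsProbabilityMeasure ν] [ν.IsMulLeftInvariant] [ν.IsMulRightInvariant]
  {ι : K →* G}

theorem sum_e0 {ρ : G →* (E →L[ℂ] E)} (hρ : ∀ g, ‖ρ g‖ ≤ 1) {Z : G → E} (hZc : Continuous Z)
    (hZ : ∀ g h, Z (g * h) = Z g + ρ g (Z h)) (ξ : E) {B : Set G} {M : ℝ} (hM : ∀ z ∈ B, ‖Z z‖ ≤ M)
    {I : Type} [Fintype I] (w : I → G) {T : ℝ} (hT0 : 0 ≤ T)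
    (hT : ∀ ξ' v : E, ∑ i, ‖(inner ℂ ξ' (ρ (w i) v) : ℂ)‖ ^ 2 ≤ T * (‖ξ'‖ ^ 2 * ‖v‖ ^ 2)) (x : G) :
    ∑ i, e0 μ B (fun g => (inner ℂ ξ (Z g) : ℂ)) (x * w i) ≤ ENNReal.ofReal (T * (‖ξ‖ ^ 2 * M ^ 2)) * μ B := by
  have hfc : Continuous fun g => (inner ℂ ξ (Z g) : ℂ) := continuous_const.inner hZc
  have hm : ∀ i, Measurable fun z : G => sqd (inner ℂ ξ (Z (x * w i * z)) : ℂ) (inner ℂ ξ (Z (x * w i)) : ℂ) := fun i =>
    meas_sqd (hfc.comp (continuous_const.mul continuous_id)) continuous_const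
  show ∑ i, ∫⁻ z in B, sqd (inner ℂ ξ (Z (x * w i * z)) : ℂ) (inner ℂ ξ (Z (x * w i)) : ℂ) ∂μ ≤ _
  rw [← lintegral_finsetSum _ fun i _ => hm i]
  rw [← setLIntegral_const]
  refine setLIntegral_mono measurable_const fun z hz => ?_
  have h1 : ∀ i, sqd (inner ℂ ξ (Z (x * w i * z)) : ℂ) (inner ℂ ξ (Z (x * w i)) : ℂ) =
      ENNReal.ofReal (‖(inner ℂ ((ρ x).adjoint ξ) (ρ (w i) (Z z)) : ℂ)‖ ^ 2) := by
    intro i
    unfold sqd
    rw [hZ, inner_add_right, add_sub_cancel_left, map_mul, ContinuousLinearMap.adjoint_inner_left]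
    rfl
  rw [Finset.sum_congr rfl fun i _ => h1 i, ← ENNReal.ofReal_sum_of_nonneg fun i _ => by positivity]
  refine ENNReal.ofReal_le_ofReal ((hT _ _).trans ?_)
  have h2 : ‖(ρ x).adjoint ξ‖ ≤ ‖ξ‖ := by
    have h3 := (ρ x).adjoint.le_opNorm ξ
    have h4 : ‖(ρ x).adjoint‖ ≤ 1 := by
      rw [LinearIsometryEquiv.norm_map]
      exact hρ x
    refine h3.trans ?_
    calc ‖(ρ x).adjoint‖ * ‖ξ‖ ≤ 1 * ‖ξ‖ := mul_le_mul_of_nonneg_right h4 (norm_nonneg _)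
      _ = ‖ξ‖ := one_mul _
  refine mul_le_mul_of_nonneg_left ?_ hT0
  exact mul_le_mul (pow_le_pow_left₀ (norm_nonneg _) h2 2) (pow_le_pow_left₀ (norm_nonneg _) (hM z hz) 2)
    (by positivity) (by positivity)

theorem word_bound (μ : Measure G) [μ.IsHaarMeasure] [SFinite μ] (geo : Geo ι) (hι : Continuous ι)
    {ρ : G →* (E →L[ℂ] E)} (hρ : ∀ g, ‖ρ g‖ ≤ 1) {Z : G → E} (hZc : Continuous Z)
    (hZ : ∀ g h, Z (g * h) = Z g + ρ g (Z h)) (hZK : ∀ k, Z (ι k) = 0)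
    (hmean : ∀ g ξ, ∫ k, (inner ℂ ξ (ρ (ι k) (Z g)) : ℂ) ∂ν = 0) (ξ : E) (g₁ : G) :
    ∃ C : ℝ, 0 ≤ C ∧ ∀ (I : Type) (_ : Fintype I) (w : I → G) (T : ℝ), 0 ≤ T →
      (∀ ξ' v : E, ∑ i, ‖(inner ℂ ξ' (ρ (w i) v) : ℂ)‖ ^ 2 ≤ T * (‖ξ'‖ ^ 2 * ‖v‖ ^ 2)) →
      Ag ν ι (fun g => (inner ℂ ξ (Z g) : ℂ)) g₁ * ENNReal.ofReal (∑ i, (geo.N (w i) ^ 4)⁻¹) ≤
        ENNReal.ofReal (C * T) := by
  obtain ⟨f, hf⟩ : ∃ f : G → ℂ, f = fun g => (inner ℂ ξ (Z g) : ℂ) := ⟨_, rfl⟩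
  have hfc : Continuous f := by
    rw [hf]
    exact continuous_const.inner hZc
  have hadj : ∀ (x : G) (y : E), (inner ℂ ξ (ρ x y) : ℂ) = inner ℂ ((ρ x).adjoint ξ) y := fun x y =>
    (ContinuousLinearMap.adjoint_inner_left _ _ _).symm
  -- mean zero
  have h0 : ∀ g : G, ∫ k, f (ι k * g) ∂ν = 0 := by
    intro g
    rw [← hmean g ξ]
    refine integral_congr_ae (Eventually.of_forall fun k => ?_)
    rw [hf]
    show (inner ℂ ξ (Z (ι k * g)) : ℂ) = inner ℂ ξ (ρ (ι k) (Z g))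
    rw [hZ, hZK, zero_add]
  -- harmonic
  have hh : ∀ g h : G, f g = ∫ k, f (g * ι k * h) ∂ν := by
    intro g h
    have hcont : Continuous fun k : K => f (g * ι k * h) :=
      hfc.comp ((continuous_const.mul hι).mul continuous_const)
    have h1 : ∀ k : K, f (g * ι k * h) = f g + inner ℂ ((ρ g).adjoint ξ) (ρ (ι k) (Z h)) := by
      intro k
      rw [hf]
      show (inner ℂ ξ (Z (g * ι k * h)) : ℂ) = inner ℂ ξ (Z g) + _
      rw [hZ, hZ, hZK, map_zero, add_zero, inner_add_right, map_mul, ← hadj]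
      rfl
    have h2 : Integrable (fun k => (inner ℂ ((ρ g).adjoint ξ) (ρ (ι k) (Z h)) : ℂ)) ν := by
      have h3 : (fun k => (inner ℂ ((ρ g).adjoint ξ) (ρ (ι k) (Z h)) : ℂ)) = fun k => f (g * ι k * h) - f g := by
        funext k
        rw [h1, add_sub_cancel_left]
      rw [h3]
      exact integrable_cont ν (hcont.sub continuous_const)
    simp only [h1]
    rw [integral_add (integrable_const _) h2, hmean]
    simp
  -- the sets
  obtain ⟨V, hVc, hV1⟩ := exists_compact_mem_nhds (1 : G)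
  have hVm : MeasurableSet (closure V) := isClosed_closure.measurableSet
  have hVc' : IsCompact (closure V) := hVc.closure
  have hVpos : μ (closure V) ≠ 0 :=
    (μ.measure_pos_of_mem_nhds (Filter.mem_of_superset hV1 subset_closure)).ne'
  have hVfin : μ (closure V) ≠ ∞ := hVc'.measure_lt_top.ne
  obtain ⟨B', hB'⟩ : ∃ B' : Set G, B' = closure V ∪ (fun p : G × G => p.1⁻¹ * p.2) '' (geo.B ×ˢ closure V) := ⟨_, rfl⟩
  have hB'c : IsCompact B' := by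
    rw [hB']
    exact hVc'.union ((geo.compB.prod hVc').image (continuous_fst.inv.mul continuous_snd))
  have hVB : closure V ⊆ B' := by
    rw [hB']
    exact Set.subset_union_left
  have hBB : ∀ y ∈ geo.B, ∀ z ∈ closure V, y⁻¹ * z ∈ B' := by
    intro y hy z hz
    rw [hB']
    exact Or.inr ⟨(y, z), ⟨hy, hz⟩, rfl⟩
  obtain ⟨M, hM⟩ := hB'c.exists_bound_of_continuousOn hZc.continuousOn
  have hme := meas_e0 (μ := μ) B' hfc
  have hNpos : ∀ x, 0 < geo.N x := fun x => lt_of_lt_of_le one_pos (geo.one_le x)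
  have hBfin : μ B' ≠ ∞ := hB'c.measure_lt_top.ne
  obtain ⟨D, hD⟩ : ∃ D : ℝ≥0∞, D = ENNReal.ofReal (geo.L ^ 2 * geo.N g₁ ^ 4) * ((μ (closure V))⁻¹ * 4) := ⟨_, rfl⟩
  have hDfin : D ≠ ∞ := by
    rw [hD]
    exact ENNReal.mul_ne_top ENNReal.ofReal_ne_top (ENNReal.mul_ne_top (ENNReal.inv_ne_top.2 hVpos) (by simp))
  refine ⟨D.toReal * (‖ξ‖ ^ 2 * M ^ 2) * (μ B').toReal, by positivity, fun I _ w T hT0 hT => ?_⟩
  rw [← hf]
  -- one word
  have hone : ∀ i, Ag ν ι f g₁ * ENNReal.ofReal (geo.N (w i) ^ 4)⁻¹ ≤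
      D * ∫⁻ k, ∫⁻ k', e0 μ B' f (ι k' * g₁ * ι k * w i) ∂ν ∂ν := by
    intro i
    have hN := hNpos (w i)
    have hN1 := hNpos g₁
    have h1 : ∀ k : K, Ag ν ι f (g₁ * ι k * w i) ≤ ENNReal.ofReal (geo.N (w i) ^ 4) *
        (D * ∫⁻ k', e0 μ B' f (ι k' * g₁ * ι k * w i) ∂ν) := by
      intro k
      have h2 := sphere_le (ν := ν) geo hfc hι hVm hVpos hVfin hVB hBB (g₁ * ι k * w i) (h0 _)
      have h3 : geo.N (g₁ * ι k * w i) ≤ geo.N g₁ * geo.N (w i) := by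
        rw [mul_assoc]
        refine (geo.mul _ _).trans ?_
        rw [geo.left]
      have h4 : ENNReal.ofReal (geo.L ^ 2 * geo.N (g₁ * ι k * w i) ^ 4) ≤
          ENNReal.ofReal (geo.N (w i) ^ 4) * ENNReal.ofReal (geo.L ^ 2 * geo.N g₁ ^ 4) := by
        rw [← ENNReal.ofReal_mul (by positivity)]
        refine ENNReal.ofReal_le_ofReal ?_
        have h5 := pow_le_pow_left₀ (hNpos _).le h3 4
        have h6 : geo.L ^ 2 * geo.N (g₁ * ι k * w i) ^ 4 ≤ geo.L ^ 2 * (geo.N g₁ * geo.N (w i)) ^ 4 :=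
          mul_le_mul_of_nonneg_left h5 (sq_nonneg _)
        refine h6.trans (le_of_eq ?_)
        ring
      have e1 : (fun k' : K => e0 μ B' f (ι k' * (g₁ * ι k * w i))) = fun k' => e0 μ B' f (ι k' * g₁ * ι k * w i) := by
        funext k'
        rw [mul_assoc (ι k' * g₁), mul_assoc (ι k'), mul_assoc g₁]
      rw [e1] at h2
      refine h2.trans ((mul_le_mul_left h4 _).trans (le_of_eq ?_))
      rw [hD]
      ring
    have h5 : Ag ν ι f g₁ ≤ ENNReal.ofReal (geo.N (w i) ^ 4) *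
        (D * ∫⁻ k, ∫⁻ k', e0 μ B' f (ι k' * g₁ * ι k * w i) ∂ν ∂ν) := by
      refine (Ag_sub (ν := ν) hfc hι hh g₁ (w i)).trans ?_
      rw [← lintegral_const_mul' _ _ hDfin, ← lintegral_const_mul' _ _ ENNReal.ofReal_ne_top]
      exact lintegral_mono h1
    calc Ag ν ι f g₁ * ENNReal.ofReal (geo.N (w i) ^ 4)⁻¹
        ≤ (ENNReal.ofReal (geo.N (w i) ^ 4) * (D * ∫⁻ k, ∫⁻ k', e0 μ B' f (ι k' * g₁ * ι k * w i) ∂ν ∂ν)) *
          ENNReal.ofReal (geo.N (w i) ^ 4)⁻¹ := mul_le_mul_left h5 _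
      _ = (ENNReal.ofReal (geo.N (w i) ^ 4) * ENNReal.ofReal (geo.N (w i) ^ 4)⁻¹) *
          (D * ∫⁻ k, ∫⁻ k', e0 μ B' f (ι k' * g₁ * ι k * w i) ∂ν ∂ν) := by ring
      _ = _ := by
        rw [← ENNReal.ofReal_mul (by positivity), mul_inv_cancel₀ (by positivity), ENNReal.ofReal_one, one_mul]
  -- sum
  have hcont2 : ∀ i, Continuous fun p : K × K => ι p.2 * g₁ * ι p.1 * w i := fun i =>
    (((hι.comp continuous_snd).mul continuous_const).mul (hι.comp continuous_fst)).mul continuous_const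
  have hc1 : ∀ (k : K) i, Continuous fun k' : K => ι k' * g₁ * ι k * w i := fun k i =>
    ((hι.mul continuous_const).mul continuous_const).mul continuous_const
  have hm2 : ∀ i, Measurable fun p : K × K => e0 μ B' f (ι p.2 * g₁ * ι p.1 * w i) := fun i =>
    Measurable.comp (g := e0 μ B' f) (f := fun p : K × K => ι p.2 * g₁ * ι p.1 * w i) hme (hcont2 i).measurable
  have hm1 : ∀ (k : K) i, Measurable fun k' : K => e0 μ B' f (ι k' * g₁ * ι k * w i) := fun k i =>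
    Measurable.comp (g := e0 μ B' f) (f := fun k' : K => ι k' * g₁ * ι k * w i) hme (hc1 k i).measurable
  have hsum : ∑ i, ∫⁻ k, ∫⁻ k', e0 μ B' f (ι k' * g₁ * ι k * w i) ∂ν ∂ν ≤
      ENNReal.ofReal (T * (‖ξ‖ ^ 2 * M ^ 2)) * μ B' := by
    rw [← lintegral_finsetSum _ fun i _ => (hm2 i).lintegral_prod_right']
    have h1 : ∀ k : K, ∑ i, ∫⁻ k', e0 μ B' f (ι k' * g₁ * ι k * w i) ∂ν ≤
        ENNReal.ofReal (T * (‖ξ‖ ^ 2 * M ^ 2)) * μ B' := by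
      intro k
      rw [← lintegral_finsetSum _ fun i _ => hm1 k i]
      have h2 : ∀ k' : K, ∑ i, e0 μ B' f (ι k' * g₁ * ι k * w i) ≤ ENNReal.ofReal (T * (‖ξ‖ ^ 2 * M ^ 2)) * μ B' := by
        intro k'
        rw [hf]
        exact sum_e0 hρ hZc hZ ξ hM w hT0 hT (ι k' * g₁ * ι k)
      calc ∫⁻ k', ∑ i, e0 μ B' f (ι k' * g₁ * ι k * w i) ∂ν ≤ ∫⁻ _, ENNReal.ofReal (T * (‖ξ‖ ^ 2 * M ^ 2)) * μ B' ∂ν :=
            lintegral_mono h2
        _ = _ := by rw [lintegral_const, measure_univ, mul_one]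
    calc ∫⁻ k, ∑ i, ∫⁻ k', e0 μ B' f (ι k' * g₁ * ι k * w i) ∂ν ∂ν ≤ ∫⁻ _, ENNReal.ofReal (T * (‖ξ‖ ^ 2 * M ^ 2)) * μ B' ∂ν :=
          lintegral_mono h1
      _ = _ := by rw [lintegral_const, measure_univ, mul_one]
  have hfin : Ag ν ι f g₁ * ENNReal.ofReal (∑ i, (geo.N (w i) ^ 4)⁻¹) ≤
      D * (ENNReal.ofReal (T * (‖ξ‖ ^ 2 * M ^ 2)) * μ B') := by
    rw [ENNReal.ofReal_sum_of_nonneg fun i _ => by have := hNpos (w i); positivity, Finset.mul_sum]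
    refine (Finset.sum_le_sum fun i _ => hone i).trans ?_
    rw [← Finset.mul_sum]
    exact mul_le_mul_right hsum _
  have e1 : D * (ENNReal.ofReal (T * (‖ξ‖ ^ 2 * M ^ 2)) * μ B') =
      ENNReal.ofReal (D.toReal * (‖ξ‖ ^ 2 * M ^ 2) * (μ B').toReal * T) := by
    have e3 : D.toReal * (‖ξ‖ ^ 2 * M ^ 2) * (μ B').toReal * T = D.toReal * ((T * (‖ξ‖ ^ 2 * M ^ 2)) * (μ B').toReal) := by
      ring
    have e4 : 0 ≤ T * (‖ξ‖ ^ 2 * M ^ 2) := by positivity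
    rw [e3, ENNReal.ofReal_mul ENNReal.toReal_nonneg, ENNReal.ofReal_mul e4, ENNReal.ofReal_toReal hDfin,
      ENNReal.ofReal_toReal hBfin]
  exact hfin.trans (le_of_eq e1)

/-- The vanishing theorem. -/
theorem word_zero [ν.IsOpenPosMeasure] (μ : Measure G) [μ.IsHaarMeasure] [SFinite μ] (geo : Geo ι) (hι : Continuous ι)
    {ρ : G →* (E →L[ℂ] E)} (hρ : ∀ g, ‖ρ g‖ ≤ 1) {Z : G → E} (hZc : Continuous Z)
    (hZ : ∀ g h, Z (g * h) = Z g + ρ g (Z h)) (hZK : ∀ k, Z (ι k) = 0)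
    (hmean : ∀ g ξ, ∫ k, (inner ℂ ξ (ρ (ι k) (Z g)) : ℂ) ∂ν = 0)
    (I : ℕ → Type) [∀ n, Fintype (I n)] (w : ∀ n, I n → G) (T : ℕ → ℝ) (hT0 : ∀ n, 0 ≤ T n)
    (hT : ∀ n, ∀ ξ' v : E, ∑ i, ‖(inner ℂ ξ' (ρ (w n i) v) : ℂ)‖ ^ 2 ≤ T n * (‖ξ'‖ ^ 2 * ‖v‖ ^ 2))
    (hdiv : ∀ C : ℝ, ∃ n, C * T n < ∑ i, (geo.N (w n i) ^ 4)⁻¹) (g : G) : Z g = 0 := by
  have hAg : ∀ ξ : E, Ag ν ι (fun g => (inner ℂ ξ (Z g) : ℂ)) g = 0 := by
    intro ξ
    by_contra hne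
    obtain ⟨C, hC0, hC⟩ := word_bound μ (ν := ν) geo hι hρ hZc hZ hZK hmean ξ g
    obtain ⟨a, ha, hale⟩ : ∃ a : ℝ, 0 < a ∧ ENNReal.ofReal a ≤ Ag ν ι (fun g => (inner ℂ ξ (Z g) : ℂ)) g := by
      by_cases htop : Ag ν ι (fun g => (inner ℂ ξ (Z g) : ℂ)) g = ∞
      · exact ⟨1, one_pos, by rw [htop]; exact le_top⟩
      · exact ⟨_, ENNReal.toReal_pos hne htop, by rw [ENNReal.ofReal_toReal htop]⟩
    obtain ⟨n, hn⟩ := hdiv (C / a)
    have h1 := hC (I n) inferInstance (w n) (T n) (hT0 n) (hT n)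
    have h2 : ENNReal.ofReal a * ENNReal.ofReal (∑ i, (geo.N (w n i) ^ 4)⁻¹) ≤ ENNReal.ofReal (C * T n) :=
      (mul_le_mul_left hale _).trans h1
    rw [← ENNReal.ofReal_mul ha.le, ENNReal.ofReal_le_ofReal_iff (mul_nonneg hC0 (hT0 n))] at h2
    rw [div_mul_eq_mul_div, div_lt_iff₀ ha] at hn
    linarith
  have key : ∀ ξ : E, (inner ℂ ξ (Z g) : ℂ) = 0 := by
    intro ξ
    have h1 := hAg ξ
    unfold Ag at h1
    have hfc : Continuous fun g => (inner ℂ ξ (Z g) : ℂ) := continuous_const.inner hZc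
    have hF : Continuous fun k : K => (inner ℂ ξ (Z (ι k * g)) : ℂ) := hfc.comp (hι.mul continuous_const)
    have hm : Measurable fun k : K => sqd (inner ℂ ξ (Z (ι k * g)) : ℂ) 0 := meas_sqd hF continuous_const
    rw [lintegral_eq_zero_iff hm] at h1
    have h2 : (fun k : K => (inner ℂ ξ (Z (ι k * g)) : ℂ)) =ᵐ[ν] fun _ => 0 := by
      filter_upwards [h1] with k hk
      have h3 : ENNReal.ofReal (‖(inner ℂ ξ (Z (ι k * g)) : ℂ) - 0‖ ^ 2) = 0 := hk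
      rw [ENNReal.ofReal_eq_zero, sub_zero] at h3
      have h4 : ‖(inner ℂ ξ (Z (ι k * g)) : ℂ)‖ = 0 := by
        have := norm_nonneg (inner ℂ ξ (Z (ι k * g)) : ℂ)
        nlinarith
      exact norm_eq_zero.1 h4
    have h3 := (Continuous.ae_eq_iff_eq ν hF continuous_const).1 h2
    have h4 := congrFun h3 1
    simpa using h4
  have h1 := key (Z g)
  exact inner_self_eq_zero.1 h1

end Pool.Agent.Helper42.HC
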