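import Pool.Agent.Helper42.HC.QK
import Pool.Agent.Helper42.HC.Word

/-!
# The group `SL(2, ℍ)`

`QG G`: an isomorphism of the topological group `G` with the group of the quaternionic `2 × 2` matrices `M` with `det (Mᴴ M) = 1`. `ι : Sp(2) → G`, `N` the Hilbert-Schmidt norm.
`geo`: `G`, `Sp(2)`, `N` satisfy `Geo`. `dc`: elements with the same norm are in the same double coset of `Sp(2)`. `prod_mem`: every element of norm at most `T` is in `K g₀ K g₀ K`, `g₀ = diag(a, a⁻¹)` with `a` large.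
-/

set_option autoImplicit false
set_option linter.unusedSectionVars false

open Matrix MeasureTheory Topology

namespace Pool.Agent.Helper42.HC

open Pool.Agent.Helper84.SPQ

/-- `G` is isomorphic to `SL(2, ℍ)`. -/
structure QG (G : Type) [Group G] [TopologicalSpace G] where
  /-- the matrix -/
  φ : G →* MH (Fin 2)
  emb : IsClosedEmbedding φ
  det : ∀ g, dl (φ g) = 1
  surj : ∀ M : MH (Fin 2), dl M = 1 → ∃ g, φ g = M

theorem k_star_mul (k : K2) : (k : MH (Fin 2))ᴴ * (k : MH (Fin 2)) = 1 := (Unitary.mem_iff.1 k.2).1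

theorem k_mul_star (k : K2) : (k : MH (Fin 2)) * (k : MH (Fin 2))ᴴ = 1 := (Unitary.mem_iff.1 k.2).2

theorem dl_one : dl (1 : MH (Fin 2)) = 1 := by
  unfold dl
  simp

theorem dl_K (k : K2) : dl (k : MH (Fin 2)) = 1 := by
  have h := (n2_unit_mul (k_star_mul k) 1).2
  rw [Matrix.mul_one, dl_one] at h
  exact h

variable {G : Type} [Group G] [TopologicalSpace G] (Q : QG G)

theorem QG.inj {g h : G} (e : Q.φ g = Q.φ h) : g = h := Q.emb.injective e

/-- the embedding of `Sp(2)` -/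
noncomputable def QG.ι : K2 →* G where
  toFun k := (Q.surj k (dl_K k)).choose
  map_one' := by
    apply Q.inj
    rw [(Q.surj _ (dl_K 1)).choose_spec, map_one]
    rfl
  map_mul' k k' := by
    apply Q.inj
    rw [(Q.surj _ (dl_K (k * k'))).choose_spec, map_mul, (Q.surj _ (dl_K k)).choose_spec,
      (Q.surj _ (dl_K k')).choose_spec]
    rfl

theorem QG.φι (k : K2) : Q.φ (Q.ι k) = (k : MH (Fin 2)) := (Q.surj k (dl_K k)).choose_spec

theorem QG.ιc : Continuous Q.ι := by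
  rw [Q.emb.isEmbedding.continuous_iff]
  have e : Q.φ ∘ Q.ι = fun k : K2 => (k : MH (Fin 2)) := by
    funext k
    exact Q.φι k
  rw [e]
  exact continuous_subtype_val

/-- the norm -/
noncomputable def QG.N (g : G) : ℝ := nH (Q.φ g)

theorem QG.N_cont : Continuous Q.N := continuous_nH.comp Q.emb.continuous

theorem QG.N_sq_ge (g : G) : 2 ≤ Q.N g ^ 2 := by
  unfold QG.N
  rw [nH_sq]
  exact n2_ge (Q.det g)

theorem QG.N_nonneg (g : G) : 0 ≤ Q.N g := nH_nonneg _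

theorem QG.N_ge (g : G) : 1 ≤ Q.N g := by
  have h1 := Q.N_sq_ge g
  have h2 := Q.N_nonneg g
  nlinarith

theorem QG.N_mul (g h : G) : Q.N (g * h) ≤ Q.N g * Q.N h := by
  unfold QG.N
  rw [map_mul]
  exact nH_mul_le _ _

theorem QG.N_left (k : K2) (g : G) : Q.N (Q.ι k * g) = Q.N g := by
  unfold QG.N
  rw [map_mul, Q.φι]
  exact nH_unit_mul (k_star_mul k) _

theorem QG.N_right (k : K2) (g : G) : Q.N (g * Q.ι k) = Q.N g := by
  unfold QG.N
  rw [map_mul, Q.φι]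
  exact nH_mul_unit (k_mul_star k) _

theorem QG.N_inv (g : G) : Q.N g⁻¹ = Q.N g := by
  unfold QG.N
  refine nH_inv (Q.det g) ?_
  rw [← map_mul, mul_inv_cancel, map_one]

theorem QG.N_one : Q.N 1 = √2 := by
  unfold QG.N nH
  rw [map_one, n2_one]

theorem QG.compact_le (C : ℝ) : IsCompact {g : G | Q.N g ≤ C} := by
  have h1 : IsCompact {M : MH (Fin 2) | nH M ≤ C} := by
    have : ProperSpace Hq := FiniteDimensional.proper_real Hq
    have hK : IsCompact (Set.pi Set.univ fun _ : Fin 2 => Set.pi Set.univ fun _ : Fin 2 =>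
        Metric.closedBall (0 : Hq) C) :=
      isCompact_univ_pi fun _ => isCompact_univ_pi fun _ => isCompact_closedBall 0 C
    have hc : IsClosed {M : MH (Fin 2) | nH M ≤ C} := isClosed_le continuous_nH continuous_const
    refine IsCompact.of_isClosed_subset (X := MH (Fin 2)) hK hc ?_
    intro A hA i _ j _
    rw [mem_closedBall_zero_iff]
    exact (entry_le A i j).trans hA
  exact Q.emb.isCompact_preimage h1

theorem Small.list {k : K2} (hk : Small k) {m : ℕ} (hm : 1 ≤ m) :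
    ∃ l : List K2, l.prod = k ∧ l.length = m ∧ ∀ r ∈ l, nH ((r : MH (Fin 2)) - 1) ≤ 6 / m := by
  obtain ⟨r, hr1, hr2⟩ := hk m hm
  refine ⟨List.replicate m r, ?_, List.length_replicate, ?_⟩
  · rw [List.prod_replicate, hr1]
  · intro s hs
    rw [List.eq_of_mem_replicate hs]
    exact hr2

/-- the geometry -/
noncomputable def QG.geo : Geo Q.ι where
  N := Q.N
  cont := Q.N_cont
  one_le := Q.N_ge
  mul := Q.N_mul
  left := Q.N_left
  B := {g | Q.N g ≤ √2 + 6}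
  compB := Q.compact_le _
  L := 6
  root := by
    intro g k₀
    obtain ⟨m, hm1, hm2, hm3⟩ : ∃ m : ℕ, 1 ≤ m ∧ Q.N g ^ 2 ≤ m ∧ (m : ℝ) ≤ 2 * Q.N g ^ 2 := by
      have h0 := Q.N_sq_ge g
      refine ⟨⌈Q.N g ^ 2⌉₊, ?_, Nat.le_ceil _, ?_⟩
      · rw [Nat.one_le_ceil_iff]
        linarith
      · have := (Nat.ceil_lt_add_one (show 0 ≤ Q.N g ^ 2 by linarith)).le
        linarith
    have hm0 : (0 : ℝ) < m := by exact_mod_cast hm1
    obtain ⟨k1, k2, k3, h1, h2, h3, hk⟩ := k2_split k₀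
    obtain ⟨l1, a1, b1, c1⟩ := h1.list hm1
    obtain ⟨l2, a2, b2, c2⟩ := h2.list hm1
    obtain ⟨l3, a3, b3, c3⟩ := h3.list hm1
    refine ⟨l1 ++ l2 ++ l3, ?_, ?_, ?_⟩
    · rw [List.prod_append, List.prod_append, a1, a2, a3, hk]
    · rw [List.length_append, List.length_append, b1, b2, b3]
      push_cast
      linarith
    · intro k hkl
      have hk6 : nH ((k : MH (Fin 2)) - 1) ≤ 6 / m := by
        rw [List.mem_append, List.mem_append] at hkl
        rcases hkl with (h | h) | h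
        · exact c1 k h
        · exact c2 k h
        · exact c3 k h
      show Q.N (g⁻¹ * Q.ι k * g) ≤ √2 + 6
      have e1 : Q.φ (g⁻¹ * Q.ι k * g) = 1 + Q.φ g⁻¹ * ((k : MH (Fin 2)) - 1) * Q.φ g := by
        rw [map_mul, map_mul, Q.φι, Matrix.mul_sub, Matrix.sub_mul, Matrix.mul_one, ← map_mul Q.φ g⁻¹ g, inv_mul_cancel,
          map_one]
        abel
      have e2 : nH (1 + Q.φ g⁻¹ * ((k : MH (Fin 2)) - 1) * Q.φ g) ≤ √2 + 6 := by
        refine (nH_add_le _ _).trans ?_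
        have e3 : nH (1 : MH (Fin 2)) = √2 := by
          unfold nH
          rw [n2_one]
        rw [e3]
        have e4 : nH (Q.φ g⁻¹ * ((k : MH (Fin 2)) - 1) * Q.φ g) ≤ 6 := by
          refine (nH_mul_le _ _).trans ?_
          have e5 := nH_mul_le (Q.φ g⁻¹) ((k : MH (Fin 2)) - 1)
          have e6 : nH (Q.φ g⁻¹) = Q.N g := Q.N_inv g
          have e7 : nH (Q.φ g) = Q.N g := rfl
          rw [e6] at e5
          rw [e7]
          have h0 := Q.N_nonneg g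
          have h1 : nH (Q.φ g⁻¹ * ((k : MH (Fin 2)) - 1)) ≤ Q.N g * (6 / m) :=
            e5.trans (mul_le_mul_of_nonneg_left hk6 h0)
          calc nH (Q.φ g⁻¹ * ((k : MH (Fin 2)) - 1)) * Q.N g ≤ Q.N g * (6 / m) * Q.N g :=
                mul_le_mul_of_nonneg_right h1 h0
            _ = Q.N g ^ 2 * (6 / m) := by ring
            _ ≤ m * (6 / m) := mul_le_mul_of_nonneg_right hm2 (by positivity)
            _ = 6 := by field_simp
        linarith
      unfold QG.N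
      rw [e1]
      exact e2

/-- elements of the same norm are in the same double coset -/
theorem QG.dc {g g' : G} (h : Q.N g = Q.N g') : ∃ k k' : K2, g' = Q.ι k * g * Q.ι k' := by
  have hn : n2 (Q.φ g) = n2 (Q.φ g') := by
    unfold QG.N at h
    rw [← nH_sq, ← nH_sq, h]
  have hd : dl (Q.φ g) = dl (Q.φ g') := by rw [Q.det, Q.det]
  unfold n2 at hn
  unfold dl at hd
  obtain ⟨k, hk1, hk2, hk3⟩ := Hm_conj hn hd
  rw [← conj_mul_self, ← conj_mul_self] at hk3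
  obtain ⟨K, hK⟩ : ∃ K : K2, (K : MH (Fin 2)) = k := ⟨⟨k, Unitary.mem_iff.2 ⟨hk1, hk2⟩⟩, rfl⟩
  obtain ⟨v, hv⟩ : ∃ v : G, v = g' * (Q.ι K)⁻¹ * g⁻¹ := ⟨_, rfl⟩
  have hg' : g' = v * g * Q.ι K := by
    rw [hv]
    group
  have hA : Q.φ g * Q.φ g⁻¹ = 1 := by rw [← map_mul, mul_inv_cancel, map_one]
  have hA' : (Q.φ g⁻¹)ᴴ * (Q.φ g)ᴴ = 1 := by rw [← conjTranspose_mul, hA, conjTranspose_one]
  have hKi : Q.φ (Q.ι K)⁻¹ = kᴴ := by
    rw [← map_inv, Q.φι, ← hK]
    rfl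
  have hvv : (Q.φ v)ᴴ * Q.φ v = 1 := by
    have e1 : Q.φ v = Q.φ g' * kᴴ * Q.φ g⁻¹ := by
      rw [hv, map_mul, map_mul, hKi]
    rw [e1, conjTranspose_mul, conjTranspose_mul, conjTranspose_conjTranspose]
    calc (Q.φ g⁻¹)ᴴ * (k * (Q.φ g')ᴴ) * (Q.φ g' * kᴴ * Q.φ g⁻¹)
        = (Q.φ g⁻¹)ᴴ * k * ((Q.φ g')ᴴ * Q.φ g') * kᴴ * Q.φ g⁻¹ := by simp only [Matrix.mul_assoc]
      _ = (Q.φ g⁻¹)ᴴ * (k * kᴴ) * (Q.φ g)ᴴ * (Q.φ g) * (k * kᴴ) * Q.φ g⁻¹ := by
        rw [← hk3]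
        simp only [Matrix.mul_assoc]
      _ = ((Q.φ g⁻¹)ᴴ * (Q.φ g)ᴴ) * (Q.φ g * Q.φ g⁻¹) := by
        rw [hk2]
        simp only [Matrix.mul_assoc, Matrix.mul_one, Matrix.one_mul]
      _ = 1 := by rw [hA, hA', Matrix.mul_one]
  have hvv' : Q.φ v * (Q.φ v)ᴴ = 1 := by
    have h1 : Q.φ v * Q.φ v⁻¹ = 1 := by rw [← map_mul, mul_inv_cancel, map_one]
    have h2 : (Q.φ v)ᴴ = Q.φ v⁻¹ := by
      calc (Q.φ v)ᴴ = (Q.φ v)ᴴ * (Q.φ v * Q.φ v⁻¹) := by rw [h1, Matrix.mul_one]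
        _ = Q.φ v⁻¹ := by rw [← Matrix.mul_assoc, hvv, Matrix.one_mul]
    rw [h2, h1]
  refine ⟨⟨Q.φ v, Unitary.mem_iff.2 ⟨hvv, hvv'⟩⟩, K, ?_⟩
  have hvK : Q.ι ⟨Q.φ v, Unitary.mem_iff.2 ⟨hvv, hvv'⟩⟩ = v := by
    apply Q.inj
    rw [Q.φι]
  rw [hvK]
  exact hg'

theorem QG.GK (g : G) : ∃ k k' : K2, g⁻¹ = Q.ι k * g * Q.ι k' := Q.dc (Q.N_inv g).symm

/-- the diagonal matrices -/
noncomputable def dgM (a : ℝ) : MH (Fin 2) := !![(a : Hq), 0; 0, ((a⁻¹ : ℝ) : Hq)]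

theorem dl_dgM {a : ℝ} (ha : 0 < a) : dl (dgM a) = 1 := by
  unfold dl dgM
  show (‖(a : Hq)‖ ^ 2 + ‖(0 : Hq)‖ ^ 2) * (‖(0 : Hq)‖ ^ 2 + ‖((a⁻¹ : ℝ) : Hq)‖ ^ 2) -
    ‖star (a : Hq) * 0 + star (0 : Hq) * ((a⁻¹ : ℝ) : Hq)‖ ^ 2 = 1
  rw [Quaternion.norm_coe, Quaternion.norm_coe, norm_zero, star_zero, mul_zero, zero_mul, add_zero, norm_zero,
    Real.norm_of_nonneg ha.le, Real.norm_of_nonneg (inv_nonneg.2 ha.le)]
  field_simp
  ring

theorem QG.prod_mem (T : ℝ) : ∃ g₀ : G, ∀ g : G, Q.N g ≤ T → ∃ k1 k2 k3 : K2,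
    g = Q.ι k1 * g₀ * Q.ι k2 * g₀ * Q.ι k3 := by
  obtain ⟨a, ha1, haT⟩ : ∃ a : ℝ, 1 ≤ a ∧ T ≤ a := ⟨max 1 T, le_max_left _ _, le_max_right _ _⟩
  have ha : 0 < a := by linarith
  obtain ⟨g₀, hg₀⟩ := Q.surj (dgM a) (dl_dgM ha)
  refine ⟨g₀, fun g hg => ?_⟩
  -- the path
  obtain ⟨R, hR⟩ : ∃ R : ℝ → K2, ∀ t, (R t : MH (Fin 2)) = rotM (Complex.exp (t * Complex.I)) :=
    ⟨fun t => ⟨rotM (Complex.exp (t * Complex.I)), rot_mem (Complex.norm_exp_ofReal_mul_I t)⟩, fun _ => rfl⟩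
  have hφ : ∀ t, Q.φ (g₀ * Q.ι (R t) * g₀) = dgM a * rotM (Complex.exp (t * Complex.I)) * dgM a := by
    intro t
    rw [map_mul, map_mul, Q.φι, hg₀, hR]
  have hcont : Continuous fun t : ℝ => Q.N (g₀ * Q.ι (R t) * g₀) := by
    unfold QG.N
    simp only [hφ]
    refine continuous_nH.comp ((continuous_const.mul ?_).mul continuous_const)
    have hz : Continuous fun t : ℝ => Complex.exp (t * Complex.I) := by fun_prop
    have h1 : Continuous fun t : ℝ => (((Complex.exp (t * Complex.I)).re : ℝ) : Hq) :=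
      Quaternion.continuous_coe.comp (Complex.continuous_re.comp hz)
    have h2 : Continuous fun t : ℝ => (((Complex.exp (t * Complex.I)).im : ℝ) : Hq) :=
      Quaternion.continuous_coe.comp (Complex.continuous_im.comp hz)
    refine continuous_matrix fun i j => ?_
    simp only [rotM_eq]
    fin_cases i <;> fin_cases j
    · exact h1
    · exact h2.neg
    · exact h2
    · exact h1
  have h0 : T ≤ Q.N (g₀ * Q.ι (R 0) * g₀) := by
    have e1 : Q.φ (g₀ * Q.ι (R 0) * g₀) = dgM a * dgM a := by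
      rw [hφ]
      simp only [Complex.ofReal_zero, zero_mul, Complex.exp_zero]
      rw [rotM_one, Matrix.mul_one]
    have e2 : ‖(dgM a * dgM a) 0 0‖ = a * a := by
      rw [Matrix.mul_apply, Fin.sum_univ_two]
      unfold dgM
      show ‖(a : Hq) * (a : Hq) + 0 * 0‖ = a * a
      rw [mul_zero, add_zero, norm_mul, Quaternion.norm_coe, Real.norm_of_nonneg ha.le]
    have e3 := entry_le (dgM a * dgM a) 0 0
    rw [e2] at e3
    unfold QG.N
    rw [e1]
    nlinarith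
  have hpi : Q.N (g₀ * Q.ι (R (Real.pi / 2)) * g₀) = √2 := by
    have e1 : Q.φ (g₀ * Q.ι (R (Real.pi / 2)) * g₀) = J0 := by
      rw [hφ]
      have e2 : Complex.exp (((Real.pi / 2 : ℝ) : ℂ) * Complex.I) = Complex.I := by
        push_cast
        exact Complex.exp_pi_div_two_mul_I
      rw [e2, rotM_eq]
      unfold dgM J0
      have ha' : (a : Hq) * ((a⁻¹ : ℝ) : Hq) = 1 := by
        rw [← Quaternion.coe_mul, mul_inv_cancel₀ ha.ne']
        rfl
      have ha'' : ((a⁻¹ : ℝ) : Hq) * (a : Hq) = 1 := by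
        rw [← Quaternion.coe_mul, inv_mul_cancel₀ ha.ne']
        rfl
      refine Matrix.ext fun i j => ?_
      simp only [Matrix.mul_apply, Fin.sum_univ_two]
      fin_cases i <;> fin_cases j
      · simp
      · simpa using ha'
      · simpa using ha''
      · simp
    unfold QG.N
    rw [e1]
    unfold nH n2 J0
    congr 1
    simp
    norm_num
  have hmin : √2 ≤ Q.N g := by
    rw [Real.sqrt_le_left (Q.N_nonneg g)]
    exact Q.N_sq_ge g
  obtain ⟨t, -, ht⟩ := intermediate_value_Icc' (show (0 : ℝ) ≤ Real.pi / 2 by positivity) hcont.continuousOn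
    (show Q.N g ∈ Set.Icc _ _ from ⟨by rw [hpi]; exact hmin, hg.trans h0⟩)
  obtain ⟨k, k', hk⟩ := Q.dc ht
  refine ⟨k, R t, k', ?_⟩
  rw [hk]
  simp only [mul_assoc]

end Pool.Agent.Helper42.HC
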