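import Pool.Agent.Helper42.HC.QM

/-!
# The group `Sp(2)` is generated by small elements

`k2_split`: every element of `Sp(2)` is the product of four elements `k` such that for every `m ≥ 1` there is an `m`-th root `r` of `k` with `|r - 1| ≤ 4 / m`.
-/

set_option autoImplicit false
set_option linter.unusedSectionVars false

open Matrix

namespace Pool.Agent.Helper42.HC

open Pool.Agent.Helper84.SPQ

theorem exists_dir (q : Hq) : ∃ u : Hq, ‖u‖ = 1 ∧ q = (‖q‖ : ℝ) • u := by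
  by_cases hq : q = 0
  · exact ⟨1, by simp, by rw [hq]; simp⟩
  · have hq' : ‖q‖ ≠ 0 := norm_ne_zero_iff.2 hq
    refine ⟨‖q‖⁻¹ • q, ?_, ?_⟩
    · rw [norm_smul, norm_inv, norm_norm, inv_mul_cancel₀ hq']
    · rw [smul_smul, mul_inv_cancel₀ hq', one_smul]

theorem u_mul_star {u : Hq} (hu : ‖u‖ = 1) : u * star u = 1 := by
  rw [q_mul_star, hu]
  simp

theorem u_star_mul {u : Hq} (hu : ‖u‖ = 1) : star u * u = 1 := by
  rw [q_star_mul, hu]
  simp

theorem norm_sq_q (q : Hq) : ‖q‖ ^ 2 = q.re ^ 2 + q.imI ^ 2 + q.imJ ^ 2 + q.imK ^ 2 := by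
  rw [pow_two, ← Quaternion.normSq_eq_norm_mul_self, Quaternion.normSq_def']

theorem exists_im (q : Hq) : ∃ (n : Hq) (s : ℝ), n.re = 0 ∧ ‖n‖ = 1 ∧ q = (q.re : Hq) + s • n ∧ ‖q‖ ^ 2 = q.re ^ 2 + s ^ 2 := by
  obtain ⟨v, hv⟩ : ∃ v : Hq, v = q.im := ⟨_, rfl⟩
  have hqv : q = (q.re : Hq) + v := by
    rw [hv]
    exact (Quaternion.re_add_im q).symm
  have hnv : ‖q‖ ^ 2 = q.re ^ 2 + ‖v‖ ^ 2 := by
    rw [norm_sq_q, norm_sq_q v, hv]
    simp
    ring
  by_cases h0 : v = 0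
  · obtain ⟨e, he0, he1, he2, he3⟩ : ∃ e : Hq, e.re = 0 ∧ e.imI = 1 ∧ e.imJ = 0 ∧ e.imK = 0 :=
      ⟨⟨0, 1, 0, 0⟩, rfl, rfl, rfl, rfl⟩
    refine ⟨e, 0, he0, ?_, ?_, ?_⟩
    · have h1 : ‖e‖ ^ 2 = 1 := by
        rw [norm_sq_q, he0, he1, he2, he3]
        norm_num
      nlinarith [norm_nonneg e]
    · rw [zero_smul, add_zero]
      rw [h0, add_zero] at hqv
      exact hqv
    · rw [hnv, h0, norm_zero]
  · have hv0 : ‖v‖ ≠ 0 := norm_ne_zero_iff.2 h0
    refine ⟨‖v‖⁻¹ • v, ‖v‖, ?_, ?_, ?_, hnv⟩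
    · rw [Quaternion.re_smul, hv]
      simp
    · rw [norm_smul, norm_inv, norm_norm, inv_mul_cancel₀ hv0]
    · rw [smul_smul, mul_inv_cancel₀ hv0, one_smul]
      exact hqv

theorem lift_eq {n : Hq} (h : n * n = -1) (z : ℂ) : Complex.liftAux n h z = (z.re : Hq) + z.im • n := by
  rw [Complex.liftAux_apply]
  rfl

theorem im_sq {n : Hq} (h0 : n.re = 0) (h1 : ‖n‖ = 1) : n * n = -1 := by
  have h2 : star n = -n := by
    rw [Quaternion.star_eq_two_re_sub, h0]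
    simp
  have h3 := u_star_mul h1
  rw [h2, neg_mul] at h3
  rw [← h3, neg_neg]

theorem norm_lift {n : Hq} (h0 : n.re = 0) (h1 : ‖n‖ = 1) (z : ℂ) : ‖Complex.liftAux n (im_sq h0 h1) z‖ = ‖z‖ := by
  have h2 : ‖Complex.liftAux n (im_sq h0 h1) z‖ ^ 2 = ‖z‖ ^ 2 := by
    rw [lift_eq, norm_sq_q, ← Complex.normSq_eq_norm_sq, Complex.normSq_apply]
    have h3 := norm_sq_q n
    rw [h0, h1] at h3
    have e1 : ((z.re : Hq) + z.im • n).re = z.re := by
      rw [Quaternion.re_add, Quaternion.re_smul, h0, Quaternion.re_coe]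
      simp
    have e2 : ((z.re : Hq) + z.im • n).imI = z.im * n.imI := by
      rw [Quaternion.imI_add, Quaternion.imI_smul, Quaternion.imI_coe]
      simp
    have e3 : ((z.re : Hq) + z.im • n).imJ = z.im * n.imJ := by
      rw [Quaternion.imJ_add, Quaternion.imJ_smul, Quaternion.imJ_coe]
      simp
    have e4 : ((z.re : Hq) + z.im • n).imK = z.im * n.imK := by
      rw [Quaternion.imK_add, Quaternion.imK_smul, Quaternion.imK_coe]
      simp
    rw [e1, e2, e3, e4]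
    linear_combination (-z.im ^ 2) * h3
  exact (pow_left_inj₀ (norm_nonneg _) (norm_nonneg _) two_ne_zero).1 h2

/-- complex roots of unit complex numbers -/
theorem exp_root (t : ℝ) (ht : |t| ≤ 4) {m : ℕ} (hm : 1 ≤ m) :
    ∃ w : ℂ, w ^ m = Complex.exp (Complex.I * t) ∧ ‖w‖ = 1 ∧ ‖w - 1‖ ≤ 4 / m := by
  have hm0 : (0 : ℝ) < m := by exact_mod_cast hm
  refine ⟨Complex.exp (Complex.I * ((t / m : ℝ) : ℂ)), ?_, ?_, ?_⟩
  · rw [← Complex.exp_nat_mul]
    congr 1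
    have : (m : ℂ) ≠ 0 := by exact_mod_cast hm0.ne'
    push_cast
    field_simp
  · rw [mul_comm, Complex.norm_exp_ofReal_mul_I]
  · refine Real.norm_exp_I_mul_ofReal_sub_one_le.trans ?_
    rw [Real.norm_eq_abs, abs_div, Nat.abs_cast]
    gcongr

/-- roots of unit quaternions -/
theorem q_root {q : Hq} (hq : ‖q‖ = 1) {m : ℕ} (hm : 1 ≤ m) : ∃ r : Hq, r ^ m = q ∧ ‖r‖ = 1 ∧ ‖r - 1‖ ≤ 4 / m := by
  obtain ⟨n, s, h0, h1, hqn, hns⟩ := exists_im q
  rw [hq, one_pow] at hns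
  obtain ⟨z, hz⟩ : ∃ z : ℂ, z = ⟨q.re, s⟩ := ⟨_, rfl⟩
  have hz1 : ‖z‖ = 1 := by
    have h2 : ‖z‖ ^ 2 = 1 := by
      rw [← Complex.normSq_eq_norm_sq, Complex.normSq_apply, hz]
      linarith
    nlinarith [norm_nonneg z]
  have hfz : Complex.liftAux n (im_sq h0 h1) z = q := by
    rw [lift_eq, hz]
    exact hqn.symm
  have hze : Complex.exp (Complex.I * z.arg) = z := by
    have h2 := Complex.norm_mul_exp_arg_mul_I z
    rw [hz1] at h2
    rw [mul_comm Complex.I]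
    simpa using h2
  obtain ⟨w, hw1, hw2, hw3⟩ := exp_root z.arg ((Complex.abs_arg_le_pi z).trans (by linarith [Real.pi_lt_four])) hm
  refine ⟨Complex.liftAux n (im_sq h0 h1) w, ?_, ?_, ?_⟩
  · rw [← map_pow, hw1, hze, hfz]
  · rw [norm_lift h0 h1, hw2]
  · have e : Complex.liftAux n (im_sq h0 h1) w - 1 = Complex.liftAux n (im_sq h0 h1) (w - 1) := by
      rw [map_sub, map_one]
    rw [e, norm_lift h0 h1]
    exact hw3

/-- `k` has small roots -/
def Small (k : K2) : Prop := ∀ m : ℕ, 1 ≤ m → ∃ r : K2, r ^ m = k ∧ nH ((r : MH (Fin 2)) - 1) ≤ 6 / m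

theorem diag_mem {u v : Hq} (hu : ‖u‖ = 1) (hv : ‖v‖ = 1) : (diagonal ![u, v] : MH (Fin 2)) ∈ unitary (MH (Fin 2)) := by
  rw [Unitary.mem_iff]
  constructor
  · rw [Matrix.star_eq_conjTranspose, diagonal_conjTranspose, diagonal_mul_diagonal, ← diagonal_one]
    congr 1
    funext i
    fin_cases i
    · exact u_star_mul hu
    · exact u_star_mul hv
  · rw [Matrix.star_eq_conjTranspose, diagonal_conjTranspose, diagonal_mul_diagonal, ← diagonal_one]
    congr 1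
    funext i
    fin_cases i
    · exact u_mul_star hu
    · exact u_mul_star hv

theorem small_diag {u v : Hq} (hu : ‖u‖ = 1) (hv : ‖v‖ = 1) : Small ⟨diagonal ![u, v], diag_mem hu hv⟩ := by
  intro m hm
  have hm0 : (0 : ℝ) < m := by exact_mod_cast hm
  obtain ⟨r, hr1, hr2, hr3⟩ := q_root hu hm
  obtain ⟨s, hs1, hs2, hs3⟩ := q_root hv hm
  refine ⟨⟨diagonal ![r, s], diag_mem hr2 hs2⟩, ?_, ?_⟩
  · apply Subtype.ext
    show (diagonal ![r, s] : MH (Fin 2)) ^ m = diagonal ![u, v]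
    rw [diagonal_pow]
    congr 1
    funext i
    fin_cases i
    · exact hr1
    · exact hs1
  · show nH ((diagonal ![r, s] : MH (Fin 2)) - 1) ≤ 6 / m
    unfold nH
    rw [Real.sqrt_le_left (by positivity)]
    unfold n2
    have e1 : ((diagonal ![r, s] : MH (Fin 2)) - 1) 0 0 = r - 1 := by simp
    have e2 : ((diagonal ![r, s] : MH (Fin 2)) - 1) 1 0 = 0 := by simp
    have e3 : ((diagonal ![r, s] : MH (Fin 2)) - 1) 0 1 = 0 := by simp
    have e4 : ((diagonal ![r, s] : MH (Fin 2)) - 1) 1 1 = s - 1 := by simp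
    rw [e1, e2, e3, e4, norm_zero]
    have h1 := pow_le_pow_left₀ (norm_nonneg _) hr3 2
    have h2 := pow_le_pow_left₀ (norm_nonneg _) hs3 2
    have h3 : (4 / (m : ℝ)) ^ 2 + (4 / (m : ℝ)) ^ 2 ≤ (6 / m) ^ 2 := by
      rw [div_pow, div_pow, ← add_div]
      gcongr
      norm_num
    linarith

/-- the rotations -/
noncomputable def J0 : MH (Fin 2) := !![0, -1; 1, 0]

theorem J0_sq : J0 * J0 = -1 := by
  unfold J0
  refine Matrix.ext fun i j => ?_
  rw [Matrix.mul_apply, Fin.sum_univ_two]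
  fin_cases i <;> fin_cases j <;> simp

theorem J0_star : J0ᴴ = -J0 := by
  unfold J0
  refine Matrix.ext fun i j => ?_
  rw [conjTranspose_apply]
  fin_cases i <;> fin_cases j <;> simp

/-- the rotation matrix of a complex number -/
noncomputable def rotM (z : ℂ) : MH (Fin 2) := Complex.liftAux J0 J0_sq z

theorem rotM_eq (z : ℂ) : rotM z = !![(z.re : Hq), -(z.im : Hq); (z.im : Hq), (z.re : Hq)] := by
  unfold rotM
  rw [Complex.liftAux_apply]
  unfold J0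
  refine Matrix.ext fun i j => ?_
  rw [Matrix.add_apply, Matrix.smul_apply, Matrix.algebraMap_matrix_apply]
  fin_cases i <;> fin_cases j
  · simp
  · show _ + z.im • (-1 : Hq) = -(z.im : Hq)
    rw [smul_neg, smul_one_q]
    simp
  · show _ + z.im • (1 : Hq) = (z.im : Hq)
    rw [smul_one_q]
    simp
  · simp

theorem rotM_star (z : ℂ) : (rotM z)ᴴ = rotM (starRingEnd ℂ z) := by
  rw [rotM_eq, rotM_eq]
  refine Matrix.ext fun i j => ?_
  rw [conjTranspose_apply]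
  fin_cases i <;> fin_cases j
  · simp
  · simp
  · simp
  · simp

theorem rotM_mul (z w : ℂ) : rotM (z * w) = rotM z * rotM w := map_mul _ _ _

theorem rotM_one : rotM 1 = 1 := map_one _

theorem rot_mem {z : ℂ} (hz : ‖z‖ = 1) : rotM z ∈ unitary (MH (Fin 2)) := by
  have h1 : starRingEnd ℂ z * z = 1 := by
    rw [← Complex.normSq_eq_conj_mul_self, Complex.normSq_eq_norm_sq, hz]
    simp
  rw [Unitary.mem_iff, Matrix.star_eq_conjTranspose, rotM_star, ← rotM_mul, ← rotM_mul, mul_comm z, h1, rotM_one]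
  exact ⟨rfl, rfl⟩

theorem small_rot {t : ℝ} (ht : |t| ≤ 4) {z : ℂ} (hz : ‖z‖ = 1) (hzt : z = Complex.exp (Complex.I * t)) :
    Small ⟨rotM z, rot_mem hz⟩ := by
  intro m hm
  have hm0 : (0 : ℝ) < m := by exact_mod_cast hm
  obtain ⟨w, hw1, hw2, hw3⟩ := exp_root t ht hm
  refine ⟨⟨rotM w, rot_mem hw2⟩, ?_, ?_⟩
  · apply Subtype.ext
    show rotM w ^ m = rotM z
    unfold rotM
    rw [← map_pow, hw1, hzt]
  · show nH (rotM w - 1) ≤ 6 / m
    have e : rotM w - 1 = rotM (w - 1) := by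
      unfold rotM
      rw [map_sub, map_one]
    rw [e]
    unfold nH
    rw [Real.sqrt_le_left (by positivity), rotM_eq]
    unfold n2
    have h2 : ‖w - 1‖ ^ 2 = (w - 1).re ^ 2 + (w - 1).im ^ 2 := by
      rw [← Complex.normSq_eq_norm_sq, Complex.normSq_apply]
      ring
    have e1 : ∀ x : ℝ, ‖(x : Hq)‖ ^ 2 = x ^ 2 := by
      intro x
      rw [Quaternion.norm_coe, Real.norm_eq_abs, sq_abs]
    have e2 : ∀ x : ℝ, ‖-(x : Hq)‖ ^ 2 = x ^ 2 := by
      intro x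
      rw [norm_neg, e1]
    show ‖((w - 1).re : Hq)‖ ^ 2 + ‖((w - 1).im : Hq)‖ ^ 2 + (‖-((w - 1).im : Hq)‖ ^ 2 + ‖((w - 1).re : Hq)‖ ^ 2) ≤ (6 / (m : ℝ)) ^ 2
    rw [e1, e1, e2]
    have h1 := pow_le_pow_left₀ (norm_nonneg _) hw3 2
    have h3 : (4 / (m : ℝ)) ^ 2 + (4 / (m : ℝ)) ^ 2 ≤ (6 / m) ^ 2 := by
      rw [div_pow, div_pow, ← add_div]
      gcongr
      norm_num
    linarith

theorem k_row (k : K2) (i : Fin 2) : ‖(k : MH (Fin 2)) i 0‖ ^ 2 + ‖(k : MH (Fin 2)) i 1‖ ^ 2 = 1 := by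
  have h0 : (k : MH (Fin 2)) * star (k : MH (Fin 2)) = 1 := (Unitary.mem_iff.1 k.2).2
  have h : ((k : MH (Fin 2)) * star (k : MH (Fin 2))) i i = (1 : MH (Fin 2)) i i := by rw [h0]
  rw [Matrix.mul_apply, Fin.sum_univ_two, Matrix.one_apply_eq, Matrix.star_apply, Matrix.star_apply,
    q_mul_star, q_mul_star, ← Quaternion.coe_add] at h
  exact Quaternion.coe_injective h

theorem k2_split (k : K2) : ∃ k1 k2 k3 : K2, Small k1 ∧ Small k2 ∧ Small k3 ∧ k = k1 * k2 * k3 := by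
  obtain ⟨u, hu, hau⟩ := exists_dir ((k : MH (Fin 2)) 0 0)
  obtain ⟨v, hv, hcv⟩ := exists_dir ((k : MH (Fin 2)) 1 0)
  obtain ⟨z, hz⟩ : ∃ z : ℂ, z = ⟨‖(k : MH (Fin 2)) 0 0‖, ‖(k : MH (Fin 2)) 1 0‖⟩ := ⟨_, rfl⟩
  have hz1 : ‖z‖ = 1 := by
    have h1 := norm_col k
    have h2 : ‖z‖ ^ 2 = 1 := by
      rw [← Complex.normSq_eq_norm_sq, Complex.normSq_apply, hz]
      linarith
    nlinarith [norm_nonneg z]
  have hze : z = Complex.exp (Complex.I * z.arg) := by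
    have h2 := Complex.norm_mul_exp_arg_mul_I z
    rw [hz1] at h2
    rw [mul_comm Complex.I]
    simpa using h2.symm
  obtain ⟨K1, hK1⟩ : ∃ K1 : K2, K1 = ⟨diagonal ![u, v], diag_mem hu hv⟩ := ⟨_, rfl⟩
  obtain ⟨K2', hK2⟩ : ∃ K2' : K2, K2' = ⟨rotM z, rot_mem hz1⟩ := ⟨_, rfl⟩
  obtain ⟨w, hw⟩ : ∃ w : K2, w = (K1 * K2')⁻¹ * k := ⟨_, rfl⟩
  have hkw : k = K1 * K2' * w := by
    rw [hw, mul_inv_cancel_left]
  -- the first column
  have hcol : ∀ i, (k : MH (Fin 2)) i 0 = (diagonal ![u, v] * rotM z : MH (Fin 2)) i 0 := by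
    intro i
    rw [diagonal_mul, rotM_eq, hz]
    fin_cases i
    · show (k : MH (Fin 2)) 0 0 = u * ((‖(k : MH (Fin 2)) 0 0‖ : ℝ) : Hq)
      rw [← Quaternion.coe_commutes, Quaternion.coe_mul_eq_smul]
      exact hau
    · show (k : MH (Fin 2)) 1 0 = v * ((‖(k : MH (Fin 2)) 1 0‖ : ℝ) : Hq)
      rw [← Quaternion.coe_commutes, Quaternion.coe_mul_eq_smul]
      exact hcv
  have hw0 : (w : MH (Fin 2)) 0 0 = 1 := by
    have h1 : (w : MH (Fin 2)) = star ((K1 * K2' : K2) : MH (Fin 2)) * (k : MH (Fin 2)) := by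
      rw [hw]
      rfl
    rw [h1, Matrix.mul_apply, Fin.sum_univ_two, hcol 0, hcol 1]
    have h2 : star ((K1 * K2' : K2) : MH (Fin 2)) * ((K1 * K2' : K2) : MH (Fin 2)) = 1 := (Unitary.mem_iff.1 (K1 * K2').2).1
    have h3 := congrFun (congrFun h2 0) 0
    rw [Matrix.mul_apply, Fin.sum_univ_two] at h3
    have h4 : ((K1 * K2' : K2) : MH (Fin 2)) = diagonal ![u, v] * rotM z := by
      rw [hK1, hK2]
      rfl
    rw [h4] at h3 ⊢
    rw [h3]
    rfl
  have hw1 : (w : MH (Fin 2)) 1 0 = 0 := by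
    have h1 := norm_col w
    rw [hw0, norm_one] at h1
    have h2 : ‖(w : MH (Fin 2)) 1 0‖ ^ 2 = 0 := by linarith
    exact norm_eq_zero.1 (pow_eq_zero_iff two_ne_zero |>.1 h2)
  have hw2 : (w : MH (Fin 2)) 0 1 = 0 := by
    have h1 := k_row w 0
    rw [hw0, norm_one] at h1
    have h2 : ‖(w : MH (Fin 2)) 0 1‖ ^ 2 = 0 := by linarith
    exact norm_eq_zero.1 (pow_eq_zero_iff two_ne_zero |>.1 h2)
  have hw3 : ‖(w : MH (Fin 2)) 1 1‖ = 1 := by
    have h1 := k_row w 1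
    rw [hw1, norm_zero] at h1
    nlinarith [norm_nonneg ((w : MH (Fin 2)) 1 1)]
  have hwd : w = ⟨diagonal ![1, (w : MH (Fin 2)) 1 1], diag_mem norm_one hw3⟩ := by
    apply Subtype.ext
    refine Matrix.ext fun i j => ?_
    show (w : MH (Fin 2)) i j = diagonal ![1, (w : MH (Fin 2)) 1 1] i j
    fin_cases i <;> fin_cases j
    · simpa using hw0
    · simpa using hw2
    · simpa using hw1
    · simp
  refine ⟨K1, K2', w, ?_, ?_, ?_, hkw⟩
  · rw [hK1]
    exact small_diag hu hv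
  · rw [hK2]
    exact small_rot ((Complex.abs_arg_le_pi z).trans (by linarith [Real.pi_lt_four])) hz1 hze
  · rw [hwd]
    exact small_diag norm_one hw3

end Pool.Agent.Helper42.HC
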