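import Pool.Agent.Helper84.SPQ.C3a

/-!
# Quaternionic `2 × 2` matrices

`Hm a q d = (a, q; q*, d)`, `dl M = det (Mᴴ M)`, `nH M` the Hilbert-Schmidt norm. `Hm_conj`: two hermitian matrices with the same trace and determinant are conjugate by a unitary matrix.
-/

set_option autoImplicit false
set_option linter.unusedSectionVars false

open Matrix

namespace Pool.Agent.Helper42.HC

open Pool.Agent.Helper84.SPQ

theorem q_star_mul (a : Hq) : star a * a = ((‖a‖ ^ 2 : ℝ) : Hq) := by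
  rw [Quaternion.star_mul_self, Quaternion.normSq_eq_norm_mul_self, pow_two]

theorem q_mul_star (a : Hq) : a * star a = ((‖a‖ ^ 2 : ℝ) : Hq) := by
  rw [Quaternion.self_mul_star, Quaternion.normSq_eq_norm_mul_self, pow_two]

theorem smul_one_q (r : ℝ) : r • (1 : Hq) = (r : Hq) := by
  rw [← Quaternion.coe_mul_eq_smul, mul_one]

theorem star_smul_q (r : ℝ) (a : Hq) : star (r • a) = r • star a := Quaternion.star_smul r a

/-- hermitian matrices -/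
noncomputable def Hm (a : ℝ) (q : Hq) (d : ℝ) : MH (Fin 2) := !![(a : Hq), q; star q, (d : Hq)]

/-- the square of the Hilbert-Schmidt norm -/
noncomputable def n2 (M : MH (Fin 2)) : ℝ := ‖M 0 0‖ ^ 2 + ‖M 1 0‖ ^ 2 + (‖M 0 1‖ ^ 2 + ‖M 1 1‖ ^ 2)

/-- the Hilbert-Schmidt norm -/
noncomputable def nH (M : MH (Fin 2)) : ℝ := √(n2 M)

/-- the determinant of `Mᴴ M` -/
noncomputable def dl (M : MH (Fin 2)) : ℝ :=
  (‖M 0 0‖ ^ 2 + ‖M 1 0‖ ^ 2) * (‖M 0 1‖ ^ 2 + ‖M 1 1‖ ^ 2) - ‖star (M 0 0) * M 0 1 + star (M 1 0) * M 1 1‖ ^ 2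

theorem conj_mul_self (M : MH (Fin 2)) : Mᴴ * M =
    Hm (‖M 0 0‖ ^ 2 + ‖M 1 0‖ ^ 2) (star (M 0 0) * M 0 1 + star (M 1 0) * M 1 1) (‖M 0 1‖ ^ 2 + ‖M 1 1‖ ^ 2) := by
  refine Matrix.ext fun i j => ?_
  rw [Matrix.mul_apply, Fin.sum_univ_two]
  unfold Hm
  simp only [conjTranspose_apply]
  fin_cases i <;> fin_cases j
  · show star (M 0 0) * M 0 0 + star (M 1 0) * M 1 0 = ((‖M 0 0‖ ^ 2 + ‖M 1 0‖ ^ 2 : ℝ) : Hq)
    rw [q_star_mul, q_star_mul, ← Quaternion.coe_add]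
  · rfl
  · show star (M 0 1) * M 0 0 + star (M 1 1) * M 1 0 = star (star (M 0 0) * M 0 1 + star (M 1 0) * M 1 1)
    rw [star_add, star_mul, star_mul, star_star, star_star]
  · show star (M 0 1) * M 0 1 + star (M 1 1) * M 1 1 = ((‖M 0 1‖ ^ 2 + ‖M 1 1‖ ^ 2 : ℝ) : Hq)
    rw [q_star_mul, q_star_mul, ← Quaternion.coe_add]

theorem Hm_inj {a a' d d' : ℝ} {q q' : Hq} (h : Hm a q d = Hm a' q' d') : a = a' ∧ q = q' ∧ d = d' := by
  have h1 := congrFun (congrFun h 0) 0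
  have h2 := congrFun (congrFun h 0) 1
  have h3 := congrFun (congrFun h 1) 1
  exact ⟨Quaternion.coe_injective h1, h2, Quaternion.coe_injective h3⟩

theorem n2_nonneg (M : MH (Fin 2)) : 0 ≤ n2 M := by
  unfold n2
  positivity

theorem nH_nonneg (M : MH (Fin 2)) : 0 ≤ nH M := Real.sqrt_nonneg _

theorem nH_sq (M : MH (Fin 2)) : nH M ^ 2 = n2 M := Real.sq_sqrt (n2_nonneg M)

/-- two matrices with the same `Mᴴ M` -/
theorem n2_congr {M M' : MH (Fin 2)} (h : Mᴴ * M = M'ᴴ * M') : n2 M = n2 M' ∧ dl M = dl M' := by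
  rw [conj_mul_self, conj_mul_self] at h
  obtain ⟨h1, h2, h3⟩ := Hm_inj h
  unfold n2 dl
  rw [h1, h2, h3]
  exact ⟨rfl, rfl⟩

theorem n2_star (M : MH (Fin 2)) : n2 Mᴴ = n2 M := by
  unfold n2
  simp only [conjTranspose_apply, norm_star]
  ring

theorem nH_star (M : MH (Fin 2)) : nH Mᴴ = nH M := by
  unfold nH
  rw [n2_star]

theorem n2_unit_mul {k : MH (Fin 2)} (hk : kᴴ * k = 1) (M : MH (Fin 2)) : n2 (k * M) = n2 M ∧ dl (k * M) = dl M := by
  refine n2_congr ?_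
  rw [conjTranspose_mul, Matrix.mul_assoc, ← Matrix.mul_assoc kᴴ, hk, Matrix.one_mul]

theorem nH_unit_mul {k : MH (Fin 2)} (hk : kᴴ * k = 1) (M : MH (Fin 2)) : nH (k * M) = nH M := by
  unfold nH
  rw [(n2_unit_mul hk M).1]

theorem nH_mul_unit {k : MH (Fin 2)} (hk : k * kᴴ = 1) (M : MH (Fin 2)) : nH (M * k) = nH M := by
  rw [← nH_star, conjTranspose_mul, nH_unit_mul (by rw [conjTranspose_conjTranspose]; exact hk), nH_star]

theorem n2_mul_le (A B : MH (Fin 2)) : n2 (A * B) ≤ n2 A * n2 B := by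
  have key : ∀ (a b c d : Hq), ‖a * b + c * d‖ ^ 2 ≤ (‖a‖ ^ 2 + ‖c‖ ^ 2) * (‖b‖ ^ 2 + ‖d‖ ^ 2) := by
    intro a b c d
    have h1 : ‖a * b + c * d‖ ≤ ‖a‖ * ‖b‖ + ‖c‖ * ‖d‖ := by
      refine (norm_add_le _ _).trans ?_
      rw [norm_mul, norm_mul]
    have h2 := pow_le_pow_left₀ (norm_nonneg _) h1 2
    nlinarith [sq_nonneg (‖a‖ * ‖d‖ - ‖c‖ * ‖b‖)]
  have e : ∀ i j, (A * B) i j = A i 0 * B 0 j + A i 1 * B 1 j := by
    intro i j
    rw [Matrix.mul_apply, Fin.sum_univ_two]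
  unfold n2
  rw [e, e, e, e]
  have h1 := key (A 0 0) (B 0 0) (A 0 1) (B 1 0)
  have h2 := key (A 1 0) (B 0 0) (A 1 1) (B 1 0)
  have h3 := key (A 0 0) (B 0 1) (A 0 1) (B 1 1)
  have h4 := key (A 1 0) (B 0 1) (A 1 1) (B 1 1)
  nlinarith

theorem nH_mul_le (A B : MH (Fin 2)) : nH (A * B) ≤ nH A * nH B := by
  unfold nH
  rw [← Real.sqrt_mul (n2_nonneg A)]
  exact Real.sqrt_le_sqrt (n2_mul_le A B)

theorem nH_add_le (A B : MH (Fin 2)) : nH (A + B) ≤ nH A + nH B := by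
  have key : ∀ M : MH (Fin 2), nH M = ‖(WithLp.toLp 2 (fun p : Fin 2 × Fin 2 => M p.1 p.2) : PiLp 2 fun _ : Fin 2 × Fin 2 => Hq)‖ := by
    intro M
    rw [PiLp.norm_eq_of_L2]
    unfold nH n2
    congr 1
    rw [Fintype.sum_prod_type, Fin.sum_univ_two, Fin.sum_univ_two, Fin.sum_univ_two]
    show _ = ‖M 0 0‖ ^ 2 + ‖M 0 1‖ ^ 2 + (‖M 1 0‖ ^ 2 + ‖M 1 1‖ ^ 2)
    ring
  have e : (WithLp.toLp 2 (fun p : Fin 2 × Fin 2 => (A + B) p.1 p.2) : PiLp 2 fun _ : Fin 2 × Fin 2 => Hq) =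
      (WithLp.toLp 2 (fun p : Fin 2 × Fin 2 => A p.1 p.2) : PiLp 2 fun _ : Fin 2 × Fin 2 => Hq) +
      (WithLp.toLp 2 (fun p : Fin 2 × Fin 2 => B p.1 p.2) : PiLp 2 fun _ : Fin 2 × Fin 2 => Hq) := rfl
  rw [key, key, key, e]
  exact norm_add_le _ _

theorem entry_le (M : MH (Fin 2)) (i j : Fin 2) : ‖M i j‖ ≤ nH M := by
  refine Real.le_sqrt_of_sq_le ?_
  unfold n2
  have h0 := sq_nonneg ‖M 0 0‖
  have h1 := sq_nonneg ‖M 0 1‖
  have h2 := sq_nonneg ‖M 1 0‖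
  have h3 := sq_nonneg ‖M 1 1‖
  fin_cases i <;> fin_cases j
  · show ‖M 0 0‖ ^ 2 ≤ _
    linarith
  · show ‖M 0 1‖ ^ 2 ≤ _
    linarith
  · show ‖M 1 0‖ ^ 2 ≤ _
    linarith
  · show ‖M 1 1‖ ^ 2 ≤ _
    linarith

theorem continuous_nH : Continuous nH := by
  have h : ∀ i j : Fin 2, Continuous fun M : MH (Fin 2) => M i j := fun i j => continuous_id.matrix_elem i j
  have h2 : Continuous n2 := by
    unfold n2
    exact (((h 0 0).norm.pow 2).add ((h 1 0).norm.pow 2)).add (((h 0 1).norm.pow 2).add ((h 1 1).norm.pow 2))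
  exact h2.sqrt

theorem n2_one : n2 (1 : MH (Fin 2)) = 2 := by
  unfold n2
  simp
  norm_num

theorem n2_ge {M : MH (Fin 2)} (h : dl M = 1) : 2 ≤ n2 M := by
  unfold dl at h
  unfold n2
  have h1 := sq_nonneg ‖star (M 0 0) * M 0 1 + star (M 1 0) * M 1 1‖
  have h2 : 0 ≤ ‖M 0 0‖ ^ 2 + ‖M 1 0‖ ^ 2 := by positivity
  have h3 : 0 ≤ ‖M 0 1‖ ^ 2 + ‖M 1 1‖ ^ 2 := by positivity
  nlinarith [sq_nonneg ((‖M 0 0‖ ^ 2 + ‖M 1 0‖ ^ 2) - (‖M 0 1‖ ^ 2 + ‖M 1 1‖ ^ 2))]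

/-- the adjugate -/
theorem Hm_adj (a : ℝ) (q : Hq) (d : ℝ) : Hm d (-q) a * Hm a q d = (a * d - ‖q‖ ^ 2) • (1 : MH (Fin 2)) := by
  have e1 : (q * star q : Hq) = ((‖q‖ ^ 2 : ℝ) : Hq) := q_mul_star q
  have e2 : (star q * q : Hq) = ((‖q‖ ^ 2 : ℝ) : Hq) := q_star_mul q
  refine Matrix.ext fun i j => ?_
  rw [Matrix.mul_apply, Fin.sum_univ_two, Matrix.smul_apply]
  fin_cases i <;> fin_cases j
  · show (d : Hq) * (a : Hq) + -q * star q = (a * d - ‖q‖ ^ 2) • (1 : Hq)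
    rw [neg_mul, e1, ← Quaternion.coe_mul, ← sub_eq_add_neg, ← Quaternion.coe_sub, smul_one_q, mul_comm]
  · show (d : Hq) * q + -q * (d : Hq) = (a * d - ‖q‖ ^ 2) • (0 : Hq)
    rw [smul_zero, neg_mul, (Quaternion.coe_commutes d q).symm, add_neg_cancel]
  · show star (-q) * (a : Hq) + (a : Hq) * star q = (a * d - ‖q‖ ^ 2) • (0 : Hq)
    rw [smul_zero, star_neg, neg_mul, Quaternion.coe_commutes a (star q), neg_add_cancel]
  · show star (-q) * q + (a : Hq) * (d : Hq) = (a * d - ‖q‖ ^ 2) • (1 : Hq)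
    rw [star_neg, neg_mul, e2, ← Quaternion.coe_mul, neg_add_eq_sub, ← Quaternion.coe_sub, smul_one_q]

theorem Hm_star (a : ℝ) (q : Hq) (d : ℝ) : (Hm a q d)ᴴ = Hm a q d := by
  refine Matrix.ext fun i j => ?_
  rw [conjTranspose_apply]
  unfold Hm
  fin_cases i <;> fin_cases j
  · show star (a : Hq) = (a : Hq)
    simp
  · show star (star q) = q
    rw [star_star]
  · rfl
  · show star (d : Hq) = (d : Hq)
    simp

/-- the inverse of a matrix with `dl M = 1` -/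
theorem inv_left {M : MH (Fin 2)} (h : dl M = 1) :
    Hm (‖M 0 1‖ ^ 2 + ‖M 1 1‖ ^ 2) (-(star (M 0 0) * M 0 1 + star (M 1 0) * M 1 1)) (‖M 0 0‖ ^ 2 + ‖M 1 0‖ ^ 2) * (Mᴴ * M) = 1 := by
  rw [conj_mul_self, Hm_adj]
  have h1 := h
  unfold dl at h1
  rw [h1, one_smul]

/-- the norm of the inverse -/
theorem nH_inv {M M' : MH (Fin 2)} (h : dl M = 1) (h1 : M * M' = 1) : nH M' = nH M := by
  obtain ⟨A, hA⟩ : ∃ A, A = Hm (‖M 0 1‖ ^ 2 + ‖M 1 1‖ ^ 2) (-(star (M 0 0) * M 0 1 + star (M 1 0) * M 1 1))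
    (‖M 0 0‖ ^ 2 + ‖M 1 0‖ ^ 2) := ⟨_, rfl⟩
  have h2 : A * (Mᴴ * M) = 1 := by
    rw [hA]
    exact inv_left h
  have h3 : M' = A * Mᴴ := by
    calc M' = A * (Mᴴ * M) * M' := by rw [h2, Matrix.one_mul]
      _ = A * Mᴴ * (M * M') := by simp only [Matrix.mul_assoc]
      _ = _ := by rw [h1, Matrix.mul_one]
  have h4 : M'ᴴᴴ * M'ᴴ = A := by
    rw [conjTranspose_conjTranspose, h3, conjTranspose_mul, conjTranspose_conjTranspose]
    have e : Aᴴ = A := by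
      rw [hA, Hm_star]
    rw [e]
    calc A * Mᴴ * (M * A) = A * (Mᴴ * M) * A := by simp only [Matrix.mul_assoc]
      _ = A := by rw [h2, Matrix.one_mul]
  rw [← nH_star M']
  unfold nH
  congr 1
  rw [conj_mul_self, hA] at h4
  obtain ⟨e1, -, e3⟩ := Hm_inj h4
  unfold n2
  rw [e1, e3]
  ring

theorem Hm_add (a : ℝ) (q : Hq) (d a' : ℝ) (q' : Hq) (d' : ℝ) : Hm a q d + Hm a' q' d' = Hm (a + a') (q + q') (d + d') := by
  refine Matrix.ext fun i j => ?_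
  rw [Matrix.add_apply]
  unfold Hm
  fin_cases i <;> fin_cases j
  · show (a : Hq) + (a' : Hq) = ((a + a' : ℝ) : Hq)
    rw [Quaternion.coe_add]
  · rfl
  · show star q + star q' = star (q + q')
    rw [star_add]
  · show (d : Hq) + (d' : Hq) = ((d + d' : ℝ) : Hq)
    rw [Quaternion.coe_add]

theorem Hm_scalar (r : ℝ) : Hm r 0 r = r • (1 : MH (Fin 2)) := by
  refine Matrix.ext fun i j => ?_
  rw [Matrix.smul_apply]
  unfold Hm
  fin_cases i <;> fin_cases j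
  · show (r : Hq) = r • (1 : Hq)
    rw [smul_one_q]
  · show (0 : Hq) = r • (0 : Hq)
    rw [smul_zero]
  · show star (0 : Hq) = r • (0 : Hq)
    rw [smul_zero, star_zero]
  · show (r : Hq) = r • (1 : Hq)
    rw [smul_one_q]

/-- the square of a traceless hermitian matrix -/
theorem Hm_sq (x : ℝ) (q : Hq) : Hm x q (-x) * Hm x q (-x) = (x ^ 2 + ‖q‖ ^ 2) • (1 : MH (Fin 2)) := by
  have h1 := Hm_adj x q (-x)
  have h2 : Hm (-x) (-q) x + Hm x q (-x) = 0 := by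
    rw [Hm_add, neg_add_cancel, neg_add_cancel, add_neg_cancel, Hm_scalar, zero_smul]
  have h3 : Hm (-x) (-q) x = -Hm x q (-x) := eq_neg_of_add_eq_zero_left h2
  rw [h3, Matrix.neg_mul] at h1
  rw [neg_eq_iff_eq_neg] at h1
  rw [h1, ← neg_smul]
  congr 1
  ring

/-- two traceless hermitian matrices with the same square are conjugate -/
theorem Hm_conj0 {x x' : ℝ} {q q' : Hq} (h : x ^ 2 + ‖q‖ ^ 2 = x' ^ 2 + ‖q'‖ ^ 2) :
    ∃ k : MH (Fin 2), kᴴ * k = 1 ∧ k * kᴴ = 1 ∧ kᴴ * Hm x q (-x) * k = Hm x' q' (-x') := by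
  by_cases h0 : (x + x') ^ 2 + ‖q + q'‖ ^ 2 = 0
  · -- opposite
    have h1 : x' = -x := by
      have := sq_nonneg ‖q + q'‖
      nlinarith [sq_nonneg (x + x')]
    have h2 : q' = -q := by
      have h3 : ‖q + q'‖ ^ 2 = 0 := by
        nlinarith [sq_nonneg (x + x'), sq_nonneg ‖q + q'‖]
      have h4 : q + q' = 0 := by
        rw [← norm_eq_zero]
        exact pow_eq_zero_iff (two_ne_zero) |>.1 h3
      exact eq_neg_of_add_eq_zero_right h4
    obtain ⟨u, hu, hqu⟩ : ∃ u : Hq, ‖u‖ = 1 ∧ q = (‖q‖ : ℝ) • u := by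
      by_cases hq : q = 0
      · exact ⟨1, by simp, by rw [hq]; simp⟩
      · have hq' : ‖q‖ ≠ 0 := norm_ne_zero_iff.2 hq
        refine ⟨‖q‖⁻¹ • q, ?_, ?_⟩
        · rw [norm_smul, norm_inv, norm_norm, inv_mul_cancel₀ hq']
        · rw [smul_smul, mul_inv_cancel₀ hq', one_smul]
    have u1 : u * star u = 1 := by
      rw [q_mul_star, hu]
      simp
    have u2 : star u * u = 1 := by
      rw [q_star_mul, hu]
      simp
    obtain ⟨r, hr⟩ : ∃ r : ℝ, r = ‖q‖ := ⟨_, rfl⟩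
    rw [← hr] at hqu
    have hq1 : u * star q * u = q := by
      rw [hqu, star_smul_q, mul_smul_comm, smul_mul_assoc, mul_assoc, u2, mul_one]
    have hq2 : star u * q * star u = star q := by
      rw [hqu, star_smul_q, mul_smul_comm, smul_mul_assoc, mul_assoc, u1, mul_one]
    have hk : (!![0, u; -star u, 0] : MH (Fin 2))ᴴ = !![0, -u; star u, 0] := by
      refine Matrix.ext fun i j => ?_
      rw [conjTranspose_apply]
      fin_cases i <;> fin_cases j <;> simp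
    refine ⟨!![0, u; -star u, 0], ?_, ?_, ?_⟩
    · rw [hk]
      refine Matrix.ext fun i j => ?_
      rw [Matrix.mul_apply, Fin.sum_univ_two]
      fin_cases i <;> fin_cases j <;> simp [u1, u2]
    · rw [hk]
      refine Matrix.ext fun i j => ?_
      rw [Matrix.mul_apply, Fin.sum_univ_two]
      fin_cases i <;> fin_cases j <;> simp [u1, u2]
    · rw [hk, h1, h2]
      unfold Hm
      refine Matrix.ext fun i j => ?_
      rw [Matrix.mul_apply, Fin.sum_univ_two, Matrix.mul_apply, Matrix.mul_apply, Fin.sum_univ_two, Fin.sum_univ_two]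
      have c1 : u * (x : Hq) * star u = (x : Hq) := by
        rw [Quaternion.coe_commutes x u |>.symm, mul_assoc, u1, mul_one]
      have c2 : star u * (x : Hq) * u = (x : Hq) := by
        rw [Quaternion.coe_commutes x (star u) |>.symm, mul_assoc, u2, mul_one]
      fin_cases i <;> fin_cases j
      · simp [c1]
      · simp [hq1]
      · simp [hq2]
      · simp [c2]
  · have hc : 0 < (x + x') ^ 2 + ‖q + q'‖ ^ 2 := lt_of_le_of_ne (by positivity) (Ne.symm h0)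
    obtain ⟨c, hc0, hcc⟩ : ∃ c : ℝ, c ≠ 0 ∧ c * c = (x + x') ^ 2 + ‖q + q'‖ ^ 2 :=
      ⟨√((x + x') ^ 2 + ‖q + q'‖ ^ 2), (Real.sqrt_pos.2 hc).ne', Real.mul_self_sqrt hc.le⟩
    obtain ⟨S, hS⟩ : ∃ S, S = Hm (x + x') (q + q') (-(x + x')) := ⟨_, rfl⟩
    have hS1 : S = Hm x q (-x) + Hm x' q' (-x') := by
      rw [hS, Hm_add]
      congr 1
      ring
    have hS2 : S * S = (c * c) • (1 : MH (Fin 2)) := by
      rw [hS, Hm_sq, hcc]
    have hS3 : S * Hm x q (-x) = Hm x' q' (-x') * S := by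
      rw [hS1, Matrix.add_mul, Matrix.mul_add, Hm_sq, Hm_sq, h, add_comm]
    have hSs : Sᴴ = S := by
      rw [hS, Hm_star]
    have hk : (c⁻¹ • S)ᴴ = c⁻¹ • S := by
      nth_rewrite 2 [← hSs]
      refine Matrix.ext fun i j => ?_
      rw [conjTranspose_apply, Matrix.smul_apply, Matrix.smul_apply, conjTranspose_apply, star_smul_q]
    have hkk : (c⁻¹ • S) * (c⁻¹ • S) = 1 := by
      rw [Matrix.smul_mul, Matrix.mul_smul, hS2, smul_smul, smul_smul]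
      have : c⁻¹ * c⁻¹ * (c * c) = 1 := by
        field_simp
      rw [this, one_smul]
    refine ⟨c⁻¹ • S, by rw [hk, hkk], by rw [hk, hkk], ?_⟩
    rw [hk, Matrix.smul_mul, hS3, Matrix.smul_mul, Matrix.mul_smul, Matrix.mul_assoc, hS2, Matrix.mul_smul, smul_smul,
      smul_smul, Matrix.mul_one]
    have : c⁻¹ * c⁻¹ * (c * c) = 1 := by
      field_simp
    rw [this, one_smul]

/-- two hermitian matrices with the same trace and determinant are conjugate -/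
theorem Hm_conj {a d a' d' : ℝ} {q q' : Hq} (h1 : a + d = a' + d') (h2 : a * d - ‖q‖ ^ 2 = a' * d' - ‖q'‖ ^ 2) :
    ∃ k : MH (Fin 2), kᴴ * k = 1 ∧ k * kᴴ = 1 ∧ kᴴ * Hm a q d * k = Hm a' q' d' := by
  obtain ⟨k, hk1, hk2, hk3⟩ := Hm_conj0 (x := (a - d) / 2) (x' := (a' - d') / 2) (q := q) (q' := q') (by
    have e1 : ((a - d) / 2) ^ 2 = ((a + d) / 2) ^ 2 - a * d := by ring
    have e2 : ((a' - d') / 2) ^ 2 = ((a' + d') / 2) ^ 2 - a' * d' := by ring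
    rw [e1, e2, h1]
    linarith)
  refine ⟨k, hk1, hk2, ?_⟩
  have e1 : ∀ (a d : ℝ) (q : Hq), Hm a q d = ((a + d) / 2) • (1 : MH (Fin 2)) + Hm ((a - d) / 2) q (-((a - d) / 2)) := by
    intro a d q
    rw [← Hm_scalar, Hm_add, zero_add]
    congr 1
    · ring
    · ring
  rw [e1 a d q, e1 a' d' q', Matrix.mul_add, Matrix.add_mul, hk3, h1]
  congr 1
  rw [Matrix.mul_smul, Matrix.mul_one, Matrix.smul_mul, hk1]

end Pool.Agent.Helper42.HC
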