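import Pool.Agent.Helper42.HC.QG
import Pool.Agent.Helper42.HC.CovH

/-!
# Words in `SL(2, ℍ)`

`hq x = u(x) l u(-x)`, `u(x) = (1, x; 0, 1)`, `l = (1, 0; 5, 1)`, `x` in a finite box `Bx R` of integral quaternions.
`growth`: `∑_w N(w)⁻⁴ ≥ c 2ⁿ`, the sum over the words of length `n` in the `hq x`, if the box is large (`∑ |y|⁻⁴ = ∞` over the integral quaternions).
`pp_haagerup`: the `hq x` play ping-pong.
-/

set_option autoImplicit false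
set_option linter.unusedSectionVars false

open Matrix MeasureTheory Topology Filter

namespace Pool.Agent.Helper42.HC

open Pool.Agent.Helper84.SPQ Pool.Agent.Helper55.FP

/-- upper unipotents -/
noncomputable def uM (x : Hq) : MH (Fin 2) := !![1, x; 0, 1]

/-- the lower unipotent -/
noncomputable def lM : MH (Fin 2) := !![1, 0; ((5 : ℝ) : Hq), 1]

theorem dl_uM (x : Hq) : dl (uM x) = 1 := by
  unfold dl uM
  show (‖(1 : Hq)‖ ^ 2 + ‖(0 : Hq)‖ ^ 2) * (‖x‖ ^ 2 + ‖(1 : Hq)‖ ^ 2) - ‖star (1 : Hq) * x + star (0 : Hq) * 1‖ ^ 2 = 1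
  rw [star_one, star_zero, one_mul, zero_mul, add_zero, norm_one, norm_zero]
  ring

theorem dl_lM : dl lM = 1 := by
  unfold dl lM
  show (‖(1 : Hq)‖ ^ 2 + ‖((5 : ℝ) : Hq)‖ ^ 2) * (‖(0 : Hq)‖ ^ 2 + ‖(1 : Hq)‖ ^ 2) -
    ‖star (1 : Hq) * 0 + star ((5 : ℝ) : Hq) * 1‖ ^ 2 = 1
  rw [mul_zero, zero_add, mul_one, norm_star, norm_one, norm_zero, Quaternion.norm_coe]
  norm_num

variable {G : Type} [Group G] [TopologicalSpace G] (Q : QG G)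

/-- upper unipotents in `G` -/
noncomputable def QG.u (x : Hq) : G := (Q.surj _ (dl_uM x)).choose

theorem QG.φu (x : Hq) : Q.φ (Q.u x) = uM x := (Q.surj _ (dl_uM x)).choose_spec

/-- the lower unipotent in `G` -/
noncomputable def QG.l : G := (Q.surj _ dl_lM).choose

theorem QG.φl : Q.φ Q.l = lM := (Q.surj _ dl_lM).choose_spec

theorem uM_add (x y : Hq) : uM (x + y) = uM x * uM y := by
  unfold uM
  refine Matrix.ext fun i j => ?_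
  rw [Matrix.mul_apply, Fin.sum_univ_two]
  fin_cases i <;> fin_cases j
  · simp
  · show x + y = 1 * y + x * 1
    rw [one_mul, mul_one, add_comm]
  · simp
  · simp

theorem QG.u_add (x y : Hq) : Q.u (x + y) = Q.u x * Q.u y := by
  apply Q.inj
  rw [map_mul, Q.φu, Q.φu, Q.φu, uM_add]

theorem QG.u_zero : Q.u 0 = 1 := by
  have h := Q.u_add 0 0
  rw [add_zero] at h
  exact left_eq_mul.1 h

/-- the letters -/
noncomputable def QG.h (x : Hq) : G := Q.u x * Q.l * Q.u (-x)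

/-- the step -/
theorem QG.step (x y : Hq) (g : G) : Q.N (Q.u (-x) * (Q.h y * g)) ≤ Q.N (Q.u (y - x) * Q.l) * Q.N (Q.u (-y) * g) := by
  have e : Q.u (-x) * (Q.h y * g) = Q.u (y - x) * Q.l * (Q.u (-y) * g) := by
    unfold QG.h
    rw [sub_eq_neg_add, Q.u_add]
    simp only [mul_assoc]
  rw [e]
  exact Q.N_mul _ _

theorem QG.N_ul {z : Hq} (hz : 1 ≤ ‖z‖) : Q.N (Q.u z * Q.l) ^ 4 ≤ 4000 * ‖z‖ ^ 4 := by
  have e1 : Q.φ (Q.u z * Q.l) = !![1 + z * ((5 : ℝ) : Hq), z; ((5 : ℝ) : Hq), 1] := by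
    rw [map_mul, Q.φu, Q.φl]
    unfold uM lM
    refine Matrix.ext fun i j => ?_
    rw [Matrix.mul_apply, Fin.sum_univ_two]
    fin_cases i <;> fin_cases j <;> simp
  have e2 : Q.N (Q.u z * Q.l) ^ 2 ≤ 63 * ‖z‖ ^ 2 := by
    unfold QG.N
    rw [nH_sq, e1]
    unfold n2
    show ‖1 + z * ((5 : ℝ) : Hq)‖ ^ 2 + ‖((5 : ℝ) : Hq)‖ ^ 2 + (‖z‖ ^ 2 + ‖(1 : Hq)‖ ^ 2) ≤ 63 * ‖z‖ ^ 2
    have h1 : ‖1 + z * ((5 : ℝ) : Hq)‖ ≤ 1 + ‖z‖ * 5 := by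
      refine (norm_add_le _ _).trans ?_
      rw [norm_mul, norm_one, Quaternion.norm_coe]
      norm_num
    have h2 := pow_le_pow_left₀ (norm_nonneg _) h1 2
    rw [Quaternion.norm_coe, norm_one]
    have h3 : ‖(5 : ℝ)‖ = 5 := by norm_num
    rw [h3]
    nlinarith
  have e3 : Q.N (Q.u z * Q.l) ^ 4 = (Q.N (Q.u z * Q.l) ^ 2) ^ 2 := by ring
  rw [e3]
  have e4 := pow_le_pow_left₀ (by positivity) e2 2
  nlinarith [sq_nonneg (‖z‖ ^ 2)]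

/-- the box -/
abbrev Bx (R : ℕ) : Type := Fin 4 → Fin (2 * R + 1)

/-- the points -/
noncomputable def pt {R : ℕ} (x : Bx R) : Hq := ⟨((x 0 : ℕ) : ℝ), ((x 1 : ℕ) : ℝ), ((x 2 : ℕ) : ℝ), ((x 3 : ℕ) : ℝ)⟩

theorem norm_pt_sub {R : ℕ} (x y : Bx R) : ‖pt x - pt y‖ ^ 2 =
    (((x 0 : ℕ) : ℝ) - ((y 0 : ℕ) : ℝ)) ^ 2 + (((x 1 : ℕ) : ℝ) - ((y 1 : ℕ) : ℝ)) ^ 2 +
      (((x 2 : ℕ) : ℝ) - ((y 2 : ℕ) : ℝ)) ^ 2 + (((x 3 : ℕ) : ℝ) - ((y 3 : ℕ) : ℝ)) ^ 2 := by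
  rw [norm_sq_q]
  rfl

theorem pt_sep {R : ℕ} {x y : Bx R} (h : x ≠ y) : 1 ≤ ‖pt x - pt y‖ := by
  obtain ⟨i, hi⟩ : ∃ i, x i ≠ y i := by
    by_contra hcon
    push Not at hcon
    exact h (funext hcon)
  have h1 : 1 ≤ (((x i : ℕ) : ℝ) - ((y i : ℕ) : ℝ)) ^ 2 := by
    have h2 : ((x i : ℕ) : ℤ) - ((y i : ℕ) : ℤ) ≠ 0 := by
      intro h3
      apply hi
      apply Fin.ext
      omega
    have h3 : (1 : ℤ) ≤ (((x i : ℕ) : ℤ) - ((y i : ℕ) : ℤ)) ^ 2 := by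
      have := sq_pos_of_ne_zero h2 (R := ℤ)
      omega
    exact_mod_cast h3
  have h2 : 1 ≤ ‖pt x - pt y‖ ^ 2 := by
    rw [norm_pt_sub]
    have a0 := sq_nonneg (((x 0 : ℕ) : ℝ) - ((y 0 : ℕ) : ℝ))
    have a1 := sq_nonneg (((x 1 : ℕ) : ℝ) - ((y 1 : ℕ) : ℝ))
    have a2 := sq_nonneg (((x 2 : ℕ) : ℝ) - ((y 2 : ℕ) : ℝ))
    have a3 := sq_nonneg (((x 3 : ℕ) : ℝ) - ((y 3 : ℕ) : ℝ))
    fin_cases i
    · have h1' : 1 ≤ (((x 0 : ℕ) : ℝ) - ((y 0 : ℕ) : ℝ)) ^ 2 := h1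
      linarith
    · have h1' : 1 ≤ (((x 1 : ℕ) : ℝ) - ((y 1 : ℕ) : ℝ)) ^ 2 := h1
      linarith
    · have h1' : 1 ≤ (((x 2 : ℕ) : ℝ) - ((y 2 : ℕ) : ℝ)) ^ 2 := h1
      linarith
    · have h1' : 1 ≤ (((x 3 : ℕ) : ℝ) - ((y 3 : ℕ) : ℝ)) ^ 2 := h1
      linarith
  exact (one_le_sq_iff₀ (norm_nonneg _)).1 h2

/-- the neighbours -/
def nbv {R : ℕ} (M : Fin R) (a : Fin 3 → Fin ((M : ℕ) + 1)) : Fin 4 → ℕ := ![(M : ℕ) + 1, a 0, a 1, a 2]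

theorem nbv_le {R : ℕ} (M : Fin R) (a : Fin 3 → Fin ((M : ℕ) + 1)) (i : Fin 4) : nbv M a i ≤ (M : ℕ) + 1 := by
  have h0 := (a 0).2
  have h1 := (a 1).2
  have h2 := (a 2).2
  fin_cases i
  · exact le_refl _
  · show (a 0 : ℕ) ≤ M + 1
    omega
  · show (a 1 : ℕ) ≤ M + 1
    omega
  · show (a 2 : ℕ) ≤ M + 1
    omega

theorem nbv_inj {R : ℕ} (M : Fin R) (a : Fin 3 → Fin ((M : ℕ) + 1)) (M' : Fin R) (a' : Fin 3 → Fin ((M' : ℕ) + 1))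
    (h : nbv M a = nbv M' a') : (⟨M, a⟩ : Σ M : Fin R, (Fin 3 → Fin ((M : ℕ) + 1))) = ⟨M', a'⟩ := by
  have h0 : (M : ℕ) + 1 = M' + 1 := congrFun h 0
  have h1 : (a 0 : ℕ) = a' 0 := congrFun h 1
  have h2 : (a 1 : ℕ) = a' 1 := congrFun h 2
  have h3 : (a 2 : ℕ) = a' 2 := congrFun h 3
  have hM : M = M' := Fin.ext (by omega)
  subst hM
  congr 1
  funext i
  apply Fin.ext
  fin_cases i
  · exact h1
  · exact h2
  · exact h3

/-- the neighbours in the box -/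
def nb {R : ℕ} (x : Bx R) (t : Σ M : Fin R, (Fin 3 → Fin ((M : ℕ) + 1))) : Bx R := fun i =>
  if h : (x i : ℕ) ≤ R then ⟨(x i : ℕ) + nbv t.1 t.2 i, by
    have := nbv_le t.1 t.2 i
    have := t.1.2
    omega⟩ else ⟨(x i : ℕ) - nbv t.1 t.2 i, by
    have := (x i).2
    omega⟩

theorem nb_inj {R : ℕ} (x : Bx R) : Function.Injective (nb x) := by
  rintro ⟨M, a⟩ ⟨M', a'⟩ h
  refine nbv_inj M a M' a' ?_
  funext i
  have h1 := congrArg (fun z : Fin (2 * R + 1) => (z : ℕ)) (congrFun h i)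
  have h2 := nbv_le M a i
  have h3 := nbv_le M' a' i
  have h4 := M.2
  have h5 := M'.2
  unfold nb at h1
  by_cases hx : (x i : ℕ) ≤ R
  · simp only [dif_pos hx] at h1
    omega
  · simp only [dif_neg hx] at h1
    omega

theorem nb_dist {R : ℕ} (x : Bx R) (t : Σ M : Fin R, (Fin 3 → Fin ((M : ℕ) + 1))) (i : Fin 4) :
    (((nb x t i : ℕ) : ℝ) - ((x i : ℕ) : ℝ)) ^ 2 = ((nbv t.1 t.2 i : ℕ) : ℝ) ^ 2 := by
  unfold nb
  by_cases hx : (x i : ℕ) ≤ R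
  · simp only [dif_pos hx]
    push_cast
    ring
  · simp only [dif_neg hx]
    have h1 := nbv_le t.1 t.2 i
    have h2 := t.1.2
    rw [Nat.cast_sub (by omega)]
    ring

theorem nb_bound {R : ℕ} (x : Bx R) (t : Σ M : Fin R, (Fin 3 → Fin ((M : ℕ) + 1))) :
    1 ≤ ‖pt (nb x t) - pt x‖ ∧ ‖pt (nb x t) - pt x‖ ^ 2 ≤ 4 * ((t.1 : ℕ) + 1 : ℝ) ^ 2 := by
  have hle : ∀ i, ((nbv t.1 t.2 i : ℕ) : ℝ) ^ 2 ≤ ((t.1 : ℕ) + 1 : ℝ) ^ 2 := by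
    intro i
    refine pow_le_pow_left₀ (by positivity) ?_ 2
    have := nbv_le t.1 t.2 i
    exact_mod_cast this
  have h0 : ((nbv t.1 t.2 0 : ℕ) : ℝ) = (t.1 : ℕ) + 1 := by
    have : nbv t.1 t.2 0 = (t.1 : ℕ) + 1 := rfl
    rw [this]
    push_cast
    ring
  constructor
  · have h1 : 1 ≤ ‖pt (nb x t) - pt x‖ ^ 2 := by
      rw [norm_pt_sub, nb_dist, nb_dist, nb_dist, nb_dist, h0]
      have a1 := sq_nonneg ((nbv t.1 t.2 1 : ℕ) : ℝ)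
      have a2 := sq_nonneg ((nbv t.1 t.2 2 : ℕ) : ℝ)
      have a3 := sq_nonneg ((nbv t.1 t.2 3 : ℕ) : ℝ)
      have a4 : (0 : ℝ) ≤ (t.1 : ℕ) := Nat.cast_nonneg _
      nlinarith
    exact (one_le_sq_iff₀ (norm_nonneg _)).1 h1
  · rw [norm_pt_sub, nb_dist, nb_dist, nb_dist, nb_dist]
    have a0 := hle 0
    have a1 := hle 1
    have a2 := hle 2
    have a3 := hle 3
    linarith

/-- one step of the walk -/
theorem QG.step_sum {R : ℕ} (hR : 128000 ≤ ∑ M ∈ Finset.range R, (1 : ℝ) / (M + 1)) (x : Bx R) :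
    2 ≤ ∑ y : Bx R, (Q.N (Q.u (pt y - pt x) * Q.l) ^ 4)⁻¹ := by
  have hN : ∀ g : G, 0 < Q.N g := fun g => lt_of_lt_of_le one_pos (Q.N_ge g)
  have h1 : ∑ t : (Σ M : Fin R, (Fin 3 → Fin ((M : ℕ) + 1))), (Q.N (Q.u (pt (nb x t) - pt x) * Q.l) ^ 4)⁻¹ ≤
      ∑ y : Bx R, (Q.N (Q.u (pt y - pt x) * Q.l) ^ 4)⁻¹ := by
    classical
    rw [← Finset.sum_image (s := Finset.univ) (g := nb x) (f := fun y : Bx R => (Q.N (Q.u (pt y - pt x) * Q.l) ^ 4)⁻¹)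
      (fun a _ b _ e => nb_inj x e)]
    exact Finset.sum_le_univ_sum_of_nonneg fun y => by have := hN (Q.u (pt y - pt x) * Q.l); positivity
  refine le_trans ?_ h1
  have h2 : ∀ t : (Σ M : Fin R, (Fin 3 → Fin ((M : ℕ) + 1))), (1 / 64000 : ℝ) * (1 / ((t.1 : ℕ) + 1 : ℝ) ^ 4) ≤
      (Q.N (Q.u (pt (nb x t) - pt x) * Q.l) ^ 4)⁻¹ := by
    intro t
    obtain ⟨b1, b2⟩ := nb_bound x t
    have h3 := Q.N_ul b1
    have h4 : ‖pt (nb x t) - pt x‖ ^ 4 ≤ 16 * ((t.1 : ℕ) + 1 : ℝ) ^ 4 := by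
      have e1 : ‖pt (nb x t) - pt x‖ ^ 4 = (‖pt (nb x t) - pt x‖ ^ 2) ^ 2 := by ring
      rw [e1]
      have e2 := pow_le_pow_left₀ (by positivity) b2 2
      refine e2.trans (le_of_eq ?_)
      ring
    have h5 : Q.N (Q.u (pt (nb x t) - pt x) * Q.l) ^ 4 ≤ 64000 * ((t.1 : ℕ) + 1 : ℝ) ^ 4 := by linarith
    have h6 := hN (Q.u (pt (nb x t) - pt x) * Q.l)
    have e3 : (1 / 64000 : ℝ) * (1 / ((t.1 : ℕ) + 1 : ℝ) ^ 4) = (64000 * ((t.1 : ℕ) + 1 : ℝ) ^ 4)⁻¹ := by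
      rw [mul_inv, one_div, one_div]
    rw [e3]
    exact inv_anti₀ (by positivity) h5
  refine le_trans ?_ (Finset.sum_le_sum fun t _ => h2 t)
  rw [Fintype.sum_sigma]
  simp only [Finset.sum_const, Finset.card_univ, Fintype.card_fun, Fintype.card_fin, nsmul_eq_mul]
  have h3 : ∀ M : Fin R, ((((M : ℕ) + 1) ^ 3 : ℕ) : ℝ) * ((1 / 64000 : ℝ) * (1 / ((M : ℕ) + 1 : ℝ) ^ 4)) =
      (1 / 64000) * ((1 : ℝ) / ((M : ℕ) + 1)) := by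
    intro M
    have : ((M : ℕ) + 1 : ℝ) ≠ 0 := by positivity
    push_cast
    field_simp
  rw [Finset.sum_congr rfl fun M _ => h3 M, ← Finset.mul_sum, Fin.sum_univ_eq_sum_range (fun M : ℕ => (1 : ℝ) / (M + 1))]
  linarith

/-- the growth of the words -/
theorem QG.growth : ∃ (R : ℕ) (c : ℝ), 0 < c ∧ 1 ≤ R ∧ ∀ n, c * 2 ^ n ≤
    wsum n fun l : List (Bx R) => (Q.N (pw (fun x => Q.h (pt x)) l) ^ 4)⁻¹ := by
  obtain ⟨R, hR1, hR⟩ : ∃ R : ℕ, 1 ≤ R ∧ 128000 ≤ ∑ M ∈ Finset.range R, (1 : ℝ) / (M + 1) := by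
    have h1 := Real.tendsto_sum_range_one_div_nat_succ_atTop
    have h2 := h1.eventually_ge_atTop 128000
    obtain ⟨R, hR1, hR2⟩ := ((eventually_ge_atTop 1).and h2).exists
    exact ⟨R, hR1, hR2⟩
  have hN : ∀ g : G, 0 < Q.N g := fun g => lt_of_lt_of_le one_pos (Q.N_ge g)
  obtain ⟨c, hc, hcx⟩ : ∃ c : ℝ, 0 < c ∧ ∀ x : Bx R, c ≤ (Q.N (Q.u (-pt x)) ^ 4)⁻¹ := by
    obtain ⟨x0, hx0⟩ := Finite.exists_min fun x : Bx R => (Q.N (Q.u (-pt x)) ^ 4)⁻¹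
    exact ⟨_, by have := hN (Q.u (-pt x0)); positivity, hx0⟩
  have key : ∀ (n : ℕ) (x : Bx R), c * 2 ^ n ≤
      wsum n fun l : List (Bx R) => (Q.N (Q.u (-pt x) * pw (fun x => Q.h (pt x)) l) ^ 4)⁻¹ := by
    intro n
    induction n with
    | zero =>
      intro x
      show c * 2 ^ 0 ≤ (Q.N (Q.u (-pt x) * 1) ^ 4)⁻¹
      rw [pow_zero, mul_one, mul_one]
      exact hcx x
    | succ n ih =>
      intro x
      rw [wsum_succ]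
      have h1 : ∀ y : Bx R, (Q.N (Q.u (pt y - pt x) * Q.l) ^ 4)⁻¹ * (c * 2 ^ n) ≤
          wsum n fun l : List (Bx R) => (Q.N (Q.u (-pt x) * pw (fun x => Q.h (pt x)) (y :: l)) ^ 4)⁻¹ := by
        intro y
        have h2 := hN (Q.u (pt y - pt x) * Q.l)
        refine (mul_le_mul_of_nonneg_left (ih y) (by positivity)).trans ?_
        rw [← wsum_mul]
        refine wsum_mono n fun l _ => ?_
        rw [pw_cons, ← mul_inv, ← mul_pow]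
        have h3 := Q.step (pt x) (pt y) (pw (fun x => Q.h (pt x)) l)
        have h4 := hN (Q.u (-pt x) * (Q.h (pt y) * pw (fun x => Q.h (pt x)) l))
        exact inv_anti₀ (by positivity) (pow_le_pow_left₀ h4.le h3 4)
      refine le_trans ?_ (Finset.sum_le_sum fun y _ => h1 y)
      rw [← Finset.sum_mul]
      have h2 := Q.step_sum hR x
      have h3 : 2 * (c * 2 ^ n) ≤ (∑ y : Bx R, (Q.N (Q.u (pt y - pt x) * Q.l) ^ 4)⁻¹) * (c * 2 ^ n) :=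
        mul_le_mul_of_nonneg_right h2 (by positivity)
      refine le_trans (le_of_eq ?_) h3
      ring
  refine ⟨R, c, hc, hR1, fun n => ?_⟩
  have h1 := key n 0
  have h2 : pt (0 : Bx R) = 0 := by
    have h3 : ∀ i : Fin 4, (((0 : Bx R) i : ℕ) : ℝ) = 0 := fun i => by simp
    unfold pt
    rw [h3, h3, h3, h3]
    rfl
  rw [h2, neg_zero, Q.u_zero] at h1
  simpa only [one_mul] using h1

end Pool.Agent.Helper42.HC
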